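import Mathlib
import Pool.Agent.H.MP_59b15d_al.h76m.Hh
import Pool.Agent.H.MP_59b15d_al.h76r.Ro

set_option autoImplicit false

namespace Pool.MP_59b15d_al.H73E

open Pool.MP_59b15d_al.H24T Pool.MP_59b15d_al.H76R
open Pool.MP_59b15d_al.H76 (InnMod congSub mem_congSub congSub_normal congSub_finiteIndex
  conj_innMod innMod_mono apply_mem_of_char exists_char_le comap_fi map_fi surf_fg inf_char
  finite_hom)
open FreeGroup (of)

/-- The value of a word in two letters. -/
def ev {P : Type*} [Group P] (x y : P) : FreeGroup (Fin 2) →* P := FreeGroup.lift ![x, y]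

theorem ev_zero {P : Type*} [Group P] (x y : P) : ev x y (of 0) = x := by simp [ev]

theorem ev_one {P : Type*} [Group P] (x y : P) : ev x y (of 1) = y := by simp [ev]

theorem ev_map {P Q : Type*} [Group P] [Group Q] (f : P →* Q) (x y : P) (w : FreeGroup (Fin 2)) :
    f (ev x y w) = ev (f x) (f y) w := by
  have h1 : f.comp (ev x y) = ev (f x) (f y) := by
    ext i
    rw [MonoidHom.comp_apply]
    fin_cases i
    · change f (ev x y (of 0)) = ev (f x) (f y) (of 0)
      rw [ev_zero, ev_zero]
    · change f (ev x y (of 1)) = ev (f x) (f y) (of 1)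
      rw [ev_one, ev_one]
  exact DFunLike.congr_fun h1 w

theorem mem_ev {P : Type*} [Group P] {x y z : P} (hz : z ∈ Subgroup.closure {x, y}) :
    ∃ w, ev x y w = z := by
  have h1 : Subgroup.closure {x, y} ≤ (ev x y).range := by
    rw [Subgroup.closure_le]
    rintro t (rfl | rfl)
    · exact ⟨of 0, ev_zero _ _⟩
    · exact ⟨of 1, ev_one _ _⟩
  exact h1 hz

/-- A characteristic subgroup of finite index contained in the kernels of all homomorphisms to a
given finite group. -/
theorem exists_deep (P : Type*) [Group P] [Group.FG P] (L : Type*) [Group L] [Finite L] :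
    ∃ U : Subgroup P, U.Characteristic ∧ U.FiniteIndex ∧
      ∀ (φ : P →* L) (x : P), x ∈ U → φ x = 1 := by
  have hfin : Finite (P →* L) := finite_hom
  refine ⟨⨅ f : P →* L, f.ker, ?_, ?_, ?_⟩
  · rw [Subgroup.characteristic_iff_le_comap]
    intro φ x hx
    rw [Subgroup.mem_comap, Subgroup.mem_iInf]
    intro f
    rw [Subgroup.mem_iInf] at hx
    have := hx (f.comp φ.toMonoidHom)
    rw [MonoidHom.mem_ker] at this ⊢
    exact this
  · apply Subgroup.finiteIndex_iInf
    intro f
    exact Subgroup.finiteIndex_ker f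
  · intro φ x hx
    rw [Subgroup.mem_iInf] at hx
    exact hx φ

/-- The boundary of the handles after the first `m`. -/
def zl (n m : ℕ) : Fr n := (dl m)⁻¹ * dl n

theorem dl_mul_zl (n m : ℕ) : dl m * zl n m = dl n := by
  rw [zl, mul_inv_cancel_left]

/-- The homomorphism from the free group to the closed surface group. -/
def qH {n : ℕ} {P : Type*} [Group P] (x y : Fin n → P) : Fr n →* P :=
  FreeGroup.lift (Sum.elim x y)

section qh

variable {n : ℕ} {P : Type*} [Group P] {x y : Fin n → P}

theorem qH_a (k : Fin n) : qH x y (of (Sum.inl k)) = x k := by simp [qH]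
theorem qH_b (k : Fin n) : qH x y (of (Sum.inr k)) = y k := by simp [qH]

theorem qH_surj (hP : IsSurf x y) : Function.Surjective (qH x y) := by
  rw [← MonoidHom.range_eq_top, eq_top_iff, ← hP.closure_eq, Subgroup.closure_le]
  rintro _ (⟨i, rfl⟩ | ⟨i, rfl⟩)
  · exact ⟨_, qH_a i⟩
  · exact ⟨_, qH_b i⟩

theorem qH_dl (hP : IsSurf x y) : qH x y (dl n) = 1 := by
  rw [dl_eq', map_relWord]
  simp only [qH_a, qH_b]
  exact hP.relWord_eq

/-- Homomorphisms killing the boundary factor through the closed surface group. -/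
theorem qH_factor (hP : IsSurf x y) {T : Type*} [Group T] (ρ : Fr n →* T) (hρ : ρ (dl n) = 1) :
    ∃ σ : P →* T, ∀ z, σ (qH x y z) = ρ z := by
  have h1 : relWord (fun i => ρ (of (Sum.inl i))) (fun i => ρ (of (Sum.inr i))) = 1 := by
    rw [dl_eq', map_relWord] at hρ
    exact hρ
  obtain ⟨σ, h2, h3⟩ := hP.lift _ _ h1
  refine ⟨σ, fun z => ?_⟩
  have h4 : σ.comp (qH x y) = ρ := by
    ext i
    rcases i with k | k
    · change σ (qH x y (of (Sum.inl k))) = ρ (of (Sum.inl k))
      rw [qH_a, h2]
    · change σ (qH x y (of (Sum.inr k))) = ρ (of (Sum.inr k))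
      rw [qH_b, h3]
  exact DFunLike.congr_fun h4 z

/-- The kernel of the map to the closed surface group. -/
theorem qH_ker (hP : IsSurf x y) {z : Fr n} (hz : qH x y z = 1) :
    z ∈ Subgroup.normalClosure {(dl n : Fr n)} := by
  let ρ : Fr n →* Fr n ⧸ Subgroup.normalClosure {(dl n : Fr n)} := QuotientGroup.mk' _
  obtain ⟨σ, hσ⟩ := qH_factor hP ρ (by
    rw [QuotientGroup.mk'_apply, QuotientGroup.eq_one_iff]
    exact Subgroup.subset_normalClosure rfl)
  have h1 := hσ z
  rw [hz, map_one] at h1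
  exact (QuotientGroup.eq_one_iff z).mp h1.symm

end qh

/-- Automorphisms conjugating the first `m` handles by their boundary and the others by the inverse
of their boundary. -/
def IsPS (n m : ℕ) (τ : MulAut (Fr n)) : Prop :=
  (∀ k : Fin n, (k : ℕ) < m → τ (of (Sum.inl k)) = dl m * of (Sum.inl k) * (dl m)⁻¹ ∧
    τ (of (Sum.inr k)) = dl m * of (Sum.inr k) * (dl m)⁻¹) ∧
  ∀ k : Fin n, m ≤ (k : ℕ) → τ (of (Sum.inl k)) = (zl n m)⁻¹ * of (Sum.inl k) * zl n m ∧
    τ (of (Sum.inr k)) = (zl n m)⁻¹ * of (Sum.inr k) * zl n m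

/-- The subgroup of the handles from the handle `1` on. -/
def FH (n : ℕ) : Subgroup (Fr n) :=
  Subgroup.closure {z | ∃ k : Fin n, 1 ≤ (k : ℕ) ∧ (z = of (Sum.inl k) ∨ z = of (Sum.inr k))}

end Pool.MP_59b15d_al.H73E
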