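import Mathlib
import Pool.Agent.H.MP_59b15d_al.h76r.Defs

set_option autoImplicit false

namespace Pool.MP_59b15d_al.H73E

open Pool.MP_59b15d_al.H76R

variable {g : ℕ} {G : Type*} [Group G]

/-- `T` is the twist about the boundary of the first `g` handles: it conjugates their generators by
`d = ∏ [a i, b i]` (product over the first `g` handles) and fixes the last handle. -/
def IsBd (a b : Fin (g + 1) → G) (T : MulAut G) : Prop :=
  ∃ d : G, d = (List.ofFn fun i : Fin g =>
      a i.castSucc * b i.castSucc * (a i.castSucc)⁻¹ * (b i.castSucc)⁻¹).prod ∧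
    (∀ i : Fin g, T (a i.castSucc) = d * a i.castSucc * d⁻¹ ∧
      T (b i.castSucc) = d * b i.castSucc * d⁻¹) ∧
    T (a (Fin.last g)) = a (Fin.last g) ∧ T (b (Fin.last g)) = b (Fin.last g)

/-- The mapping class group of the subsurface formed by the first `g` handles: generated by its
twists and the twist about its boundary. -/
def BMod (a b : Fin (g + 1) → G) : Subgroup (MulAut G) :=
  Subgroup.closure (Twists a b (fun i => i < g) (fun i => i < g) (fun j => j < g) ∪ {T | IsBd a b T})

/-- `f` maps the image of the free group of the first `g` handles to itself and induces `φ` on the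
closed surface group with the standard generators `a, b`. -/
def Induces {G' : Type*} [Group G'] (a b : Fin g → G) (a' b' : Fin (g + 1) → G')
    (f : MulAut G') (φ : MulAut G) : Prop :=
  ∀ z : FreeGroup (Fin g ⊕ Fin g), ∃ z' : FreeGroup (Fin g ⊕ Fin g),
    f (subHom a' b' g (Nat.le_succ g) z) = subHom a' b' g (Nat.le_succ g) z' ∧
    φ (subHom a b g le_rfl z) = subHom a b g le_rfl z'

end Pool.MP_59b15d_al.H73E
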