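import Mathlib
import Pool.Agent.H.MP_59b15d_al.h76r.Rq

set_option autoImplicit false

namespace Pool.MP_59b15d_al.H73E

open Pool.MP_59b15d_al.H24T Pool.MP_59b15d_al.H76R
open Pool.MP_59b15d_al.H76 (InnMod congSub mem_congSub congSub_normal congSub_finiteIndex
  conj_innMod innMod_mono apply_mem_of_char exists_char_le comap_fi map_fi surf_fg inf_char
  finite_hom)
open FreeGroup (of)

/-- Embedding into a group in which two elements are conjugate. -/
theorem Hn_hnn {F : Type} [Group F] (u v : F) (χ : F →* Multiplicative ℤ)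
    (hu : χ u = Multiplicative.ofAdd 1) (hv : χ v = Multiplicative.ofAdd 1) :
    ∃ (K : Type) (_ : Group K) (o : F →* K) (s : K), Function.Injective o ∧
      s * o u * s⁻¹ = o v := by
  have key : ∀ w : F, χ w = Multiplicative.ofAdd 1 → Function.Injective (zpowersHom F w) := by
    intro w hw
    have h1 : χ.comp (zpowersHom F w) = MonoidHom.id _ := by
      apply MonoidHom.ext_mint
      rw [MonoidHom.comp_apply, zpowersHom_apply, MonoidHom.id_apply, map_zpow, hw]
      rfl
    intro x y hxy
    have h2 := congrArg χ hxy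
    have h3 : ∀ z, χ (zpowersHom F w z) = z := fun z => DFunLike.congr_fun h1 z
    rwa [h3, h3] at h2
  have iu := key u hu
  have iv := key v hv
  let φ : (zpowersHom F u).range ≃* (zpowersHom F v).range :=
    (MonoidHom.ofInjective iu).symm.trans (MonoidHom.ofInjective iv)
  have hφ : ((φ (MonoidHom.ofInjective iu (Multiplicative.ofAdd 1))) : F) = v := by
    change ((MonoidHom.ofInjective iv ((MonoidHom.ofInjective iu).symm
      (MonoidHom.ofInjective iu (Multiplicative.ofAdd 1)))) : F) = v
    rw [MulEquiv.symm_apply_apply, MonoidHom.ofInjective_apply, zpowersHom_apply]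
    simp
  have hu' : ((MonoidHom.ofInjective iu (Multiplicative.ofAdd 1)) : F) = u := by
    rw [MonoidHom.ofInjective_apply, zpowersHom_apply]
    simp
  refine ⟨HNNExtension F _ _ φ, inferInstance, HNNExtension.of, HNNExtension.t,
    HNNExtension.of_injective φ, ?_⟩
  have h := HNNExtension.equiv_eq_conj (φ := φ)
    (MonoidHom.ofInjective iu (Multiplicative.ofAdd 1))
  rw [hφ, hu'] at h
  exact h.symm

section

variable {n : ℕ} {G : Type*} [Group G] {a b : Fin (n + 1) → G}

/-- JOB Hn.  The subgroup of `G` generated by the first `n` handles and the last `a` is free.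

PROOF.  Write `D = inc n (dl n) : Fp n` and `t = of none`.  `G` is the HNN extension of `Fp n` with
stable letter `b_last` and `b_last a_last b_last⁻¹ = D a_last`, but only a homomorphism to the HNN
extension is needed.
* The homomorphisms `zpowersHom (Fp n) t` and `zpowersHom (Fp n) (D * t)` from `Multiplicative ℤ`
  are injective: compose with `χ : Fp n →* Multiplicative ℤ`, `χ = FreeGroup.lift (fun x => x.elim
  (Multiplicative.ofAdd 1) (fun _ => 1))`; `χ (inc n z) = 1` for all `z` (χ.comp (inc n) = 1 by ext),
  so `χ t = χ (D * t) = ofAdd 1`.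
* Let `A`, `B` be their ranges and `φ : A ≃* B` the composition
  `(MonoidHom.ofInjective h1).symm.trans (MonoidHom.ofInjective h2)`; `φ ⟨t, _⟩ = ⟨D * t, _⟩`.
* `K := HNNExtension (Fp n) A B φ`, `o := HNNExtension.of : Fp n →* K` is injective
  (`HNNExtension.of_injective`), and with `s := HNNExtension.t` one has
  `s * o t * s⁻¹ = o (D * t)` (`HNNExtension.equiv_eq_conj` or `t_mul_of`).
* By `h.lift` with `a k.castSucc ↦ o (of (some (inl k)))`, `b k.castSucc ↦ o (of (some (inr k)))`,
  `a last ↦ o t`, `b last ↦ s` (use `Fin.snoc` as in `exists_Psi`, file Ro, or `Fin.lastCases`)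
  there is `F : G →* K`; the relation holds: by `relWord_last` it is
  `relWord (..) (..) * (o t * s * (o t)⁻¹ * s⁻¹) = o D * o t * (s * (o t)⁻¹ * s⁻¹) =
   o D * o t * (o (D * t))⁻¹ = 1`, where `relWord (..) (..) = o D` by `dl_eq'`, `map_relWord`.
* `F (jA a b w) = o w` for all `w` (ext), and `o` is injective. -/
theorem jA_injective (h : IsSurf a b) : Function.Injective (jA a b) := by
  let χ : Fp n →* Multiplicative ℤ :=
    FreeGroup.lift (fun x => x.elim (Multiplicative.ofAdd 1) (fun _ => 1))
  have hχn : χ (of none) = Multiplicative.ofAdd 1 := by simp [χ]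
  have hχi : ∀ z : Fr n, χ (inc n z) = 1 := by
    intro z
    have h1 : χ.comp (inc n) = 1 := by
      ext1 x
      change χ (inc n (of x)) = 1
      simp [χ, inc]
    exact DFunLike.congr_fun h1 z
  obtain ⟨K, hK, o, s, ho, hs⟩ := Hn_hnn (of none : Fp n) (inc n (dl n) * of none) χ hχn
    (by rw [map_mul, hχi, hχn, one_mul])
  have hrel : relWord (fun k : Fin n => o (of (some (Sum.inl k))))
      (fun k : Fin n => o (of (some (Sum.inr k)))) = o (inc n (dl n)) := by
    rw [dl_eq', map_relWord, map_relWord]
    have h1 : ∀ k : Fin n, inc n (of (Sum.inl k)) = of (some (Sum.inl k)) := by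
      intro k; simp [inc]
    have h2 : ∀ k : Fin n, inc n (of (Sum.inr k)) = of (some (Sum.inr k)) := by
      intro k; simp [inc]
    simp only [h1, h2]
  obtain ⟨F, h1, h2⟩ := h.lift
    (Fin.snoc (α := fun _ => K) (fun k => o (of (some (Sum.inl k)))) (o (of none)))
    (Fin.snoc (α := fun _ => K) (fun k => o (of (some (Sum.inr k)))) s) (by
      rw [relWord_last]
      simp only [Fin.snoc_castSucc, Fin.snoc_last]
      rw [hrel]
      have h3 : o (of none) * s * (o (of none))⁻¹ * s⁻¹ =
          o (of none) * (s * o (of none) * s⁻¹)⁻¹ := by group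
      rw [h3, hs, map_mul]
      group)
  have h4 : ∀ w, F (jA a b w) = o w := by
    have h3 : F.comp (jA a b) = o := by
      ext1 x
      rcases x with _ | (k | k)
      · change F (jA a b (of none)) = o (of none)
        rw [jA_none, h1, Fin.snoc_last]
      · change F (jA a b (of (some (Sum.inl k)))) = o (of (some (Sum.inl k)))
        rw [jA_a, h1, Fin.snoc_castSucc]
      · change F (jA a b (of (some (Sum.inr k)))) = o (of (some (Sum.inr k)))
        rw [jA_b, h2, Fin.snoc_castSucc]
    intro w
    exact DFunLike.congr_fun h3 w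
  intro x y hxy
  apply ho
  rw [← h4, ← h4, hxy]

end

end Pool.MP_59b15d_al.H73E
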