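import Mathlib
import Pool.Agent.H.MP_59b15d_al.h73e.Hn

set_option autoImplicit false

namespace Pool.MP_59b15d_al.H73E

open Pool.MP_59b15d_al.H24T Pool.MP_59b15d_al.H76R
open Pool.MP_59b15d_al.H76 (InnMod congSub mem_congSub congSub_normal congSub_finiteIndex
  conj_innMod innMod_mono apply_mem_of_char exists_char_le comap_fi map_fi surf_fg inf_char
  finite_hom)
open FreeGroup (of)

section

variable {n : ℕ} {G : Type*} [Group G] {a b : Fin (n + 1) → G}

/-- The projection of the free group on the first handles and the last `a` that kills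
`aP = dG n * a_last`: it maps the last `a` to `(dl n)⁻¹`. -/
def pz (n : ℕ) : Fp n →* Fr n := FreeGroup.lift (fun x => x.elim (dl n)⁻¹ (fun y => of y))

theorem pz_none : pz n (of none) = (dl n)⁻¹ := by simp [pz]
theorem pz_some (y : Fin n ⊕ Fin n) : pz n (of (some y)) = of y := by simp [pz]

theorem pz_inc (z : Fr n) : pz n (inc n z) = z := by
  have h1 : (pz n).comp (inc n) = MonoidHom.id _ := by
    ext1 x
    change pz n (inc n (of x)) = of x
    simp [inc, pz_some]
  exact DFunLike.congr_fun h1 z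

/-- `ψ` is the automorphism of the free group induced by `φ`. -/
structure Hat (a b : Fin (n + 1) → G) (φ : MulAut G) (ψ : MulAut (Fr n)) : Prop where
  fwd : ∀ w : Fp n, ∃ w' : Fp n, φ (jA a b w) = jA a b w' ∧ pz n w' = ψ (pz n w)
  bwd : ∀ w : Fp n, ∃ w' : Fp n, φ⁻¹ (jA a b w) = jA a b w' ∧ pz n w' = ψ⁻¹ (pz n w)

theorem Hat.one : Hat a b 1 1 := ⟨fun w => ⟨w, rfl, rfl⟩, fun w => ⟨w, by simp, by simp⟩⟩

theorem Hat.inv {φ : MulAut G} {ψ : MulAut (Fr n)} (h : Hat a b φ ψ) : Hat a b φ⁻¹ ψ⁻¹ :=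
  ⟨h.bwd, by rw [inv_inv, inv_inv]; exact h.fwd⟩

theorem Hat.mul {φ φ' : MulAut G} {ψ ψ' : MulAut (Fr n)} (h : Hat a b φ ψ) (h' : Hat a b φ' ψ') :
    Hat a b (φ * φ') (ψ * ψ') := by
  constructor
  · intro w
    obtain ⟨w1, h1, h2⟩ := h'.fwd w
    obtain ⟨w2, h3, h4⟩ := h.fwd w1
    exact ⟨w2, by rw [MulAut.mul_apply, h1, h3], by rw [h4, h2, MulAut.mul_apply]⟩
  · intro w
    obtain ⟨w1, h1, h2⟩ := h.bwd w
    obtain ⟨w2, h3, h4⟩ := h'.bwd w1
    exact ⟨w2, by rw [mul_inv_rev, MulAut.mul_apply, h1, h3],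
      by rw [h4, h2, mul_inv_rev, MulAut.mul_apply]⟩

theorem Hat.unique (h : IsSurf a b) {φ : MulAut G} {ψ ψ' : MulAut (Fr n)} (h1 : Hat a b φ ψ)
    (h2 : Hat a b φ ψ') : ψ = ψ' := by
  apply MulEquiv.ext
  intro z
  obtain ⟨w1, h3, h4⟩ := h1.fwd (inc n z)
  obtain ⟨w2, h5, h6⟩ := h2.fwd (inc n z)
  rw [pz_inc] at h4 h6
  rw [← h4, ← h6, jA_injective h (h3.symm.trans h5)]

/-- The lift of a self map of `G` preserving the free subgroup. -/
theorem hta_lift (φ : MulAut G) (h1 : ∀ w : Fp n, ∃ w' : Fp n, φ (jA a b w) = jA a b w') :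
    ∃ F : Fp n →* Fp n, ∀ w, jA a b (F w) = φ (jA a b w) := by
  choose s hs using fun x : Option (Fin n ⊕ Fin n) => h1 (of x)
  refine ⟨FreeGroup.lift s, fun w => ?_⟩
  have h2 : (jA a b).comp (FreeGroup.lift s) = φ.toMonoidHom.comp (jA a b) := by
    ext x
    change jA a b (FreeGroup.lift s (of x)) = φ (jA a b (of x))
    rw [FreeGroup.lift_apply_of, hs]
  exact DFunLike.congr_fun h2 w

/-- A self map of the big free group fixing `aP` factors through `pz`. -/
theorem hta_factor (F : Fp n →* Fp n) (hF : F (inc n (dl n) * of none) = inc n (dl n) * of none)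
    (w : Fp n) : pz n (F w) = pz n (F (inc n (pz n w))) := by
  have hp : pz n (inc n (dl n) * of none) = 1 := by
    rw [map_mul, pz_inc, pz_none, mul_inv_cancel]
  have h2 : (pz n).comp F = ((pz n).comp (F.comp (inc n))).comp (pz n) := by
    ext x
    change pz n (F (of x)) = pz n (F (inc n (pz n (of x))))
    rcases x with _ | y
    · have h3 : (of none : Fp n) = (inc n (dl n))⁻¹ * (inc n (dl n) * of none) := by
        rw [inv_mul_cancel_left]
      have h4 : pz n (F (of none)) = pz n (F (inc n (dl n)))⁻¹ := by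
        conv_lhs => rw [h3]
        rw [map_mul, hF, map_mul, hp, mul_one, map_inv]
      rw [h4, pz_none]
      simp only [map_inv]
    · rw [pz_some]
      have h5 : inc n (of y) = of (some y) := by simp [inc]
      rw [h5]
  exact DFunLike.congr_fun h2 w

/-- JOB Hta.  An automorphism preserving the free subgroup and fixing `aP` induces an automorphism
of the quotient of the free group.

PROOF.  `j := jA a b` is injective.  Choose `s : Option _ → Fp n` with `j (s x) = φ (j (of x))`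
(from `h1`), `F := FreeGroup.lift s : Fp n →* Fp n`; then `j (F w) = φ (j w)` for all `w`
(two homs agreeing on generators).  Same with `φ⁻¹`: `F'`, `j (F' w) = φ⁻¹ (j w)`.  By injectivity
`F (F' w) = w`, `F' (F w) = w`.  Let `p := inc n (dl n) * of none : Fp n`; `j p = dG a b n * a_last
= aP a b` (`jA_inc`, `jA_none`, `aP_eq h`, `dG` is by definition `jR a b (dl n)`), so `φ (j p) = j p`
and `F p = p`, and `F' p = p` (as `φ⁻¹ (aP) = aP`).  Let `ψ₀ := (pz n).comp (F.comp (inc n))` and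
`ψ₁ := (pz n).comp (F'.comp (inc n)) : Fr n →* Fr n`.
Claim: `(pz n).comp F = ψ₀.comp (pz n)` as homs `Fp n →* Fr n`, by ext on generators: on `some y`:
`pz (F (of (some y))) = ψ₀ (of y)` since `inc n (of y) = of (some y)`; on `none`: `of none =
(inc n (dl n))⁻¹ * p` and `pz (F p) = pz p = 1`, so `pz (F (of none)) = (ψ₀ (dl n))⁻¹ =
ψ₀ (pz (of none))`.  Same for `F'`, `ψ₁`.  Then `ψ₀ (ψ₁ z) = ψ₀ (pz (F' (inc z))) =
pz (F (F' (inc z))) = pz (inc z) = z` and symmetrically, so `ψ := MonoidHom.toMulEquiv ψ₀ ψ₁ _ _`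
works: for `w` take `w' = F w`. -/
theorem exists_hat (h : IsSurf a b) (φ : MulAut G)
    (h1 : ∀ w : Fp n, ∃ w' : Fp n, φ (jA a b w) = jA a b w')
    (h2 : ∀ w : Fp n, ∃ w' : Fp n, φ⁻¹ (jA a b w) = jA a b w')
    (h3 : φ (aP a b) = aP a b) : ∃ ψ : MulAut (Fr n), Hat a b φ ψ := by
  obtain ⟨F, hF⟩ := hta_lift (a := a) (b := b) φ h1
  obtain ⟨F', hF'⟩ := hta_lift (a := a) (b := b) φ⁻¹ h2
  have hj := jA_injective h
  have hFF' : ∀ w, F (F' w) = w := fun w => hj (by
    rw [hF, hF', MulAut.apply_inv_self])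
  have hF'F : ∀ w, F' (F w) = w := fun w => hj (by
    rw [hF', hF, MulAut.inv_apply_self])
  have hjp : jA a b (inc n (dl n) * of none) = aP a b := by
    rw [map_mul, jA_inc, jA_none, aP_eq h]
    rfl
  have hFp : F (inc n (dl n) * of none) = inc n (dl n) * of none := hj (by
    rw [hF, hjp, h3])
  have hF'p : F' (inc n (dl n) * of none) = inc n (dl n) * of none := by
    conv_lhs => rw [← hFp]
    rw [hF'F]
  have hf1 := hta_factor F hFp
  have hf2 := hta_factor F' hF'p
  let ψ₀ : Fr n →* Fr n := (pz n).comp (F.comp (inc n))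
  let ψ₁ : Fr n →* Fr n := (pz n).comp (F'.comp (inc n))
  have h01 : ∀ z, ψ₀ (ψ₁ z) = z := by
    intro z
    change pz n (F (inc n (pz n (F' (inc n z))))) = z
    rw [← hf1, hFF', pz_inc]
  have h10 : ∀ z, ψ₁ (ψ₀ z) = z := by
    intro z
    change pz n (F' (inc n (pz n (F (inc n z))))) = z
    rw [← hf2, hF'F, pz_inc]
  let ψ : MulAut (Fr n) := MonoidHom.toMulEquiv ψ₀ ψ₁ (MonoidHom.ext h10) (MonoidHom.ext h01)
  refine ⟨ψ, ⟨fun w => ⟨F w, (hF w).symm, hf1 w⟩, fun w => ⟨F' w, (hF' w).symm, hf2 w⟩⟩⟩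

end

end Pool.MP_59b15d_al.H73E
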