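import Mathlib
import Pool.Agent.H.MP_59b15d_al.h73e.Hta

set_option autoImplicit false

namespace Pool.MP_59b15d_al.H73E

open Pool.MP_59b15d_al.H24T Pool.MP_59b15d_al.H76R
open Pool.MP_59b15d_al.H76 (InnMod congSub mem_congSub congSub_normal congSub_finiteIndex
  conj_innMod innMod_mono apply_mem_of_char exists_char_le comap_fi map_fi surf_fg inf_char
  finite_hom)
open FreeGroup (of)

section

variable {n : ℕ} {G : Type*} [Group G] {a b : Fin (n + 1) → G}

/-- JOB Htb (1).  The pushes induce automorphisms of the free group.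
PROOF.  `exists_hat` with `XX_sheet h π y` (file Rp; with `π : Fr n →* Unit`-like target, e.g.
`P := Multiplicative ℤ`, `π := 1`): `Zp a b π φ` says `∀ w, ∃ w', φ (jA a b w) = jA a b w' ∧ _`;
`XX_aP h y` (file Rm). -/
theorem hat_XX (h : IsSurf a b) (y : Fr n) : ∃ ψ, Hat a b (XX h y) ψ := by
  obtain ⟨h1, h2, -⟩ := XX_sheet h (1 : Fr n →* Multiplicative ℤ) y
  refine exists_hat h (XX h y) ?_ ?_ (XX_aP h y)
  · intro w
    obtain ⟨w', h3, -⟩ := h1 w
    exact ⟨w', h3⟩
  · intro w
    obtain ⟨w', h3, -⟩ := h2 w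
    exact ⟨w', h3⟩

/-- The pushes of the boundary, as automorphisms of the free group. -/
noncomputable def Xh (h : IsSurf a b) : Fr n →* MulAut (Fr n) where
  toFun := fun y => (hat_XX h y).choose
  map_one' := by
    have h1 := (hat_XX h 1).choose_spec
    have h2 : Hat a b (XX h 1) 1 := by rw [map_one]; exact Hat.one
    exact h1.unique h h2
  map_mul' := by
    intro y z
    have h1 := (hat_XX h (y * z)).choose_spec
    have h2 : Hat a b (XX h (y * z)) ((hat_XX h y).choose * (hat_XX h z).choose) := by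
      rw [map_mul]
      exact (hat_XX h y).choose_spec.mul (hat_XX h z).choose_spec
    exact h1.unique h h2

theorem Xh_hat (h : IsSurf a b) (y : Fr n) : Hat a b (XX h y) (Xh h y) :=
  (hat_XX h y).choose_spec

/-- JOB Htb (2).
PROOF.  `jR a b` is injective: `jR a b z = jA a b (inc n z)` (`jA_inc`), `jA_injective h`, and
`inc n` is injective since `pz_inc`. -/
theorem jR_injective (h : IsSurf a b) : Function.Injective (jR a b) := by
  intro z z' hz
  rw [← jA_inc, ← jA_inc] at hz
  have h1 := congrArg (pz n) (jA_injective h hz)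
  rwa [pz_inc, pz_inc] at h1

/-- JOB Htb (3).
PROOF.  `aP a b = b_last * a_last * b_last⁻¹` is fixed by `f` (`hp.fa`, `hp.fb`), and
`aP a b = dG a b n * a_last` (`aP_eq h`), so `f (dG a b n) = dG a b n`, where `dG a b n =
jR a b (dl n)` by definition; `hp.fj (dl n)` and `jR_injective`. -/
theorem pair_dl {h : IsSurf a b} {f' : MulAut (Fr n)} {f : MulAut G} (hp : Pair h f' f) :
    f' (dl n) = dl n := by
  apply jR_injective h
  rw [← hp.fj]
  have h1 : f (aP a b) = aP a b := by
    rw [aP]
    simp only [map_mul, map_inv, hp.fa, hp.fb]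
  rw [aP_eq h, map_mul, hp.fa] at h1
  exact mul_right_cancel h1

/-- The word map of a pair. -/
noncomputable def htbF (f' : MulAut (Fr n)) : Fp n →* Fp n :=
  FreeGroup.lift (fun x => x.elim (of none) (fun y => inc n (f' (of y))))

theorem htbF_none (f' : MulAut (Fr n)) : htbF f' (of none) = of none := by simp [htbF]

theorem htbF_some (f' : MulAut (Fr n)) (y : Fin n ⊕ Fin n) :
    htbF f' (of (some y)) = inc n (f' (of y)) := by simp [htbF]

theorem htb_fwd {h : IsSurf a b} {f' : MulAut (Fr n)} {f : MulAut G}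
    (fj : ∀ z, f (jR a b z) = jR a b (f' z)) (fa : f (a (Fin.last n)) = a (Fin.last n))
    (fd : f' (dl n) = dl n) (w : Fp n) :
    ∃ w' : Fp n, f (jA a b w) = jA a b w' ∧ pz n w' = f' (pz n w) := by
  refine ⟨htbF f' w, ?_, ?_⟩
  · have h1 : f.toMonoidHom.comp (jA a b) = (jA a b).comp (htbF f') := by
      ext1 x
      rcases x with _ | y
      · change f (jA a b (of none)) = jA a b (htbF f' (of none))
        rw [htbF_none, jA_none, fa]
      · change f (jA a b (of (some y))) = jA a b (htbF f' (of (some y)))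
        rw [htbF_some, jA_inc]
        have h2 : jA a b (of (some y)) = jR a b (of y) := by simp [jA]
        rw [h2, fj]
    exact DFunLike.congr_fun h1 w
  · have h1 : (pz n).comp (htbF f') = f'.toMonoidHom.comp (pz n) := by
      ext1 x
      rcases x with _ | y
      · change pz n (htbF f' (of none)) = f' (pz n (of none))
        rw [htbF_none, pz_none, map_inv, fd]
      · change pz n (htbF f' (of (some y))) = f' (pz n (of (some y)))
        rw [htbF_some, pz_inc, pz_some]
    exact DFunLike.congr_fun h1 w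

/-- JOB Htb (4).
PROOF.  fwd: for `w : Fp n` take `w' := FreeGroup.lift (fun x => x.elim (of none) (fun y =>
inc n (f' (of y)))) w`; both `w ↦ f (jA w)` and `w ↦ jA w'` are homs, equal on generators
(`hp.fa`, `hp.fj`, `jA_inc`); both `w ↦ pz w'` and `w ↦ f' (pz w)` are homs, equal on generators
(`pz_inc`; on `none`: `(dl n)⁻¹ = f' ((dl n)⁻¹)` by `pair_dl`).  bwd: the same for `hp.inv`
(so prove fwd as a separate lemma for all pairs first). -/
theorem hat_pair {h : IsSurf a b} {f' : MulAut (Fr n)} {f : MulAut G} (hp : Pair h f' f) :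
    Hat a b f f' := by
  constructor
  · exact htb_fwd (h := h) hp.fj hp.fa (pair_dl hp)
  · refine htb_fwd (h := h) ?_ ?_ ?_
    · intro z
      have h1 := hp.fj (f'⁻¹ z)
      rw [MulAut.apply_inv_self] at h1
      rw [← h1, MulAut.inv_apply_self]
    · conv_lhs => rw [← hp.fa]
      rw [MulAut.inv_apply_self]
    · conv_lhs => rw [← pair_dl hp]
      rw [MulAut.inv_apply_self]

/-- JOB Htb (5).
PROOF.  `TT h` fixes `jR a b z` (`TT_jR`) and `a_last` (`TA_a`), so `jA a b w` for all `w`
(`jA` agrees: two homs); hence also its powers (and inverses) fix `jA a b w`; take `w' = w`. -/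
theorem hat_TT (h : IsSurf a b) (k : ℤ) : Hat a b (TT h ^ k) 1 := by
  have h0 : ∀ w : Fp n, TT h (jA a b w) = jA a b w := by
    intro w
    have h1 : (TT h).toMonoidHom.comp (jA a b) = jA a b := by
      ext1 x
      rcases x with _ | y
      · change TT h (jA a b (of none)) = jA a b (of none)
        rw [jA_none, TT, TA_a]
      · change TT h (jA a b (of (some y))) = jA a b (of (some y))
        have h2 : jA a b (of (some y)) = jR a b (of y) := by simp [jA]
        rw [h2, TT_jR]
    exact DFunLike.congr_fun h1 w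
  have hmem : ∀ w : Fp n, ∀ k : ℤ, (TT h ^ k) (jA a b w) = jA a b w := by
    intro w k
    have h1 : TT h ∈ MulAction.stabilizer (MulAut G) (jA a b w) := h0 w
    exact (MulAction.stabilizer (MulAut G) (jA a b w)).zpow_mem h1 k
  constructor
  · intro w
    exact ⟨w, hmem w k, rfl⟩
  · intro w
    refine ⟨w, ?_, ?_⟩
    · rw [← zpow_neg]; exact hmem w (-k)
    · rw [inv_one]; rfl

/-- The push homomorphism is equivariant. -/
theorem Xh_equi {h : IsSurf a b} {f' : MulAut (Fr n)} {f : MulAut G} (hp : Pair h f' f)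
    (y : Fr n) : f' * Xh h y * f'⁻¹ = Xh h (f' y) := by
  obtain ⟨k, hk⟩ := hp.fX y
  have h1 : Hat a b (f * XX h y * f⁻¹) (f' * Xh h y * f'⁻¹) :=
    ((hat_pair hp).mul (Xh_hat h y)).mul (hat_pair hp).inv
  have h2 : Hat a b (XX h (f' y) * TT h ^ k) (Xh h (f' y) * 1) :=
    (Xh_hat h (f' y)).mul (hat_TT h k)
  rw [← hk, mul_one] at h2
  exact h1.unique h h2

end

end Pool.MP_59b15d_al.H73E
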