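import Mathlib
import Pool.Agent.H.MP_59b15d_al.h76m.Hh
import Pool.Agent.H.MP_59b15d_al.h76r.Rj

set_option autoImplicit false

namespace Pool.MP_59b15d_al.H73E

open Pool.MP_59b15d_al.H24T Pool.MP_59b15d_al.H76R
open Pool.MP_59b15d_al.H76 (InnMod congSub mem_congSub congSub_normal congSub_finiteIndex
  conj_innMod innMod_mono apply_mem_of_char exists_char_le comap_fi map_fi surf_fg inf_char
  finite_hom)
open FreeGroup (of)

section

variable {m : ℕ} {G : Type*} [Group G] {a b : Fin m → G}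

/-- JOB La.  The twist about the boundary of a handle is a product of the two twists of the handle.
PROOF.  `A := TA h i`, `B := TB h i`, `κ := a i * b i * (a i)⁻¹ * (b i)⁻¹`.
`ι := A * B⁻¹ * A * A * B⁻¹ * A` maps (values from files Rb, Rj: `TA_a, TA_b, TB_a, TB_b, TBi_a,
TBi_b`) `a i ↦ b a⁻¹ b⁻¹`, `b i ↦ b a b⁻¹ a⁻¹ b⁻¹` (`a = a i`, `b = b i`) and fixes the other
generators; so `ι * ι` maps `a i ↦ κ⁻¹ a κ`, `b i ↦ κ⁻¹ b κ` and `ι κ = κ`.  Hence
`T = (ι * ι)⁻¹` by `aut_ext h` (show `ι * ι * T = 1`: `ι (ι (κ a κ⁻¹)) = κ (κ⁻¹ a κ) κ⁻¹ = a`, as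
`ι κ = κ`). -/
theorem conj_handle_mem (h : IsSurf a b) (i : Fin m) (T : MulAut G)
    (h1 : T (a i) = (a i * b i * (a i)⁻¹ * (b i)⁻¹) * a i * (a i * b i * (a i)⁻¹ * (b i)⁻¹)⁻¹)
    (h2 : T (b i) = (a i * b i * (a i)⁻¹ * (b i)⁻¹) * b i * (a i * b i * (a i)⁻¹ * (b i)⁻¹)⁻¹)
    (h3 : ∀ k, k ≠ i → T (a k) = a k ∧ T (b k) = b k) :
    T ∈ Subgroup.closure ({TA h i, TB h i} : Set (MulAut G)) := by
  let ι : MulAut G := TA h i * (TB h i)⁻¹ * TA h i * TA h i * (TB h i)⁻¹ * TA h i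
  have hap : ∀ z, ι z = TA h i ((TB h i)⁻¹ (TA h i (TA h i ((TB h i)⁻¹ (TA h i z))))) :=
    fun z => rfl
  have e1 : ι (a i) = b i * (a i)⁻¹ * (b i)⁻¹ := by
    rw [hap]
    simp only [TA_a, TBi_a, TBi_b, TA_b, map_mul, map_inv]
    group
  have e2 : ι (b i) = b i * a i * (b i)⁻¹ * (a i)⁻¹ * (b i)⁻¹ := by
    rw [hap]
    simp only [TA_a, TBi_a, TBi_b, TA_b, map_mul, map_inv]
    group
  have e3 : ∀ k, k ≠ i → ι (a k) = a k := by
    intro k hk
    rw [hap]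
    simp only [TA_a, TBi_a_ne h hk]
  have e4 : ∀ k, k ≠ i → ι (b k) = b k := by
    intro k hk
    rw [hap]
    simp only [TA_b_ne h hk, TBi_b]
  have hκ : ι (a i * b i * (a i)⁻¹ * (b i)⁻¹) = a i * b i * (a i)⁻¹ * (b i)⁻¹ := by
    simp only [map_mul, map_inv, e1, e2]
    group
  have e5 : ι (ι (a i)) = (a i * b i * (a i)⁻¹ * (b i)⁻¹)⁻¹ * a i
      * (a i * b i * (a i)⁻¹ * (b i)⁻¹) := by
    rw [e1]
    simp only [map_mul, map_inv, e1, e2]
    group
  have e6 : ι (ι (b i)) = (a i * b i * (a i)⁻¹ * (b i)⁻¹)⁻¹ * b i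
      * (a i * b i * (a i)⁻¹ * (b i)⁻¹) := by
    rw [e2]
    simp only [map_mul, map_inv, e1, e2]
    group
  have hT : ι * ι * T = 1 := by
    apply aut_ext h
    · intro k
      by_cases hk : k = i
      · subst hk
        change ι (ι (T (a k))) = a k
        rw [h1, map_mul, map_mul, map_mul, map_mul, map_inv, map_inv, hκ, hκ, e5]
        group
      · change ι (ι (T (a k))) = a k
        rw [(h3 k hk).1, e3 k hk, e3 k hk]
    · intro k
      by_cases hk : k = i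
      · subst hk
        change ι (ι (T (b k))) = b k
        rw [h2, map_mul, map_mul, map_mul, map_mul, map_inv, map_inv, hκ, hκ, e6]
        group
      · change ι (ι (T (b k))) = b k
        rw [(h3 k hk).2, e4 k hk, e4 k hk]
  have hT2 : T = (ι * ι)⁻¹ := eq_inv_of_mul_eq_one_right hT
  have hA : TA h i ∈ Subgroup.closure ({TA h i, TB h i} : Set (MulAut G)) :=
    Subgroup.subset_closure (Or.inl rfl)
  have hB : TB h i ∈ Subgroup.closure ({TA h i, TB h i} : Set (MulAut G)) :=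
    Subgroup.subset_closure (Or.inr rfl)
  have hι : ι ∈ Subgroup.closure ({TA h i, TB h i} : Set (MulAut G)) :=
    mul_mem (mul_mem (mul_mem (mul_mem (mul_mem hA (inv_mem hB)) hA) hA) (inv_mem hB)) hA
  rw [hT2]
  exact inv_mem (mul_mem hι hι)

end

end Pool.MP_59b15d_al.H73E
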