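import Mathlib
import Pool.Agent.H.MP_59b15d_al.h73e.La
import Pool.Agent.H.MP_59b15d_al.h76r.Rm

set_option autoImplicit false

namespace Pool.MP_59b15d_al.H73E

open Pool.MP_59b15d_al.H24T Pool.MP_59b15d_al.H76R
open Pool.MP_59b15d_al.H76 (InnMod congSub mem_congSub congSub_normal congSub_finiteIndex
  conj_innMod innMod_mono apply_mem_of_char exists_char_le comap_fi map_fi surf_fg inf_char
  finite_hom)
open FreeGroup (of)

section

variable {n : ℕ} {G : Type*} [Group G] {a b : Fin (n + 1) → G}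

/-- The group generated by the twists. -/
def TW {m : ℕ} {a b : Fin m → G} (h : IsSurf a b) : Subgroup (MulAut G) :=
  Subgroup.closure {T | (∃ i, T = TA h i) ∨ (∃ i, T = TB h i) ∨ ∃ i j hij, T = TC h i j hij}

/-- JOB Lb (1).  PROOF.  Copy the proof of `XX_mem` (file Sb of h76r) with `TW h` in place of
`MMs h`. -/
theorem XX_TW (h : IsSurf a b) (y : Fr n) : XX h y ∈ TW h := by
  have hTT0 : TT h ∈ TW h := Subgroup.subset_closure (Or.inl ⟨_, rfl⟩)
  have hTT : ∀ k : ℤ, TT h ^ k ∈ TW h := fun k => Subgroup.zpow_mem _ hTT0 _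
  let S : Subgroup (Fr n) := (TW h).comap (XX h)
  have hS : ∀ {f' : MulAut (Fr n)} {f : MulAut G}, Pair h f' f → f ∈ TW h → ∀ y ∈ S,
      f' y ∈ S := by
    intro f' f hp hf y hy
    obtain ⟨k, hk⟩ := hp.fX y
    have h1 : f * XX h y * f⁻¹ ∈ TW h :=
      Subgroup.mul_mem _ (Subgroup.mul_mem _ hf hy) (Subgroup.inv_mem _ hf)
    rw [hk] at h1
    exact (Subgroup.mul_mem_cancel_right _ (hTT k)).mp h1
  have hA : ∀ j, of (Sum.inr j) ∈ S → of (Sum.inl j) ∈ S := by
    intro j hj
    have hC : TA h j.castSucc ∈ TW h := Subgroup.subset_closure (Or.inl ⟨_, rfl⟩)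
    have h1 := hS (pair_TA h j) hC _ hj
    rw [FA_self] at h1
    exact (Subgroup.mul_mem_cancel_left _ hj).mp h1
  have hdown : ∀ d : ℕ, ∀ j : Fin n, (j : ℕ) + 1 + d = n → of (Sum.inr j) ∈ S := by
    intro d
    induction d with
    | zero =>
      intro j hj
      have hj' : ((Fin.last n : Fin (n + 1)) : ℕ) = j.castSucc + 1 := by
        simp only [Fin.val_last, Fin.val_castSucc]; omega
      change XX h (of (Sum.inr j)) ∈ TW h
      rw [XX_b]
      have h1 := X0_eq h j hj'
      have h2 : Xb h j = TC h j.castSucc (Fin.last n) hj' * (TB h j.castSucc)⁻¹ := by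
        rw [← h1, mul_inv_cancel_right]
      rw [h2]
      exact Subgroup.mul_mem _
        (Subgroup.subset_closure (Or.inr (Or.inr ⟨_, _, _, rfl⟩)))
        (Subgroup.inv_mem _ (Subgroup.subset_closure (Or.inr (Or.inl ⟨_, rfl⟩))))
    | succ d ih =>
      intro j hj
      have hj1 : (j : ℕ) + 1 < n := by omega
      let j' : Fin n := ⟨j + 1, hj1⟩
      have hij : (j' : ℕ) = j + 1 := rfl
      have h1 := ih j' (by simp only [j']; omega)
      have hC : TCc h hij ∈ TW h :=
        Subgroup.subset_closure (Or.inr (Or.inr ⟨_, _, _, rfl⟩))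
      have h2 := hS (pair_TC h hij) hC _ h1
      rw [FC_bj] at h2
      have h3 := (Subgroup.mul_mem_cancel_left _ h1).mp h2
      exact (Subgroup.mul_mem_cancel_left _ (Subgroup.inv_mem _ (hA _ h1))).mp h3
  have hall : ∀ j : Fin n, of (Sum.inr j) ∈ S := by
    intro j
    have := j.2
    exact hdown (n - 1 - j) j (by omega)
  induction y using fr_induction with
  | h1 => exact S.one_mem
  | ha k => exact hA k (hall k)
  | hb k => exact hall k
  | hm x y hx hy => rw [map_mul]; exact Subgroup.mul_mem _ hx hy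
  | hi x hx => rw [map_inv]; exact Subgroup.inv_mem _ hx

/-- JOB Lb (2).
PROOF.  `exists_DT h` (file Rm): `D`, `l` with `Pair h (MulAut.conj (dl n)) D` and
`XX h (dl n) = MulAut.conj (aP a b)⁻¹ * D * TT h ^ l`.  Put `T := MulAut.conj (dG a b n)⁻¹ * D`.
`D (jR z) = jR (dl n * z * (dl n)⁻¹) = dG * jR z * dG⁻¹` (`fj`; `dG a b n = jR a b (dl n)` by
definition), so `T` fixes `a k.castSucc`, `b k.castSucc` (`jR_a, jR_b`), and
`T (a last) = dG⁻¹ * a last * dG`, same for `b last` (`fa, fb`).  With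
`κ := a last * b last * (a last)⁻¹ * (b last)⁻¹`: `dG a b n * κ = 1` (`h.relWord_eq`,
`relWord_last`, `dG_eq`, as in the proof of `aP_eq`), so `dG⁻¹ = κ` and `T ∈ closure {TA, TB} ≤
TW h` by `conj_handle_mem h (Fin.last n)`.
`aP a b = dG a b n * a last` (`aP_eq h`), so `MulAut.conj (aP)⁻¹ * MulAut.conj (dG) =
MulAut.conj (a last)⁻¹` and `XX h (dl n) = MulAut.conj (a last)⁻¹ * T * TT h ^ l`, hence
`MulAut.conj (a last) = T * TT h ^ l * (XX h (dl n))⁻¹ ∈ TW h`. -/
theorem conj_last_TW (h : IsSurf a b) : MulAut.conj (a (Fin.last n)) ∈ TW h := by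
  obtain ⟨D, l, hD, hX⟩ := exists_DT h
  have hkap : (dG a b n)⁻¹ = a (Fin.last n) * b (Fin.last n) * (a (Fin.last n))⁻¹ *
      (b (Fin.last n))⁻¹ := by
    have h1 := h.relWord_eq
    rw [relWord_last] at h1
    have h2 : relWord (fun i : Fin n => a i.castSucc) (fun i : Fin n => b i.castSucc) =
        dG a b n := by
      rw [dG_eq n le_rfl]
      rfl
    rw [h2] at h1
    exact inv_eq_of_mul_eq_one_right h1
  have hDj : ∀ z, D (jR a b z) = dG a b n * jR a b z * (dG a b n)⁻¹ := by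
    intro z
    rw [hD.fj, MulAut.conj_apply, map_mul, map_mul, map_inv]
    rfl
  have hT : MulAut.conj (dG a b n)⁻¹ * D ∈ TW h := by
    have h1 := conj_handle_mem h (Fin.last n) (MulAut.conj (dG a b n)⁻¹ * D) ?_ ?_ ?_
    · refine (Subgroup.closure_le _).mpr ?_ h1
      rintro T (rfl | rfl)
      · exact Subgroup.subset_closure (Or.inl ⟨_, rfl⟩)
      · exact Subgroup.subset_closure (Or.inr (Or.inl ⟨_, rfl⟩))
    · rw [MulAut.mul_apply, hD.fa, MulAut.conj_apply, hkap]
    · rw [MulAut.mul_apply, hD.fb, MulAut.conj_apply, hkap]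
    · intro k
      refine Fin.lastCases (fun hk => absurd rfl hk) (fun k _ => ?_) k
      constructor
      · rw [MulAut.mul_apply, ← jR_a (a := a) (b := b), hDj, MulAut.conj_apply]
        group
      · rw [MulAut.mul_apply, ← jR_b (a := a) (b := b), hDj, MulAut.conj_apply]
        group
  have hTT0 : TT h ∈ TW h := Subgroup.subset_closure (Or.inl ⟨_, rfl⟩)
  have h3 : MulAut.conj (a (Fin.last n)) =
      (MulAut.conj (dG a b n)⁻¹ * D) * TT h ^ l * (XX h (dl n))⁻¹ := by
    rw [hX, aP_eq h]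
    simp only [map_mul, map_inv, mul_inv_rev]
    group
  rw [h3]
  exact Subgroup.mul_mem _ (Subgroup.mul_mem _ hT (Subgroup.zpow_mem _ hTT0 _))
    (Subgroup.inv_mem _ (XX_TW h _))

/-- JOB Lb (3).  All inner automorphisms are products of twists.
PROOF.  `S := (TW h).comap MulAut.conj : Subgroup G`; for `f ∈ TW h`, `x ∈ S`: `f x ∈ S` since
`MulAut.conj (f x) = f * MulAut.conj x * f⁻¹`.  `a last ∈ S` by (2);
`TB h last (a last) = a last * b last`, so `b last ∈ S`.  If `j = i + 1` and `a j, b j ∈ S`: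
`TC h i j hij (b j) = b j * ((a j)⁻¹ * b i)` (`TC_bj`), so `b i ∈ S`;
`TA h i (b i) = b i * a i`, so `a i ∈ S`.  Descending induction (as `hdown` in `XX_mem`) and
`h.closure_eq`. -/
theorem conj_TW (h : IsSurf a b) (x : G) : MulAut.conj x ∈ TW h := by
  let S : Subgroup G := (TW h).comap MulAut.conj
  have hS : ∀ f ∈ TW h, ∀ x ∈ S, f x ∈ S := by
    intro f hf x hx
    have h1 : MulAut.conj (f x) = f * MulAut.conj x * f⁻¹ := by
      ext z
      simp only [MulAut.mul_apply, MulAut.conj_apply, map_mul, map_inv, MulAut.apply_inv_self]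
    change MulAut.conj (f x) ∈ TW h
    rw [h1]
    exact Subgroup.mul_mem _ (Subgroup.mul_mem _ hf hx) (Subgroup.inv_mem _ hf)
  have hTA : ∀ i, TA h i ∈ TW h := fun i => Subgroup.subset_closure (Or.inl ⟨_, rfl⟩)
  have hTB : ∀ i, TB h i ∈ TW h := fun i => Subgroup.subset_closure (Or.inr (Or.inl ⟨_, rfl⟩))
  have hdown : ∀ d : ℕ, ∀ j : Fin (n + 1), (j : ℕ) + d = n → a j ∈ S ∧ b j ∈ S := by
    intro d
    induction d with
    | zero =>
      intro j hj
      have hj' : j = Fin.last n := Fin.ext (by simpa using hj)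
      subst hj'
      have h1 : a (Fin.last n) ∈ S := conj_last_TW h
      have h2 := hS _ (hTB (Fin.last n)) _ h1
      rw [TB_a] at h2
      exact ⟨h1, (Subgroup.mul_mem_cancel_left _ h1).mp h2⟩
    | succ d ih =>
      intro i hi
      have hj1 : (i : ℕ) + 1 < n + 1 := by omega
      let j : Fin (n + 1) := ⟨i + 1, hj1⟩
      have hij : (j : ℕ) = i + 1 := rfl
      obtain ⟨h1, h2⟩ := ih j (by simp only [j]; omega)
      have h3 := hS (TC h i j hij) (Subgroup.subset_closure (Or.inr (Or.inr ⟨_, _, _, rfl⟩))) _ h2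
      rw [TC_bj] at h3
      have h4 := (Subgroup.mul_mem_cancel_left _ h2).mp h3
      have h5 := (Subgroup.mul_mem_cancel_left _ (Subgroup.inv_mem _ h1)).mp h4
      have h6 := hS _ (hTA i) _ h5
      rw [TA_b] at h6
      exact ⟨(Subgroup.mul_mem_cancel_left _ h5).mp h6, h5⟩
  have htop : S = ⊤ := by
    rw [eq_top_iff, ← h.closure_eq, Subgroup.closure_le]
    rintro z (⟨i, rfl⟩ | ⟨i, rfl⟩)
    · exact (hdown (n - i) i (by omega)).1
    · exact (hdown (n - i) i (by omega)).2
  have hx : x ∈ S := by rw [htop]; trivial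
  exact hx

/-- JOB Lb (4).  PROOF.  `MMs h` is the closure of the union of the range of `MulAut.conj` and the
twists. -/
theorem MMs_eq_TW (h : IsSurf a b) : MMs h = TW h := by
  apply le_antisymm
  · rw [MMs, Subgroup.closure_le]
    rintro T (⟨x, rfl⟩ | ⟨i, rfl⟩ | ⟨i, rfl⟩ | ⟨i, j, hij, rfl⟩)
    · exact conj_TW h x
    · exact Subgroup.subset_closure (Or.inl ⟨_, rfl⟩)
    · exact Subgroup.subset_closure (Or.inr (Or.inl ⟨_, rfl⟩))
    · exact Subgroup.subset_closure (Or.inr (Or.inr ⟨_, _, _, rfl⟩))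
  · rw [TW, Subgroup.closure_le]
    rintro T (⟨i, rfl⟩ | ⟨i, rfl⟩ | ⟨i, j, hij, rfl⟩)
    · exact Subgroup.subset_closure (Or.inr (Or.inl ⟨_, rfl⟩))
    · exact Subgroup.subset_closure (Or.inr (Or.inr (Or.inl ⟨_, rfl⟩)))
    · exact Subgroup.subset_closure (Or.inr (Or.inr (Or.inr ⟨_, _, _, rfl⟩)))

end

end Pool.MP_59b15d_al.H73E
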