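import Mathlib
import Pool.Agent.H.MP_59b15d_al.h73e.Ba
import Pool.Agent.H.MP_59b15d_al.h73e.Defs
import Pool.Agent.H.MP_59b15d_al.h73e.Htb
import Pool.Agent.H.MP_59b15d_al.h73e.Lb
import Pool.Agent.H.MP_59b15d_al.h76r.Sd

set_option autoImplicit false

namespace Pool.MP_59b15d_al.H73E

open Pool.MP_59b15d_al.H24T Pool.MP_59b15d_al.H76R
open Pool.MP_59b15d_al.H76 (InnMod congSub mem_congSub congSub_normal congSub_finiteIndex
  conj_innMod innMod_mono apply_mem_of_char exists_char_le comap_fi map_fi surf_fg inf_char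
  finite_hom)
open FreeGroup (of)

section

variable {n : ℕ} {G : Type*} [Group G] {a b : Fin (n + 1) → G} {P : Type*} [Group P]
  {x y : Fin n → P}

/-- `f` induces `f'` on the free group and `φ` on the closed surface group. -/
structure Trip (h : IsSurf a b) (hP : IsSurf x y) (f' : MulAut (Fr n)) (f : MulAut G)
    (φ : MulAut P) : Prop where
  pair : Pair h f' f
  ind : ∀ z, φ (qH x y z) = qH x y (f' z)

theorem Trip.one (h : IsSurf a b) (hP : IsSurf x y) : Trip h hP 1 1 1 :=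
  ⟨Pair.one h, fun _ => rfl⟩

theorem Trip.mul {h : IsSurf a b} {hP : IsSurf x y} {f' k' : MulAut (Fr n)} {f k : MulAut G}
    {φ ψ : MulAut P} (h1 : Trip h hP f' f φ) (h2 : Trip h hP k' k ψ) :
    Trip h hP (f' * k') (f * k) (φ * ψ) :=
  ⟨h1.pair.mul h2.pair, fun z => by
    rw [MulAut.mul_apply, h2.ind, h1.ind, MulAut.mul_apply]⟩

theorem Trip.inv {h : IsSurf a b} {hP : IsSurf x y} {f' : MulAut (Fr n)} {f : MulAut G}
    {φ : MulAut P} (h1 : Trip h hP f' f φ) : Trip h hP f'⁻¹ f⁻¹ φ⁻¹ := by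
  refine ⟨h1.pair.inv, fun z => ?_⟩
  have h2 := h1.ind (f'⁻¹ z)
  rw [MulAut.apply_inv_self] at h2
  rw [← h2, MulAut.inv_apply_self]

theorem Trip.zpow {h : IsSurf a b} {hP : IsSurf x y} {f' : MulAut (Fr n)} {f : MulAut G}
    {φ : MulAut P} (h1 : Trip h hP f' f φ) (j : ℤ) : Trip h hP (f' ^ j) (f ^ j) (φ ^ j) := by
  induction j using Int.induction_on with
  | zero => rw [zpow_zero, zpow_zero, zpow_zero]; exact Trip.one h hP
  | succ j ih => rw [zpow_add_one, zpow_add_one, zpow_add_one]; exact ih.mul h1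
  | pred j ih => rw [zpow_sub_one, zpow_sub_one, zpow_sub_one]; exact ih.mul h1.inv

theorem Xa_ind (f' : MulAut (Fr n)) (φ : MulAut P)
    (h1 : ∀ k, φ (x k) = qH x y (f' (of (Sum.inl k))))
    (h2 : ∀ k, φ (y k) = qH x y (f' (of (Sum.inr k)))) (z : Fr n) :
    φ (qH x y z) = qH x y (f' z) := by
  have h3 : φ.toMonoidHom.comp (qH x y) = (qH x y).comp f'.toMonoidHom := by
    ext i
    rcases i with k | k
    · change φ (qH x y (of (Sum.inl k))) = qH x y (f' (of (Sum.inl k)))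
      rw [qH_a, h1]
    · change φ (qH x y (of (Sum.inr k))) = qH x y (f' (of (Sum.inr k)))
      rw [qH_b, h2]
  exact DFunLike.congr_fun h3 z

theorem trip_TA (h : IsSurf a b) (hP : IsSurf x y) (i : Fin n) :
    Trip h hP (FA i) (TA h i.castSucc) (TA hP i) := by
  refine ⟨pair_TA h i, Xa_ind _ _ ?_ ?_⟩
  · intro k
    rw [TA_a, FA_ne i (by simp), qH_a]
  · intro k
    by_cases hk : k = i
    · subst hk
      rw [TA_b, FA_self, map_mul, qH_a, qH_b]
    · rw [TA_b_ne hP hk, FA_ne i (by simp [hk]), qH_b]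

theorem trip_TB (h : IsSurf a b) (hP : IsSurf x y) (i : Fin n) :
    Trip h hP (FB i) (TB h i.castSucc) (TB hP i) := by
  refine ⟨pair_TB h i, Xa_ind _ _ ?_ ?_⟩
  · intro k
    by_cases hk : k = i
    · subst hk
      rw [TB_a, FB_self, map_mul, qH_a, qH_b]
    · rw [TB_a_ne hP hk, FB_ne i (by simp [hk]), qH_a]
  · intro k
    rw [TB_b, FB_ne i (by simp), qH_b]

theorem trip_TC (h : IsSurf a b) (hP : IsSurf x y) {i j : Fin n} (hij : (j : ℕ) = i + 1) :
    Trip h hP (FC i j (ne_of_hij hij)) (TCc h hij) (TC hP i j hij) := by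
  refine ⟨pair_TC h hij, Xa_ind _ _ ?_ ?_⟩
  · intro k
    by_cases hk : k = i
    · subst hk
      rw [TC_ai, FC_ai]
      simp only [map_mul, map_inv, qH_a, qH_b]
    · by_cases hk2 : k = j
      · subst hk2
        rw [TC_aj, FC_aj]
        simp only [map_mul, map_inv, qH_a, qH_b]
      · rw [TC_a_ne hP hij hk hk2, FC_a_ne i j _ hk hk2, qH_a]
  · intro k
    by_cases hk : k = i
    · subst hk
      rw [TC_bi, FC_bi]
      simp only [map_mul, map_inv, qH_a, qH_b]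
    · by_cases hk2 : k = j
      · subst hk2
        rw [TC_bj, FC_bj]
        simp only [map_mul, map_inv, qH_a, qH_b]
      · rw [TC_b_ne hP hij hk hk2, FC_b_ne i j _ hk hk2, qH_b]

theorem Xa_dG (a b : Fin (n + 1) → G) : (List.ofFn fun i : Fin n =>
      a i.castSucc * b i.castSucc * (a i.castSucc)⁻¹ * (b i.castSucc)⁻¹).prod = dG a b n := by
  rw [dG, dl_eq', map_relWord]
  simp only [jR_a, jR_b]
  rfl

/-- The boundary twist. -/
theorem bd_pair (h : IsSurf a b) {T : MulAut G} (hT : IsBd a b T) :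
    Pair h (MulAut.conj (dl n)) T := by
  obtain ⟨D, l, hD, -⟩ := exists_DT h
  obtain ⟨d, rfl, h1, h2, h3⟩ := hT
  rw [Xa_dG] at h1
  have h4 : ∀ z, D (jR a b z) = dG a b n * jR a b z * (dG a b n)⁻¹ := by
    intro z
    rw [hD.fj, MulAut.conj_apply, map_mul, map_mul, map_inv]
    rfl
  have h5 : T = D := by
    apply aut_ext h
    · intro k
      refine Fin.lastCases ?_ (fun k => ?_) k
      · rw [h2, hD.fa]
      · rw [(h1 k).1, ← jR_a (a := a) (b := b) k, h4]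
    · intro k
      refine Fin.lastCases ?_ (fun k => ?_) k
      · rw [h3, hD.fb]
      · rw [(h1 k).2, ← jR_b (a := a) (b := b) k, h4]
  rw [h5]
  exact hD

theorem exists_bd (h : IsSurf a b) : ∃ T : MulAut G, IsBd a b T := by
  obtain ⟨D, l, hD, -⟩ := exists_DT h
  have h4 : ∀ z, D (jR a b z) = dG a b n * jR a b z * (dG a b n)⁻¹ := by
    intro z
    rw [hD.fj, MulAut.conj_apply, map_mul, map_mul, map_inv]
    rfl
  refine ⟨D, dG a b n, (Xa_dG a b).symm, fun i => ?_, hD.fa, hD.fb⟩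
  rw [← jR_a (a := a) (b := b) i, ← jR_b (a := a) (b := b) i, h4, h4]
  exact ⟨rfl, rfl⟩

theorem trip_bd (h : IsSurf a b) (hP : IsSurf x y) {T : MulAut G} (hT : IsBd a b T) :
    Trip h hP (MulAut.conj (dl n)) T 1 := by
  refine ⟨bd_pair h hT, fun z => ?_⟩
  rw [MulAut.conj_apply, map_mul, map_mul, map_inv, qH_dl hP, MulAut.one_apply]
  group

theorem BMod_eq (h : IsSurf a b) : BMod a b = Subgroup.closure ({T | (∃ i : Fin (n + 1),
    (i : ℕ) < n ∧ T = TA h i) ∨ (∃ i : Fin (n + 1), (i : ℕ) < n ∧ T = TB h i) ∨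
      ∃ (i j : Fin (n + 1)) (hij : (j : ℕ) = i + 1), (j : ℕ) < n ∧ T = TC h i j hij} ∪
      {T | IsBd a b T}) := by
  rw [BMod, Twists_eq h]

/-- Every element of the mapping class group of the subsurface induces a product of twists. -/
theorem bm_trip (h : IsSurf a b) (hP : IsSurf x y) (f : MulAut G) (hf : f ∈ BMod a b) :
    ∃ f' φ, Trip h hP f' f φ ∧ φ ∈ TW hP := by
  rw [BMod_eq h] at hf
  have hcs : ∀ k : Fin (n + 1), (k : ℕ) < n → ∃ i : Fin n, k = i.castSucc :=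
    fun k hk => ⟨⟨k, hk⟩, rfl⟩
  refine Subgroup.closure_induction (p := fun f _ => ∃ f' φ, Trip h hP f' f φ ∧ φ ∈ TW hP)
    ?_ ?_ ?_ ?_ hf
  · rintro T ((⟨i, hi, rfl⟩ | ⟨i, hi, rfl⟩ | ⟨i, j, hij, hj, rfl⟩) | hT)
    · obtain ⟨i', rfl⟩ := hcs i hi
      exact ⟨_, _, trip_TA h hP i', Subgroup.subset_closure (Or.inl ⟨_, rfl⟩)⟩
    · obtain ⟨i', rfl⟩ := hcs i hi
      exact ⟨_, _, trip_TB h hP i', Subgroup.subset_closure (Or.inr (Or.inl ⟨_, rfl⟩))⟩
    · obtain ⟨j', rfl⟩ := hcs j hj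
      obtain ⟨i', rfl⟩ := hcs i (by omega)
      have hij' : (j' : ℕ) = i' + 1 := hij
      exact ⟨_, _, trip_TC h hP hij', Subgroup.subset_closure (Or.inr (Or.inr ⟨_, _, _, rfl⟩))⟩
    · exact ⟨_, _, trip_bd h hP hT, Subgroup.one_mem _⟩
  · exact ⟨1, 1, Trip.one h hP, Subgroup.one_mem _⟩
  · rintro s t _ _ ⟨s', φ, h1, h2⟩ ⟨t', ψ, h3, h4⟩
    exact ⟨_, _, h1.mul h3, Subgroup.mul_mem _ h2 h4⟩
  · rintro s _ ⟨s', φ, h1, h2⟩
    exact ⟨_, _, h1.inv, Subgroup.inv_mem _ h2⟩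

/-- Every product of twists is induced by an element of the mapping class group of the
subsurface. -/
theorem bm_surj (h : IsSurf a b) (hP : IsSurf x y) (φ : MulAut P) (hφ : φ ∈ TW hP) :
    ∃ f ∈ BMod a b, ∃ f', Trip h hP f' f φ := by
  rw [BMod_eq h]
  refine Subgroup.closure_induction (p := fun φ _ => ∃ f ∈ Subgroup.closure
    ({T | (∃ i : Fin (n + 1), (i : ℕ) < n ∧ T = TA h i) ∨ (∃ i : Fin (n + 1), (i : ℕ) < n ∧
      T = TB h i) ∨ ∃ (i j : Fin (n + 1)) (hij : (j : ℕ) = i + 1), (j : ℕ) < n ∧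
      T = TC h i j hij} ∪ {T | IsBd a b T}), ∃ f', Trip h hP f' f φ) ?_ ?_ ?_ ?_ hφ
  · rintro T (⟨i, rfl⟩ | ⟨i, rfl⟩ | ⟨i, j, hij, rfl⟩)
    · exact ⟨_, Subgroup.subset_closure (Or.inl (Or.inl ⟨i.castSucc, i.2, rfl⟩)), _,
        trip_TA h hP i⟩
    · exact ⟨_, Subgroup.subset_closure (Or.inl (Or.inr (Or.inl ⟨i.castSucc, i.2, rfl⟩))), _,
        trip_TB h hP i⟩
    · exact ⟨_, Subgroup.subset_closure (Or.inl (Or.inr (Or.inr
        ⟨i.castSucc, j.castSucc, hij, j.2, rfl⟩))), _, trip_TC h hP hij⟩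
  · exact ⟨1, Subgroup.one_mem _, 1, Trip.one h hP⟩
  · rintro s t _ _ ⟨f, hf, f', h1⟩ ⟨k, hk, k', h2⟩
    exact ⟨_, Subgroup.mul_mem _ hf hk, _, h1.mul h2⟩
  · rintro s _ ⟨f, hf, f', h1⟩
    exact ⟨_, Subgroup.inv_mem _ hf, _, h1.inv⟩

theorem subHom_jR (a b : Fin (n + 1) → G) : subHom a b n (Nat.le_succ n) = jR a b := by
  ext i
  rcases i with k | k
  · simp only [subHom, jR, FreeGroup.lift_apply_of, Sum.elim_inl]
    rfl
  · simp only [subHom, jR, FreeGroup.lift_apply_of, Sum.elim_inr]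
    rfl

theorem subHom_qH (x y : Fin n → P) : subHom x y n le_rfl = qH x y := by
  ext i
  rcases i with k | k
  · simp [subHom, qH]
  · simp [subHom, qH]

theorem Trip.induces {h : IsSurf a b} {hP : IsSurf x y} {f' : MulAut (Fr n)} {f : MulAut G}
    {φ : MulAut P} (h1 : Trip h hP f' f φ) : Induces x y a b f φ := by
  intro z
  rw [subHom_jR, subHom_qH]
  exact ⟨f' z, h1.pair.fj z, h1.ind z⟩

theorem Trip.unique {h : IsSurf a b} {hP : IsSurf x y} {f' : MulAut (Fr n)} {f : MulAut G}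
    {φ ψ : MulAut P} (h1 : Trip h hP f' f φ) (h2 : Induces x y a b f ψ) : ψ = φ := by
  apply MulEquiv.ext
  intro t
  obtain ⟨z, rfl⟩ := qH_surj hP t
  have h3 := h2 z
  rw [subHom_jR, subHom_qH] at h3
  obtain ⟨z', h4, h5⟩ := h3
  rw [h1.pair.fj] at h4
  rw [h5, h1.ind, jR_injective h h4]

end

end Pool.MP_59b15d_al.H73E
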