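import Mathlib
import Pool.Agent.H.MP_59b15d_al.h76m.Hh
import Pool.Agent.H.MP_59b15d_al.h76r.Defs

set_option autoImplicit false

namespace Pool.MP_59b15d_al.H73E

open Pool.MP_59b15d_al.H24T Pool.MP_59b15d_al.H76R
open Pool.MP_59b15d_al.H76 (InnMod congSub mem_congSub congSub_normal congSub_finiteIndex
  conj_innMod innMod_mono apply_mem_of_char exists_char_le comap_fi map_fi surf_fg inf_char
  finite_hom)
open FreeGroup (of)

section

/-- JOB Tw1.  The twisted difference equation over `ZMod ℓ` on a finite group.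

PROOF.  `N := Nat.card E ≥ 1`, choose a prime `ℓ > 2 ^ N` (`Nat.exists_infinite_primes (2^N+1)`);
`N < 2 ^ N < ℓ`, `2 ≤ 2 ^ N < ℓ`.  `D := (2 : ZMod ℓ) ^ N - 1` is invertible (`ZMod ℓ` is a field;
`D = ((2 ^ N - 1 : ℕ) : ZMod ℓ) ≠ 0` as `0 < 2 ^ N - 1 < ℓ`, `ZMod.natCast_eq_zero_iff`,
`Nat.le_of_dvd`).
Put `ρ := b * a * b⁻¹`, `ρ ^ N = 1` (`pow_card_eq_one'`), and
`j x := D⁻¹ * ∑ i ∈ Finset.range N, 2 ^ (N - 1 - i) * k (a * ρ ^ i * x)`.
Claim `2 * j x - j (ρ * x) = k (a * x)`: multiply by `D`: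
`∑_{i<N} 2 ^ (N - i) k (a ρ^i x) - ∑_{i<N} 2 ^ (N - 1 - i) k (a ρ^(i+1) x)`; with
`g i := 2 ^ (N - i) * k (a * ρ ^ i * x)` this is `∑_{i<N} (g i - g (i+1)) = g 0 - g N =
2 ^ N * k (a x) - k (a x) = D * k (a x)` (`Finset.sum_range_sub'`; `ρ ^ N = 1`; for `i < N`:
`2 * 2 ^ (N - 1 - i) = 2 ^ (N - i)`, `N - (i + 1) = N - 1 - i`).
For `x := a⁻¹ * e`: `ρ * x = b * a * b⁻¹ * a⁻¹ * e`, `a * x = e`: first claim.
Invariance: `θ (ρ^i x) = ρ^i θ x` (as `θ (b⁻¹ x) = b⁻¹ θ x`: apply the hypothesis to `b⁻¹ x`), so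
`k (a ρ^i θ x) = k (θ (a ρ^i x)) = k (a ρ^i x)`. -/
theorem tw_solve (E : Type*) [Group E] [Finite E] :
    ∃ ℓ : ℕ, ℓ.Prime ∧ Nat.card E < ℓ ∧ 2 < ℓ ∧
      ∀ (a b : E) (k : E → ZMod ℓ), ∃ j : E → ZMod ℓ,
        (∀ e, 2 * j (a⁻¹ * e) - j (b * a * b⁻¹ * a⁻¹ * e) = k e) ∧
        ∀ θ : E → E, (∀ e, θ (a * e) = a * θ e) → (∀ e, θ (b * e) = b * θ e) →
          (∀ e, k (θ e) = k e) → ∀ e, j (θ e) = j e := by
  obtain ⟨ℓ, hℓ, hp⟩ := Nat.exists_infinite_primes (2 ^ Nat.card E + 1)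
  have hN : 0 < Nat.card E := Nat.card_pos
  have h1 : Nat.card E < 2 ^ Nat.card E := Nat.lt_two_pow_self
  have h2 : 2 ≤ 2 ^ Nat.card E := by
    calc 2 = 2 ^ 1 := by norm_num
      _ ≤ 2 ^ Nat.card E := Nat.pow_le_pow_right (by norm_num) hN
  refine ⟨ℓ, hp, by omega, by omega, ?_⟩
  have : Fact ℓ.Prime := ⟨hp⟩
  set N := Nat.card E with hNdef
  intro a b k
  have hD : ((2 : ZMod ℓ) ^ N - 1) ≠ 0 := by
    have h3 : ((2 : ZMod ℓ) ^ N - 1) = ((2 ^ N - 1 : ℕ) : ZMod ℓ) := by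
      rw [Nat.cast_sub (by omega)]
      push_cast
      ring
    rw [h3, Ne, ZMod.natCast_eq_zero_iff]
    intro hdvd
    have := Nat.le_of_dvd (by omega) hdvd
    omega
  have hρ : (b * a * b⁻¹) ^ N = 1 := pow_card_eq_one'
  refine ⟨fun x => ((2 : ZMod ℓ) ^ N - 1)⁻¹ *
    ∑ i ∈ Finset.range N, 2 ^ (N - 1 - i) * k (a * (b * a * b⁻¹) ^ i * x), ?_, ?_⟩
  · have key : ∀ x, 2 * (∑ i ∈ Finset.range N,
        (2 : ZMod ℓ) ^ (N - 1 - i) * k (a * (b * a * b⁻¹) ^ i * x)) -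
        (∑ i ∈ Finset.range N,
        (2 : ZMod ℓ) ^ (N - 1 - i) * k (a * (b * a * b⁻¹) ^ i * (b * a * b⁻¹ * x))) =
        ((2 : ZMod ℓ) ^ N - 1) * k (a * x) := by
      intro x
      have h4 := Finset.sum_range_sub' (fun i => (2 : ZMod ℓ) ^ (N - i) *
        k (a * (b * a * b⁻¹) ^ i * x)) N
      have h5 : (fun i => (2 : ZMod ℓ) ^ (N - i) * k (a * (b * a * b⁻¹) ^ i * x)) 0 -
        (fun i => (2 : ZMod ℓ) ^ (N - i) * k (a * (b * a * b⁻¹) ^ i * x)) N =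
        ((2 : ZMod ℓ) ^ N - 1) * k (a * x) := by
        simp only [Nat.sub_zero, pow_zero, mul_one, Nat.sub_self, one_mul]
        rw [hρ, mul_one]
        ring
      rw [← h5, ← h4, Finset.mul_sum, ← Finset.sum_sub_distrib]
      apply Finset.sum_congr rfl
      intro i hi
      rw [Finset.mem_range] at hi
      have h6 : N - i = (N - 1 - i) + 1 := by omega
      have h7 : N - (i + 1) = N - 1 - i := by omega
      simp only [h7]
      rw [h6, pow_succ, pow_succ (b * a * b⁻¹)]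
      simp only [mul_assoc]
      ring
    intro e
    have h8 := key (a⁻¹ * e)
    have h9 : b * a * b⁻¹ * a⁻¹ * e = b * a * b⁻¹ * (a⁻¹ * e) := by group
    simp only []
    rw [h9]
    have h10 : a * (a⁻¹ * e) = e := by group
    rw [h10] at h8
    calc _ = ((2 : ZMod ℓ) ^ N - 1)⁻¹ * (2 * (∑ i ∈ Finset.range N,
        (2 : ZMod ℓ) ^ (N - 1 - i) * k (a * (b * a * b⁻¹) ^ i * (a⁻¹ * e))) -
        (∑ i ∈ Finset.range N,
        (2 : ZMod ℓ) ^ (N - 1 - i) *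
          k (a * (b * a * b⁻¹) ^ i * (b * a * b⁻¹ * (a⁻¹ * e))))) := by ring
      _ = k e := by
        rw [h8, inv_mul_cancel_left₀ hD]
  · intro θ ha hb hk e
    have hb' : ∀ e, θ (b⁻¹ * e) = b⁻¹ * θ e := by
      intro e
      have := hb (b⁻¹ * e)
      rw [mul_inv_cancel_left] at this
      rw [this, inv_mul_cancel_left]
    have hr : ∀ (i : ℕ) e, θ ((b * a * b⁻¹) ^ i * e) = (b * a * b⁻¹) ^ i * θ e := by
      intro i
      induction i with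
      | zero => intro e; simp
      | succ i ih =>
        intro e
        rw [pow_succ, mul_assoc, ih]
        have : b * a * b⁻¹ * e = b * (a * (b⁻¹ * e)) := by group
        rw [this, hb, ha, hb']
        group
    simp only []
    congr 1
    apply Finset.sum_congr rfl
    intro i hi
    congr 1
    rw [mul_assoc a, ← hr, ← ha, hk, mul_assoc a]

end

end Pool.MP_59b15d_al.H73E
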