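import Mathlib
import Pool.Agent.H.MP_59b15d_al.h73e.Tw1
import Pool.Agent.H.MP_59b15d_al.h76r.Rl

set_option autoImplicit false

namespace Pool.MP_59b15d_al.H73E

open Pool.MP_59b15d_al.H24T Pool.MP_59b15d_al.H76R
open Pool.MP_59b15d_al.H76 (InnMod congSub mem_congSub congSub_normal congSub_finiteIndex
  conj_innMod innMod_mono apply_mem_of_char exists_char_le comap_fi map_fi surf_fg inf_char
  finite_hom)
open FreeGroup (of)

section

variable {n : ℕ}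

/-- JOB Tw2 (1).  Twisted actions: every handle `i` acts on `E × ZMod ℓ` by
`a i : (e, t) ↦ (π a_i e, 2 t)`, `b i : (e, t) ↦ (π b_i e, t + j_i (π b_i e))`, where `j_i` solves
the equation of `tw_solve` for `(π a_i, π b_i, k i)`; then the commutator `kk i` acts by
`(e, t) ↦ (π (kk i) e, t + k i (π (kk i) e))`.

PROOF.  Take `ℓ` from `tw_solve E`, `Fact ℓ.Prime`; `j i` from it (choose).
`u (inl i) := 2`, `u (inr i) := 1`, `η (inl i) := 0`, `η (inr i) := j i`.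
For `x`, the permutation `P x : (e, t) ↦ (π (of x) e, u x t + η x (π (of x) e))` with inverse
`(e, t) ↦ ((π (of x))⁻¹ e, (u x)⁻¹ (t - η x e))` (`u x ≠ 0` as `2 < ℓ`).
`Φ := FreeGroup.lift P`.  For `kk i = of (inl i) * of (inr i) * (of (inl i))⁻¹ * (of (inr i))⁻¹`
put `A = π (of (inl i))`, `B = π (of (inr i))`:
`b⁻¹ : (e, t) ↦ (B⁻¹ e, t - j e)`, then `a⁻¹ ↦ (A⁻¹ B⁻¹ e, (t - j e)/2)`, then
`b ↦ (B A⁻¹ B⁻¹ e, (t - j e)/2 + j (B A⁻¹ B⁻¹ e))`, then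
`a ↦ (A B A⁻¹ B⁻¹ e, t - j e + 2 j (B A⁻¹ B⁻¹ e))`.  With `e' := A B A⁻¹ B⁻¹ e` one has
`B A⁻¹ B⁻¹ e = A⁻¹ e'` and `e = B A B⁻¹ A⁻¹ e'`, so the second coordinate is
`t + 2 j (A⁻¹ e') - j (B A B⁻¹ A⁻¹ e') = t + k i e'`.
(To avoid inverses of permutations, one may check instead
`Φ (kk i) (Φ (of (inr i) * of (inl i)) p) = Φ (of (inl i) * of (inr i)) p`-type identities.)
The invariance is that of `tw_solve`. -/
theorem exists_Phi (n : ℕ) (E : Type*) [Group E] [Finite E] :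
    ∃ ℓ : ℕ, ℓ.Prime ∧ Nat.card E < ℓ ∧
      ∀ (π : Fr n →* E) (k : Fin n → E → ZMod ℓ),
        ∃ (Φ : Fr n →* Equiv.Perm (E × ZMod ℓ)) (u : Fin n ⊕ Fin n → ZMod ℓ)
          (η : Fin n ⊕ Fin n → E → ZMod ℓ),
          (∀ x p, Φ (of x) p = (π (of x) * p.1, u x * p.2 + η x (π (of x) * p.1))) ∧
          (∀ i p, Φ (kk i) p = (π (kk i) * p.1, p.2 + k i (π (kk i) * p.1))) ∧
          ∀ i (θ : E → E), (∀ e, θ (π (of (Sum.inl i)) * e) = π (of (Sum.inl i)) * θ e) →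
            (∀ e, θ (π (of (Sum.inr i)) * e) = π (of (Sum.inr i)) * θ e) →
            (∀ e, k i (θ e) = k i e) → ∀ e, η (Sum.inl i) (θ e) = η (Sum.inl i) e ∧
              η (Sum.inr i) (θ e) = η (Sum.inr i) e := by
  obtain ⟨ℓ, hℓ, hcard, h2, hsolve⟩ := tw_solve E
  haveI : Fact ℓ.Prime := ⟨hℓ⟩
  refine ⟨ℓ, hℓ, hcard, fun π k => ?_⟩
  have hex := fun i : Fin n => hsolve (π (of (Sum.inl i))) (π (of (Sum.inr i))) (k i)
  choose j hj hinv using hex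
  have h2ne : (2 : ZMod ℓ) ≠ 0 := by
    intro h0
    have h1 : ((2 : ℕ) : ZMod ℓ) = 0 := by exact_mod_cast h0
    rw [ZMod.natCast_eq_zero_iff] at h1
    exact absurd (Nat.le_of_dvd (by norm_num) h1) (by omega)
  let u : Fin n ⊕ Fin n → ZMod ℓ := Sum.elim (fun _ => 2) (fun _ => 1)
  let η : Fin n ⊕ Fin n → E → ZMod ℓ := Sum.elim (fun _ _ => 0) j
  have hu : ∀ x, u x ≠ 0 := by
    rintro (x | x)
    · exact h2ne
    · exact one_ne_zero
  let P : Fin n ⊕ Fin n → Equiv.Perm (E × ZMod ℓ) := fun x =>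
    { toFun := fun p => (π (of x) * p.1, u x * p.2 + η x (π (of x) * p.1))
      invFun := fun p => ((π (of x))⁻¹ * p.1, (u x)⁻¹ * (p.2 - η x p.1))
      left_inv := by
        rintro ⟨e, t⟩
        simp [hu x]
      right_inv := by
        rintro ⟨e, t⟩
        simp [hu x] }
  have hΦ : ∀ x p, (FreeGroup.lift P) (of x) p =
      (π (of x) * p.1, u x * p.2 + η x (π (of x) * p.1)) := by
    intro x p
    rw [FreeGroup.lift_apply_of]
    rfl
  refine ⟨FreeGroup.lift P, u, η, hΦ, ?_, ?_⟩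
  · intro i p
    set Φ := FreeGroup.lift P with hΦdef
    obtain ⟨q, hq⟩ : ∃ q, Φ (of (Sum.inr i)) (Φ (of (Sum.inl i)) q) = p :=
      ⟨(Φ (of (Sum.inl i)))⁻¹ ((Φ (of (Sum.inr i)))⁻¹ p), by simp⟩
    have h1 : Φ (kk i) p = Φ (of (Sum.inl i)) (Φ (of (Sum.inr i)) q) := by
      rw [← hq, ← Equiv.Perm.mul_apply, ← Equiv.Perm.mul_apply, ← map_mul, ← map_mul, kk,
        ← Equiv.Perm.mul_apply, ← map_mul]
      congr 2
      group
    have h3 := hj i (π (of (Sum.inl i)) * (π (of (Sum.inr i)) * q.1))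
    have h4 : (π (of (Sum.inl i)))⁻¹ * (π (of (Sum.inl i)) * (π (of (Sum.inr i)) * q.1)) =
        π (of (Sum.inr i)) * q.1 := by group
    have h5 : π (of (Sum.inr i)) * π (of (Sum.inl i)) * (π (of (Sum.inr i)))⁻¹ *
        (π (of (Sum.inl i)))⁻¹ * (π (of (Sum.inl i)) * (π (of (Sum.inr i)) * q.1)) =
        π (of (Sum.inr i)) * (π (of (Sum.inl i)) * q.1) := by group
    rw [h4, h5] at h3
    have h6 : π (kk i) * p.1 = π (of (Sum.inl i)) * (π (of (Sum.inr i)) * q.1) := by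
      rw [← hq, hΦ, hΦ, kk]
      simp only [map_mul, map_inv]
      group
    have h7 : p.2 = 2 * q.2 + j i (π (of (Sum.inr i)) * (π (of (Sum.inl i)) * q.1)) := by
      rw [← hq, hΦ, hΦ]
      simp [u, η]
    rw [h1, h6, h7, ← h3, hΦ, hΦ]
    refine Prod.ext rfl ?_
    simp only [u, η, Sum.elim_inl, Sum.elim_inr]
    ring
  · intro i θ ha hb hk e
    exact ⟨rfl, hinv i θ ha hb hk e⟩

/-- JOB Tw2 (2).  The action of a segment of the boundary word.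
PROOF.  Induction on `l` from `m + 1`.  `l = m + 1`: `(dl m)⁻¹ * dl (m + 1) = kk ⟨m, _⟩`
(`dl_succ`).  Step: `(dl m)⁻¹ * dl (l + 1) = ((dl m)⁻¹ * dl l) * kk ⟨l, _⟩`, where
`Φ (kk ⟨l, _⟩) p = (π (kk _) * p.1, p.2)` as `k ⟨l, _⟩ = 0`. -/
theorem Phi_seg {E : Type*} [Group E] {ℓ : ℕ} (π : Fr n →* E) (k : Fin n → E → ZMod ℓ)
    (Φ : Fr n →* Equiv.Perm (E × ZMod ℓ))
    (hk : ∀ i p, Φ (kk i) p = (π (kk i) * p.1, p.2 + k i (π (kk i) * p.1)))
    (m l : ℕ) (hml : m < l) (hl : l ≤ n) (h0 : ∀ i : Fin n, m < (i : ℕ) → (i : ℕ) < l → k i = 0)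
    (p : E × ZMod ℓ) :
    Φ ((dl m)⁻¹ * dl l) p = (π ((dl m)⁻¹ * dl l) * p.1,
      p.2 + k ⟨m, lt_of_lt_of_le hml hl⟩ (π ((dl m)⁻¹ * dl l) * p.1)) := by
  induction l, hml using Nat.le_induction generalizing p with
  | base =>
    have h1 : (dl m)⁻¹ * dl (m + 1) = (kk ⟨m, lt_of_lt_of_le (Nat.lt_succ_self m) hl⟩ : Fr n) := by
      rw [dl_succ m (by omega), inv_mul_cancel_left]
    rw [h1, hk]
  | succ l hml ih =>
    have h1 : (dl m)⁻¹ * dl (l + 1) = (((dl m)⁻¹ * dl l) * kk ⟨l, by omega⟩ : Fr n) := by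
      rw [dl_succ l (by omega), mul_assoc]
    have h2 : Φ (kk ⟨l, by omega⟩) p = (π (kk ⟨l, by omega⟩) * p.1, p.2) := by
      rw [hk, h0 ⟨l, by omega⟩ (by simpa using hml) (by simp)]
      simp
    rw [h1, map_mul, Equiv.Perm.mul_apply, h2,
      ih (by omega) (fun i hi1 hi2 => h0 i hi1 (by omega))]
    simp only [map_mul, mul_assoc]

end

end Pool.MP_59b15d_al.H73E
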