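import Mathlib
import Pool.Agent.H.MP_59b15d_al.h73e.Ba
import Pool.Agent.H.MP_59b15d_al.h73e.Tw2

set_option autoImplicit false

namespace Pool.MP_59b15d_al.H73E

open Pool.MP_59b15d_al.H24T Pool.MP_59b15d_al.H76R
open Pool.MP_59b15d_al.H76 (InnMod congSub mem_congSub congSub_normal congSub_finiteIndex
  conj_innMod innMod_mono apply_mem_of_char exists_char_le comap_fi map_fi surf_fg inf_char
  finite_hom)
open FreeGroup (of)

section

variable {n : ℕ}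

/-- JOB Cl.  The centraliser of the boundary in finite quotients (C-lemma).

PROOF.  `E := Fr n ⧸ U` finite, `π := QuotientGroup.mk' U`, `c := π (dl n)`, `ℓ` from `exists_Phi`,
`N := Nat.card E`, `k 0 := fun e => if e ∈ Subgroup.zpowers c then 0 else 1`, `k i := 0` for `i ≠ 0`
(classical).  `Φ` as in `exists_Phi`; by `Phi_seg` with `m = 0`, `l = n` (`dl 0 = 1`):
`Φ (dl n) (e, t) = (c * e, t + k 0 (c * e))`.
`V := V₁ ⊓ V₂` with `V₁` from `exists_deep (Fr n) (Equiv.Perm (E × ZMod ℓ))` (`ZMod ℓ` is finite: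
`Fact`/`NeZero ℓ`) and `V₂ ≤ U` characteristic of finite index (`exists_char_le`, `inf_char`).
Let `v * dl n * v⁻¹ * (dl n)⁻¹ ∈ V`; then `Φ v` and `Φ (dl n)` commute.
By induction on `r : ℕ`: `(Φ (dl n)) ^ r (e, t) = (c ^ r * e, t + ∑ i ∈ range r, k 0 (c ^ (i+1) * e))`.
With `e = 1, t = 0`: all `k 0 (c ^ (i+1)) = 0`, so `(Φ (dl n)) ^ N (1, 0) = (1, 0)` (`c ^ N = 1`).
Let `Φ v (1, 0) = (v̄, t)`; `v̄ = π v`: show `(Φ v p).1 = π v * p.1` for all `v` (induction on `v`,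
`fr_induction`, or compare the two homomorphisms).
Then `(Φ (dl n)) ^ N (v̄, t) = Φ v ((Φ (dl n)) ^ N (1, 0)) = (v̄, t)`, so
`∑ i ∈ range N, k 0 (c ^ (i+1) * v̄) = 0`.  If `v̄ ∉ zpowers c`, all terms are `1`
(`c ^ (i+1) * v̄ ∈ zpowers c ↔ v̄ ∈ zpowers c`), so `(N : ZMod ℓ) = 0`, impossible as `0 < N < ℓ`.
So `v̄ = c ^ r`, and `k := -r` works (`QuotientGroup.eq_one_iff`). -/
theorem CL (hn : 0 < n) (U : Subgroup (Fr n)) (hU : U.Normal) (hf : U.FiniteIndex) :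
    ∃ V : Subgroup (Fr n), V.Characteristic ∧ V.FiniteIndex ∧ V ≤ U ∧
      ∀ v : Fr n, v * dl n * v⁻¹ * (dl n)⁻¹ ∈ V → ∃ k : ℤ, v * (dl n) ^ k ∈ U := by
  classical
  have hEfin : Finite (Fr n ⧸ U) := inferInstance
  let π : Fr n →* Fr n ⧸ U := QuotientGroup.mk' U
  let c : Fr n ⧸ U := π (dl n)
  obtain ⟨ℓ, hℓ, hcard, hex⟩ := exists_Phi n (Fr n ⧸ U)
  have hF : Fact ℓ.Prime := ⟨hℓ⟩
  let κ : (Fr n ⧸ U) → ZMod ℓ := fun e => if e ∈ Subgroup.zpowers c then 0 else 1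
  let k : Fin n → (Fr n ⧸ U) → ZMod ℓ := fun i => if (i : ℕ) = 0 then κ else 0
  obtain ⟨Φ, u, η, h1, h2, -⟩ := hex π k
  have hd : ∀ p : (Fr n ⧸ U) × ZMod ℓ, Φ (dl n) p = (c * p.1, p.2 + κ (c * p.1)) := by
    intro p
    have h3 := Phi_seg π k Φ h2 0 n hn le_rfl (fun i hi _ => by
      simp only [k]
      rw [if_neg (by omega)]) p
    have h4 : (dl 0 : Fr n)⁻¹ * dl n = dl n := by rw [dl, inv_one, one_mul]
    rw [h4] at h3
    exact h3
  have hiter : ∀ (r : ℕ) (p : (Fr n ⧸ U) × ZMod ℓ), (Φ (dl n) ^ r) p =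
      (c ^ r * p.1, p.2 + ∑ i ∈ Finset.range r, κ (c ^ (i + 1) * p.1)) := by
    intro r
    induction r with
    | zero => intro p; simp
    | succ r ih =>
      intro p
      rw [pow_succ', Equiv.Perm.mul_apply, ih, hd, Finset.sum_range_succ]
      ext
      · change c * (c ^ r * p.1) = c ^ (r + 1) * p.1
        rw [pow_succ', mul_assoc]
      · change p.2 + ∑ i ∈ Finset.range r, κ (c ^ (i + 1) * p.1) + κ (c * (c ^ r * p.1)) =
          p.2 + (∑ i ∈ Finset.range r, κ (c ^ (i + 1) * p.1) + κ (c ^ (r + 1) * p.1))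
        rw [pow_succ', mul_assoc, add_assoc]
  have hfst : ∀ (v : Fr n) (p : (Fr n ⧸ U) × ZMod ℓ), (Φ v p).1 = π v * p.1 := by
    intro v
    induction v using FreeGroup.induction_on with
    | C1 => intro p; rw [map_one, map_one, one_mul]; rfl
    | of x => intro p; rw [h1]
    | inv_of x ih =>
      intro p
      have h3 := ih ((Φ (of x))⁻¹ p)
      have h4 : Φ (of x) ((Φ (of x))⁻¹ p) = p := Equiv.apply_symm_apply _ _
      rw [map_inv, map_inv, eq_inv_mul_iff_mul_eq]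
      change (Φ (of x) ((Φ (of x))⁻¹ p)).1 = π (of x) * ((Φ (of x))⁻¹ p).1 at h3
      rw [h4] at h3
      exact h3.symm
    | mul x y hx hy =>
      intro p
      rw [map_mul, map_mul, Equiv.Perm.mul_apply, hx, hy, mul_assoc]
  have hfi : Finite ((Fr n ⧸ U) × ZMod ℓ) := inferInstance
  obtain ⟨V₁, hV₁, hV₁f, hV₁k⟩ := exists_deep (Fr n) (Equiv.Perm ((Fr n ⧸ U) × ZMod ℓ))
  obtain ⟨V₂, hV₂, hV₂f, hV₂U⟩ := exists_char_le U hf
  refine ⟨V₁ ⊓ V₂, inf_char hV₁ hV₂, inferInstance, inf_le_right.trans hV₂U, ?_⟩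
  intro v hv
  have hcomm : Φ v * Φ (dl n) = Φ (dl n) * Φ v := by
    have h3 := hV₁k Φ _ hv.1
    rw [map_mul, map_mul, map_mul, map_inv, map_inv, mul_inv_eq_one, mul_inv_eq_iff_eq_mul] at h3
    exact h3
  have hcomm' : Commute (Φ v) (Φ (dl n) ^ Nat.card (Fr n ⧸ U)) :=
    Commute.pow_right hcomm _
  have hcN : c ^ Nat.card (Fr n ⧸ U) = 1 := pow_card_eq_one'
  have h10 : (Φ (dl n) ^ Nat.card (Fr n ⧸ U)) ((1 : Fr n ⧸ U), (0 : ZMod ℓ)) = (1, 0) := by
    rw [hiter, hcN]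
    ext
    · change (1 : Fr n ⧸ U) * 1 = 1
      rw [mul_one]
    · change (0 : ZMod ℓ) + ∑ i ∈ Finset.range _, κ (c ^ (i + 1) * 1) = 0
      rw [zero_add]
      apply Finset.sum_eq_zero
      intro i _
      rw [mul_one]
      simp only [κ]
      rw [if_pos (Subgroup.npow_mem_zpowers c (i + 1))]
  have h11 : (Φ (dl n) ^ Nat.card (Fr n ⧸ U)) (Φ v (1, 0)) = Φ v (1, 0) := by
    rw [← Equiv.Perm.mul_apply, ← hcomm'.eq, Equiv.Perm.mul_apply, h10]
  have h12 : ∑ i ∈ Finset.range (Nat.card (Fr n ⧸ U)), κ (c ^ (i + 1) * π v) = 0 := by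
    rw [hiter, hfst, mul_one] at h11
    have h13 := congrArg Prod.snd h11
    change (Φ v (1, 0)).2 + _ = (Φ v (1, 0)).2 at h13
    exact add_eq_left.mp h13
  have h14 : π v ∈ Subgroup.zpowers c := by
    by_contra hcon
    have h15 : ∀ i ∈ Finset.range (Nat.card (Fr n ⧸ U)), κ (c ^ (i + 1) * π v) = 1 := by
      intro i _
      simp only [κ]
      rw [if_neg]
      intro h16
      exact hcon ((Subgroup.mul_mem_cancel_left _ (Subgroup.npow_mem_zpowers c (i + 1))).mp h16)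
    rw [Finset.sum_congr rfl h15, Finset.sum_const, Finset.card_range, nsmul_eq_mul, mul_one,
      ZMod.natCast_eq_zero_iff] at h12
    exact absurd (Nat.le_of_dvd Nat.card_pos h12) (not_le.mpr hcard)
  obtain ⟨r, hr⟩ := h14
  refine ⟨-r, ?_⟩
  rw [← QuotientGroup.eq_one_iff]
  change π (v * dl n ^ (-r)) = 1
  rw [map_mul, map_zpow, ← hr]
  change c ^ r * c ^ (-r) = 1
  rw [zpow_neg, mul_inv_cancel]

end

end Pool.MP_59b15d_al.H73E
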