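import Mathlib
import Pool.Agent.H.MP_59b15d_al.h73e.Htb

set_option autoImplicit false

namespace Pool.MP_59b15d_al.H73E

open Pool.MP_59b15d_al.H24T Pool.MP_59b15d_al.H76R
open Pool.MP_59b15d_al.H76 (InnMod congSub mem_congSub congSub_normal congSub_finiteIndex
  conj_innMod innMod_mono apply_mem_of_char exists_char_le comap_fi map_fi surf_fg inf_char
  finite_hom)
open FreeGroup (of)

section

variable {n : ℕ} {G : Type*} [Group G] {a b : Fin (n + 1) → G}

/-- Values of the push automorphisms. -/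
theorem Xh_val (h : IsSurf a b) (y z : Fr n) (w : Fp n) (hw : XX h y (jR a b z) = jA a b w) :
    Xh h y z = pz n w := by
  obtain ⟨w', h1, h2⟩ := (Xh_hat h y).fwd (inc n z)
  rw [pz_inc] at h2
  rw [jA_inc, hw] at h1
  rw [jA_injective h h1, h2]

/-- JOB Htc (1).  In all four statements use `Xh_val` with the value of `XX h (dl m)` given by
`Xdl h m hm` (file Rl): for `k < m`: `XX h (dl m) (a k.castSucc) = (a last)⁻¹ * a k.castSucc *
a last = jA a b ((of none)⁻¹ * of (some (inl k)) * of none)`, and `pz` of the word is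
`dl n * of (inl k) * (dl n)⁻¹`.  For `m ≤ k`: `((a last)⁻¹ * (dG m)⁻¹ * a last * dG m) * a k * (..)⁻¹`
with `dG a b m = jR a b (dl m) = jA a b (inc n (dl m))`; `pz` of the word by `pz_inc`. -/
theorem Xh_dl_lt (h : IsSurf a b) {m : ℕ} (hm : m ≤ n) {k : Fin n} (hk : (k : ℕ) < m) :
    Xh h (dl m) (of (Sum.inl k)) = dl n * of (Sum.inl k) * (dl n)⁻¹ ∧
    Xh h (dl m) (of (Sum.inr k)) = dl n * of (Sum.inr k) * (dl n)⁻¹ := by
  have h0 := (Xdl h m hm).1 k.castSucc (by simpa using hk)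
  constructor
  · rw [Xh_val h (dl m) (of (Sum.inl k)) ((of none)⁻¹ * of (some (Sum.inl k)) * of none)
      (by rw [jR_a, h0.1, map_mul, map_mul, map_inv, jA_none, jA_a]),
      map_mul, map_mul, map_inv, pz_none, pz_some, inv_inv]
  · rw [Xh_val h (dl m) (of (Sum.inr k)) ((of none)⁻¹ * of (some (Sum.inr k)) * of none)
      (by rw [jR_b, h0.2, map_mul, map_mul, map_inv, jA_none, jA_b]),
      map_mul, map_mul, map_inv, pz_none, pz_some, inv_inv]

/-- The conjugating word. -/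
def Htc_u (n : ℕ) (y : Fr n) : Fp n := (of none)⁻¹ * (inc n y)⁻¹ * of none * inc n y

theorem Htc_jA_u (y : Fr n) : jA a b (Htc_u n y) =
    (a (Fin.last n))⁻¹ * (jR a b y)⁻¹ * a (Fin.last n) * jR a b y := by
  rw [Htc_u, map_mul, map_mul, map_mul, map_inv, map_inv, jA_none, jA_inc]

theorem Htc_pz_u (y : Fr n) : pz n (Htc_u n y) = dl n * y⁻¹ * (dl n)⁻¹ * y := by
  rw [Htc_u, map_mul, map_mul, map_mul, map_inv, map_inv, pz_none, pz_inc, inv_inv]

theorem Xh_dl_ge (h : IsSurf a b) {m : ℕ} (hm : m ≤ n) {k : Fin n} (hk : m ≤ (k : ℕ)) :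
    Xh h (dl m) (of (Sum.inl k)) = (dl n * (dl m)⁻¹ * (dl n)⁻¹ * dl m) * of (Sum.inl k) *
      (dl n * (dl m)⁻¹ * (dl n)⁻¹ * dl m)⁻¹ ∧
    Xh h (dl m) (of (Sum.inr k)) = (dl n * (dl m)⁻¹ * (dl n)⁻¹ * dl m) * of (Sum.inr k) *
      (dl n * (dl m)⁻¹ * (dl n)⁻¹ * dl m)⁻¹ := by
  have h0 := (Xdl h m hm).2.1 k.castSucc (by simpa using hk) (by simp)
  constructor
  · rw [Xh_val h (dl m) (of (Sum.inl k))
      (Htc_u n (dl m) * of (some (Sum.inl k)) * (Htc_u n (dl m))⁻¹)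
      (by rw [jR_a, h0.1, map_mul, map_mul, map_inv, Htc_jA_u, jA_a]; rfl),
      map_mul, map_mul, map_inv, Htc_pz_u, pz_some]
  · rw [Xh_val h (dl m) (of (Sum.inr k))
      (Htc_u n (dl m) * of (some (Sum.inr k)) * (Htc_u n (dl m))⁻¹)
      (by rw [jR_b, h0.2, map_mul, map_mul, map_inv, Htc_jA_u, jA_b]; rfl),
      map_mul, map_mul, map_inv, Htc_pz_u, pz_some]

/-- JOB Htc (2).  From `XK_a_lt, XK_b_lt, XK_ai, XK_bi, XK_a_mid, XK_b_mid` (file Rl) in the same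
way; `kG a b i = jR a b (kk i)` is `(jR_kk i).symm`. -/
theorem Xh_kk_lt (h : IsSurf a b) (i : Fin n) {k : Fin n} (hk : k < i) :
    Xh h (kk i) (of (Sum.inl k)) = of (Sum.inl k) ∧
    Xh h (kk i) (of (Sum.inr k)) = of (Sum.inr k) := by
  have hk' : k.castSucc < i.castSucc := hk
  constructor
  · rw [Xh_val h (kk i) (of (Sum.inl k)) (of (some (Sum.inl k)))
      (by rw [jR_a, XK_a_lt h i hk', jA_a]), pz_some]
  · rw [Xh_val h (kk i) (of (Sum.inr k)) (of (some (Sum.inr k)))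
      (by rw [jR_b, XK_b_lt h i hk', jA_b]), pz_some]

theorem Xh_kk_self (h : IsSurf a b) (i : Fin n) :
    Xh h (kk i) (of (Sum.inl i)) = dl n * of (Sum.inl i) * (dl n)⁻¹ ∧
    Xh h (kk i) (of (Sum.inr i)) = dl n * of (Sum.inr i) * (dl n)⁻¹ := by
  constructor
  · rw [Xh_val h (kk i) (of (Sum.inl i)) ((of none)⁻¹ * of (some (Sum.inl i)) * of none)
      (by rw [jR_a, XK_ai h i, map_mul, map_mul, map_inv, jA_none, jA_a]),
      map_mul, map_mul, map_inv, pz_none, pz_some, inv_inv]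
  · rw [Xh_val h (kk i) (of (Sum.inr i)) ((of none)⁻¹ * of (some (Sum.inr i)) * of none)
      (by rw [jR_b, XK_bi h i, map_mul, map_mul, map_inv, jA_none, jA_b]),
      map_mul, map_mul, map_inv, pz_none, pz_some, inv_inv]

theorem Xh_kk_gt (h : IsSurf a b) (i : Fin n) {k : Fin n} (hk : i < k) :
    Xh h (kk i) (of (Sum.inl k)) = (dl n * (kk i)⁻¹ * (dl n)⁻¹ * kk i) * of (Sum.inl k) *
      (dl n * (kk i)⁻¹ * (dl n)⁻¹ * kk i)⁻¹ ∧
    Xh h (kk i) (of (Sum.inr k)) = (dl n * (kk i)⁻¹ * (dl n)⁻¹ * kk i) * of (Sum.inr k) *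
      (dl n * (kk i)⁻¹ * (dl n)⁻¹ * kk i)⁻¹ := by
  have hk' : i.castSucc < k.castSucc := hk
  have hk2 : k.castSucc < Fin.last n := Fin.castSucc_lt_last k
  constructor
  · rw [Xh_val h (kk i) (of (Sum.inl k))
      (Htc_u n (kk i) * of (some (Sum.inl k)) * (Htc_u n (kk i))⁻¹)
      (by rw [jR_a, XK_a_mid h i hk' hk2, map_mul, map_mul, map_inv, Htc_jA_u, jA_a, jR_kk]),
      map_mul, map_mul, map_inv, Htc_pz_u, pz_some]
  · rw [Xh_val h (kk i) (of (Sum.inr k))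
      (Htc_u n (kk i) * of (some (Sum.inr k)) * (Htc_u n (kk i))⁻¹)
      (by rw [jR_b, XK_b_mid h i hk' hk2, map_mul, map_mul, map_inv, Htc_jA_u, jA_b, jR_kk]),
      map_mul, map_mul, map_inv, Htc_pz_u, pz_some]

/-- JOB Htc (3).  `MulEquiv.ext` and agreement on generators: `Xh_dl_lt` with `m = n`. -/
theorem Xh_dl_n (h : IsSurf a b) : Xh h (dl n) = MulAut.conj (dl n) := by
  apply MulEquiv.ext
  intro z
  have h1 : (Xh h (dl n)).toMonoidHom = (MulAut.conj (dl n : Fr n)).toMonoidHom := by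
    ext1 x
    rcases x with k | k
    · exact ((Xh_dl_lt h le_rfl k.2).1).trans (MulAut.conj_apply _ _).symm
    · exact ((Xh_dl_lt h le_rfl k.2).2).trans (MulAut.conj_apply _ _).symm
  exact DFunLike.congr_fun h1 z

end

end Pool.MP_59b15d_al.H73E
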