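import Mathlib
import Pool.Agent.H.MP_59b15d_al.h73e.Ba
import Pool.Agent.H.MP_59b15d_al.h73e.Htb

set_option autoImplicit false

namespace Pool.MP_59b15d_al.H73E

open Pool.MP_59b15d_al.H24T Pool.MP_59b15d_al.H76R
open Pool.MP_59b15d_al.H76 (InnMod congSub mem_congSub congSub_normal congSub_finiteIndex
  conj_innMod innMod_mono apply_mem_of_char exists_char_le comap_fi map_fi surf_fg inf_char
  finite_hom)
open FreeGroup (of)

section

variable {n : ℕ} {G : Type*} [Group G] {a b : Fin (n + 1) → G}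

/-- JOB Htd (1).  The push automorphisms map the boundary to conjugates.
PROOF.  Induction with `fr_induction` on `y`.
`y = 1`: `v = 1`.
Generators: by `(Xh_hat h y).fwd (of none)` there is `w'` with `XX h y (a_last) = jA a b w'`
(`jA_none`) and `pz n w' = Xh h y ((dl n)⁻¹)`.  By `Xa_al` (file Rd)
`XX h (of (inl j)) (a_last) = a_last⁻¹ a_j⁻¹ a_last a_j a_last = jA a b ((of none)⁻¹ *
(of (some (inl j)))⁻¹ * of none * of (some (inl j)) * of none)`, so by `jA_injective`
`(Xh h y (dl n))⁻¹ = c * a⁻¹ * c⁻¹ * a * c⁻¹` with `c = dl n`, `a = of (inl j)`, hence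
`Xh h y (dl n) = (c * a⁻¹) * c * (c * a⁻¹)⁻¹`.  By `Xb_al`: `Xh h (of (inr j)) (dl n) =
b⁻¹ * c * b`.
Products: `Xh (x * y) c = Xh x (v * c * v⁻¹) = (Xh x v * v') * c * (Xh x v * v')⁻¹`.
Inverse: from `Xh x c = v * c * v⁻¹` apply `(Xh x)⁻¹`: `Xh x⁻¹ c = v' * c * v'⁻¹` with
`v' = ((Xh h x)⁻¹ v)⁻¹` (`map_inv`). -/
theorem Xh_conj_dl (h : IsSurf a b) (y : Fr n) : ∃ v, Xh h y (dl n) = v * dl n * v⁻¹ := by
  induction y using fr_induction with
  | h1 => exact ⟨1, by simp⟩
  | ha k =>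
    obtain ⟨w', h1, h2⟩ := (Xh_hat h (of (Sum.inl k))).fwd (of none)
    have h3 : jA a b w' = jA a b ((of none)⁻¹ * (of (some (Sum.inl k)))⁻¹ * of none *
        of (some (Sum.inl k)) * of none) := by
      rw [← h1, jA_none, XX_a, Xa_al]
      simp only [map_mul, map_inv, jA_none, jA_a]
    have h4 := jA_injective h h3
    rw [h4, pz_none, map_inv] at h2
    simp only [map_mul, map_inv, pz_none, pz_some, inv_inv] at h2
    refine ⟨dl n * (of (Sum.inl k))⁻¹, ?_⟩
    rw [← inv_inj, ← h2]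
    group
  | hb k =>
    obtain ⟨w', h1, h2⟩ := (Xh_hat h (of (Sum.inr k))).fwd (of none)
    have h3 : jA a b w' = jA a b ((of (some (Sum.inr k)))⁻¹ * of none *
        of (some (Sum.inr k))) := by
      rw [← h1, jA_none, XX_b, Xb_al]
      simp only [map_mul, map_inv, jA_none, jA_b]
    have h4 := jA_injective h h3
    rw [h4, pz_none, map_inv] at h2
    simp only [map_mul, map_inv, pz_none, pz_some] at h2
    refine ⟨(of (Sum.inr k))⁻¹, ?_⟩
    rw [← inv_inj, ← h2]
    group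
  | hm x y hx hy =>
    obtain ⟨v, hv⟩ := hx
    obtain ⟨v', hv'⟩ := hy
    refine ⟨Xh h x v' * v, ?_⟩
    rw [map_mul, MulAut.mul_apply, hv', map_mul, map_mul, hv, map_inv]
    group
  | hi x hx =>
    obtain ⟨v, hv⟩ := hx
    refine ⟨((Xh h x)⁻¹ v)⁻¹, ?_⟩
    have h5 := congrArg (fun t => (Xh h x)⁻¹ t) hv
    simp only [map_mul, map_inv, MulAut.inv_apply_self] at h5
    rw [map_inv, inv_inv]
    nth_rewrite 2 [h5]
    group

/-- JOB Htd (2).  The push automorphisms are trivial on the closed surface group.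
PROOF.  Let `π := qH x y : Fr n →* P`.  By `(XX_sheet h π u).1 (inc n z)` (file Rp; `Zp`) there is
`w'` with `XX h u (jA a b (inc n z)) = jA a b w'` and `p1 π w' = p1 π (inc n z) = π z` (`p1_inc`).
By `(Xh_hat h u).fwd (inc n z)` and `jA_injective` `pz n w' = Xh h u z`.  Finally
`p1 π w' = π (pz n w')` for all words (two homs agreeing on generators, as `π (dl n)⁻¹ = 1` by
`qH_dl`). -/
theorem qH_Xh (h : IsSurf a b) {P : Type*} [Group P] {x y : Fin n → P} (hP : IsSurf x y)
    (u z : Fr n) : qH x y (Xh h u z) = qH x y z := by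
  obtain ⟨w', h1, h2⟩ := (XX_sheet h (qH x y) u).1 (inc n z)
  obtain ⟨w, h3, h4⟩ := (Xh_hat h u).fwd (inc n z)
  have h5 : w' = w := jA_injective h (h1.symm.trans h3)
  have h6 : p1 (qH x y) = (qH x y).comp (pz n) := by
    ext1 t
    change p1 (qH x y) (of t) = qH x y (pz n (of t))
    rcases t with _ | t
    · rw [p1_none, pz_none, map_inv, qH_dl hP, inv_one]
    · rw [p1_some, pz_some]
  rw [pz_inc] at h4
  rw [← h4, ← h5, ← p1_inc (qH x y) z, ← h2, h6]
  rfl

end

end Pool.MP_59b15d_al.H73E
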