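import Mathlib
import Pool.Agent.H.MP_59b15d_al.h73e.Ba

set_option autoImplicit false

namespace Pool.MP_59b15d_al.H73E

open Pool.MP_59b15d_al.H24T Pool.MP_59b15d_al.H76R
open Pool.MP_59b15d_al.H76 (InnMod congSub mem_congSub congSub_normal congSub_finiteIndex
  conj_innMod innMod_mono apply_mem_of_char exists_char_le comap_fi map_fi surf_fg inf_char
  finite_hom)
open FreeGroup (of)

section

variable {N : ℕ} {X : Type}

/-- The shift. -/
def gam (N : ℕ) (X : Type) : Equiv.Perm (ZMod N × X) where
  toFun p := (p.1 + 1, p.2)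
  invFun p := (p.1 - 1, p.2)
  left_inv := by rintro ⟨i, x⟩; simp
  right_inv := by rintro ⟨i, x⟩; simp

/-- Block diagonal permutations. -/
def dg (N : ℕ) (X : Type) : (ZMod N → Equiv.Perm X) →* Equiv.Perm (ZMod N × X) where
  toFun k :=
    { toFun := fun p => (p.1, k p.1 p.2)
      invFun := fun p => (p.1, (k p.1)⁻¹ p.2)
      left_inv := by rintro ⟨i, x⟩; simp
      right_inv := by rintro ⟨i, x⟩; simp }
  map_one' := by ext p <;> rfl
  map_mul' k l := by ext p <;> rfl

theorem gam_apply (p : ZMod N × X) : gam N X p = (p.1 + 1, p.2) := rfl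

theorem dg_apply (k : ZMod N → Equiv.Perm X) (p : ZMod N × X) : dg N X k p = (p.1, k p.1 p.2) := rfl

/-- JOB Fe1 (1).  Pointwise. -/
theorem dg_injective : Function.Injective (dg N X) := by
  intro k l hkl
  funext i
  ext x
  have h1 : dg N X k (i, x) = dg N X l (i, x) := by rw [hkl]
  rw [dg_apply, dg_apply] at h1
  exact congrArg Prod.snd h1

theorem Fe1_gam_pow (r : ℕ) (p : ZMod N × X) : (gam N X ^ r) p = (p.1 + (r : ZMod N), p.2) := by
  induction r generalizing p with
  | zero => simp
  | succ r ih =>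
    rw [pow_succ, Equiv.Perm.mul_apply, ih, gam_apply]
    push_cast
    congr 1
    ring

theorem Fe1_gam_zpow (r : ℤ) (p : ZMod N × X) : (gam N X ^ r) p = (p.1 + (r : ZMod N), p.2) := by
  cases r with
  | ofNat r => simpa using Fe1_gam_pow r p
  | negSucc r =>
    rw [zpow_negSucc, Equiv.Perm.inv_eq_iff_eq, Fe1_gam_pow, Int.cast_negSucc]
    obtain ⟨i, x⟩ := p
    simp only [Prod.mk.injEq, and_true]
    push_cast
    ring

/-- JOB Fe1 (2).  PROOF.  `r = 1`: `γ (dg k (γ⁻¹ (i, x))) = (i, k (i - 1) x)`; then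
`Int.induction_on r` (or `Nat` and inverses). -/
theorem gam_conj (k : ZMod N → Equiv.Perm X) (r : ℤ) :
    gam N X ^ r * dg N X k * (gam N X ^ r)⁻¹ = dg N X (fun i => k (i - (r : ZMod N))) := by
  rw [mul_inv_eq_iff_eq_mul]
  ext1 p
  rw [Equiv.Perm.mul_apply, Equiv.Perm.mul_apply, Fe1_gam_zpow, dg_apply, dg_apply, Fe1_gam_zpow]
  simp

/-- JOB Fe1 (3).  The structure of the values of a word at `(δ₀ p, γ)`.
PROOF.  Induction on `w` (`FreeGroup.induction_on`), with the witnesses
* `1`: `e = 0`, `k = 0`;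
* `of 0`: `e = Pi.single 0 1`, `k = 0` (`fun i => p ^ (Pi.single 0 1 i) = Pi.mulSingle 0 p`);
  `of 1`: `e = 0`, `k = 1` (`ev_zero`, `ev_one`);
* inverse of `(e, k)`: `fun i => - e (i + k)`, `-k`:
  `(dg (p ^ e) γ ^ k)⁻¹ = γ ^ (-k) dg (p ^ (-e)) = dg (i ↦ p ^ (-e (i + k))) γ ^ (-k)` (`gam_conj`);
* product of `(e, k)`, `(e', k')`: `fun i => e i + e' (i - k)`, `k + k'`:
  `dg (p ^ e) γ ^ k dg (p ^ e') γ ^ k' = dg (p ^ e) dg (i ↦ p ^ e' (i - k)) γ ^ (k + k')`.
In the second claim `∑ i, e (i - k) = ∑ i, e i` (`Equiv.sum_comp (Equiv.subRight _)`), and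
`ev x 1 w * ev x 1 w' = x ^ ..`. -/
theorem word_dg [NeZero N] (w : FreeGroup (Fin 2)) : ∃ (e : ZMod N → ℤ) (k : ℤ),
    (∀ p : Equiv.Perm X, ev (dg N X (Pi.mulSingle 0 p)) (gam N X) w =
      dg N X (fun i => p ^ e i) * gam N X ^ k) ∧
    (∀ x : Equiv.Perm (ZMod N × X), ev x 1 w = x ^ (∑ i, e i)) ∧
    (∀ g : Equiv.Perm (ZMod N × X), ev 1 g w = g ^ k) := by
  induction w using FreeGroup.induction_on with
  | C1 =>
    refine ⟨0, 0, ?_, ?_, ?_⟩
    · intro p
      have h1 : (fun i : ZMod N => p ^ ((0 : ZMod N → ℤ) i)) = 1 := by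
        funext i
        simp
      rw [h1]
      simp
    · intro x
      simp
    · intro g
      simp
  | of x =>
    fin_cases x
    · refine ⟨Pi.single 0 1, 0, ?_, ?_, ?_⟩
      · intro p
        have h1 : (fun i : ZMod N => p ^ ((Pi.single 0 1 : ZMod N → ℤ) i)) = Pi.mulSingle 0 p := by
          funext i
          by_cases hi : i = 0
          · subst hi
            simp
          · simp [Pi.single_eq_of_ne hi, Pi.mulSingle_eq_of_ne hi]
        rw [h1, zpow_zero, mul_one]
        exact ev_zero _ _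
      · intro x
        rw [Finset.sum_pi_single' (0 : ZMod N) (1 : ℤ) Finset.univ]
        simp only [Finset.mem_univ, if_true, zpow_one]
        exact ev_zero _ _
      · intro g
        rw [zpow_zero]
        exact ev_zero _ _
    · refine ⟨0, 1, ?_, ?_, ?_⟩
      · intro p
        have h1 : (fun i : ZMod N => p ^ ((0 : ZMod N → ℤ) i)) = 1 := by
          funext i
          simp
        rw [h1, map_one, one_mul, zpow_one]
        exact ev_one _ _
      · intro x
        simp only [Pi.zero_apply, Finset.sum_const_zero, zpow_zero]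
        exact ev_one _ _
      · intro g
        rw [zpow_one]
        exact ev_one _ _
  | inv_of x ih =>
    obtain ⟨e, k, h1, h2, h3⟩ := ih
    refine ⟨fun i => - e (i + (k : ZMod N)), -k, ?_, ?_, ?_⟩
    · intro p
      have h4 := gam_conj (N := N) (X := X) (fun i => p ^ (- e i)) (-k)
      have h5 : (fun i : ZMod N => (fun i => p ^ (- e i)) (i - ((-k : ℤ) : ZMod N))) =
          fun i => p ^ (- e (i + (k : ZMod N))) := by
        funext i
        push_cast
        rw [sub_neg_eq_add]
      rw [h5] at h4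
      change _ = dg N X (fun i => p ^ (- e (i + (k : ZMod N)))) * gam N X ^ (-k)
      have h6 : (dg N X (fun i => p ^ e i))⁻¹ = dg N X (fun i => p ^ (- e i)) := by
        rw [← map_inv]
        congr 1
        funext i
        rw [Pi.inv_apply, zpow_neg]
      rw [map_inv, h1, mul_inv_rev, h6, ← h4, inv_mul_cancel_right, zpow_neg]
    · intro x
      have h4 : ∑ i, - e (i + (k : ZMod N)) = - ∑ i, e i := by
        rw [Finset.sum_neg_distrib]
        congr 1
        exact Equiv.sum_comp (Equiv.addRight (k : ZMod N)) e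
      rw [map_inv, h2, h4, zpow_neg]
    · intro g
      rw [map_inv, h3, zpow_neg]
  | mul w w' ih ih' =>
    obtain ⟨e, k, h1, h2, h3⟩ := ih
    obtain ⟨e', k', h1', h2', h3'⟩ := ih'
    refine ⟨fun i => e i + e' (i - (k : ZMod N)), k + k', ?_, ?_, ?_⟩
    · intro p
      have h4 := gam_conj (N := N) (X := X) (fun i => p ^ (e' i)) k
      have h5 : dg N X (fun i => p ^ (e i + e' (i - (k : ZMod N)))) =
          dg N X (fun i => p ^ e i) * dg N X (fun i => p ^ e' (i - (k : ZMod N))) := by
        rw [← map_mul]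
        congr 1
        funext i
        rw [Pi.mul_apply, zpow_add]
      change _ = dg N X (fun i => p ^ (e i + e' (i - (k : ZMod N)))) * gam N X ^ (k + k')
      rw [map_mul, h1, h1', h5, zpow_add]
      rw [← h4]
      group
    · intro x
      have h4 : ∑ i, (e i + e' (i - (k : ZMod N))) = ∑ i, e i + ∑ i, e' i := by
        rw [Finset.sum_add_distrib]
        congr 1
        exact Equiv.sum_comp (Equiv.subRight (k : ZMod N)) e'
      rw [map_mul, h2, h2', h4, zpow_add]
    · intro g
      rw [map_mul, h3, h3', zpow_add]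

/-- Left multiplications, fixing `none`. -/
def lt (E : Type) [Group E] : E →* Equiv.Perm (Option E) where
  toFun x := Equiv.optionCongr (Equiv.mulLeft x)
  map_one' := by ext o; cases o <;> simp
  map_mul' x y := by ext o; cases o <;> simp [mul_assoc]

theorem lt_some {E : Type} [Group E] (x e : E) : lt E x (some e) = some (x * e) := rfl
theorem lt_none {E : Type} [Group E] (x : E) : lt E x none = none := rfl

theorem lt_injective (E : Type) [Group E] : Function.Injective (lt E) := by
  intro x y hxy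
  have h1 : lt E x (some 1) = lt E y (some 1) := by rw [hxy]
  rw [lt_some, lt_some] at h1
  simpa using h1

end

end Pool.MP_59b15d_al.H73E
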