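import Mathlib
import Pool.Agent.H.MP_59b15d_al.h73e.Fe1

set_option autoImplicit false

namespace Pool.MP_59b15d_al.H73E

open Pool.MP_59b15d_al.H24T Pool.MP_59b15d_al.H76R
open Pool.MP_59b15d_al.H76 (InnMod congSub mem_congSub congSub_normal congSub_finiteIndex
  conj_innMod innMod_mono apply_mem_of_char exists_char_le comap_fi map_fi surf_fg inf_char
  finite_hom)
open FreeGroup (of)

section

/-- JOB Fe2.  PROOF (classical).  KEY: let `i ≠ j` and `x y : E` with `x ^ e i ≠ 1`; then
`y ^ e j = 1`.  Suppose `h := y ^ e j ≠ 1` and `t := x ^ e i ≠ 1`.  Let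
`τ := Equiv.swap none (some 1) : Equiv.Perm (Option E)`, `p := lt E x`, `q := τ * lt E y * τ⁻¹`
(`τ⁻¹ = τ`).  `p ^ e i = lt E t`, `q ^ e j = τ * lt E h * τ⁻¹` (`map_zpow`, `conj_zpow`).  They
commute by `hc`.  Apply both products to `none`:
`lt t (τ (lt h (τ none))) = lt t (τ (some h)) = lt t (some h) = some (t * h)` (`h ≠ 1` and
`some h ≠ none`: `Equiv.swap_apply_of_ne_of_ne`), and
`τ (lt h (τ (lt t none))) = τ (lt h (some 1)) = some h`; so `t * h = h`, `t = 1`, contradiction.
THEN: if some `a` and `x` have `x ^ e a ≠ 1`, then for `i ≠ a` all `y ^ e i = 1` (KEY), and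
`y = y ^ (∑ i, e i) = y ^ e a` (`Finset.prod`/`zpow` of a sum in the commutative subgroup, or
`∑ i, e i = e a + ∑ i ∈ univ.erase a, e i` and induction over the finset: `y ^ (∑ i ∈ s, e i) = 1`
if all `y ^ e i = 1`).  Otherwise all `x ^ e i = 1`, so `x = x ^ ∑ = 1` for all `x : E`; `a := 0`. -/
theorem unique_index (E : Type) [Group E] (N : ℕ) [NeZero N] (e : ZMod N → ℤ)
    (hc : ∀ i j : ZMod N, i ≠ j → ∀ p q : Equiv.Perm (Option E), Commute (p ^ e i) (q ^ e j))
    (hs : ∀ x : E, x ^ (∑ i, e i) = x) :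
    ∃ a : ZMod N, (∀ x : E, x ^ e a = x) ∧ ∀ i, i ≠ a → ∀ x : E, x ^ e i = 1 := by
  classical
  have key : ∀ i j : ZMod N, i ≠ j → ∀ x y : E, x ^ e i ≠ 1 → y ^ e j = 1 := by
    intro i j hij x y hx
    by_contra hy
    obtain ⟨t, ht⟩ : ∃ t, t = x ^ e i := ⟨_, rfl⟩
    obtain ⟨h, hh⟩ : ∃ h, h = y ^ e j := ⟨_, rfl⟩
    rw [← ht] at hx
    rw [← hh] at hy
    have h1 := hc i j hij (lt E x)
      (Equiv.swap none (some 1) * lt E y * (Equiv.swap none (some 1))⁻¹)
    rw [← map_zpow, conj_zpow, ← map_zpow, ← ht, ← hh] at h1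
    have h2 := congrArg (fun f : Equiv.Perm (Option E) => f none) h1.eq
    simp only [Equiv.Perm.mul_apply] at h2
    have h3 : (Equiv.swap none (some 1) : Equiv.Perm (Option E))⁻¹ none = some 1 := by
      rw [Equiv.swap_inv, Equiv.swap_apply_left]
    have h4 : (Equiv.swap none (some 1) : Equiv.Perm (Option E)) (some h) = some h := by
      apply Equiv.swap_apply_of_ne_of_ne
      · exact Option.some_ne_none h
      · intro h5
        exact hy (Option.some.inj h5)
    rw [h3, lt_some, mul_one, h4, lt_some, lt_none, h3, lt_some, mul_one, h4] at h2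
    have h5 : t * h = h := Option.some.inj h2
    exact hx (mul_eq_right.1 h5)
  by_cases hex : ∃ a : ZMod N, ∃ x : E, x ^ e a ≠ 1
  · obtain ⟨a, x, hx⟩ := hex
    have h1 : ∀ i, i ≠ a → ∀ y : E, y ^ e i = 1 := fun i hi y => key a i (Ne.symm hi) x y hx
    refine ⟨a, fun y => ?_, h1⟩
    have h2 : ∀ s : Finset (ZMod N), a ∉ s → y ^ (∑ i ∈ s, e i) = 1 := by
      intro s
      induction s using Finset.induction_on with
      | empty => intro _; rw [Finset.sum_empty, zpow_zero]
      | insert b s hb ih =>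
        intro has
        rw [Finset.mem_insert, not_or] at has
        rw [Finset.sum_insert hb, zpow_add, h1 b (Ne.symm has.1), ih has.2, one_mul]
    have h3 := hs y
    rw [← Finset.add_sum_erase Finset.univ e (Finset.mem_univ a), zpow_add,
      h2 _ (Finset.notMem_erase a _), mul_one] at h3
    exact h3
  · push Not at hex
    refine ⟨0, fun x => ?_, fun i _ x => hex i x⟩
    have h1 : ∀ s : Finset (ZMod N), x ^ (∑ i ∈ s, e i) = 1 := by
      intro s
      induction s using Finset.induction_on with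
      | empty => rw [Finset.sum_empty, zpow_zero]
      | insert b s hb ih => rw [Finset.sum_insert hb, zpow_add, hex b, ih, one_mul]
    have h2 := hs x
    rw [h1] at h2
    rw [hex, h2]

end

end Pool.MP_59b15d_al.H73E
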