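import Mathlib
import Pool.Agent.H.MP_59b15d_al.h73e.Fe2

set_option autoImplicit false

namespace Pool.MP_59b15d_al.H73E

open Pool.MP_59b15d_al.H24T Pool.MP_59b15d_al.H76R
open Pool.MP_59b15d_al.H76 (InnMod congSub mem_congSub congSub_normal congSub_finiteIndex
  conj_innMod innMod_mono apply_mem_of_char exists_char_le comap_fi map_fi surf_fg inf_char
  finite_hom)
open FreeGroup (of)

section

/-- JOB Fe3.  PROOF.  Write `γ := gam N (Option E)`, `v x := ev x γ w₁`.
* `h3` with `x = 1` and `h11`: `ev y g w₂ = ev y g w₃`; with `y = 1` and `h12`: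
  `ev x g w₁ = ev x g w₃`; so `v x * v y = v (x * y)`.
* `word_dg w₁` gives `e`, `k`; `γ ^ k = ev 1 γ w₁ = 1`, so `v (dg (Pi.mulSingle 0 p)) =
  dg (fun i => p ^ e i)`.
* For `r : ℤ`: `v (γ ^ r * x * (γ ^ r)⁻¹) = γ ^ r * v x * (γ ^ r)⁻¹` (`ev_map` for
  `(MulAut.conj (γ ^ r)).toMonoidHom`, which fixes `γ`).  With `j : ZMod N`, `r := (j.val : ℤ)`,
  `gam_conj`: `dg (Pi.mulSingle j p) = γ ^ r * dg (Pi.mulSingle 0 p) * (γ ^ r)⁻¹`, so
  `v (dg (Pi.mulSingle j p)) = dg (fun i => p ^ e (i - j))`.
* For `j ≠ 0` the elements `dg (mulSingle 0 p)`, `dg (mulSingle j q)` commute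
  (`Pi.mulSingle_commute`), hence so do their images under `v`, and by `dg_injective` (or pointwise)
  `Commute (p ^ e i) (q ^ e (i - j))` for all `i`.  This is hypothesis `hc` of `unique_index`
  (for `i ≠ i'` take `j := i - i'`).
* `hs`: `h1` for `x = dg (fun _ => lt E y)`: `x ^ (∑ e i) = x`; `lt`, `dg` injective.
* So `unique_index` gives `a₀`.  For `x : E`: `v (dg (Pi.mulSingle j (lt E x))) =
  dg (fun i => lt E (x ^ e (i - j))) = dg (Pi.mulSingle (j + a₀) (lt E x)) =
  dg (fun i => (Pi.mulSingle j (lt E x) : _) (i - a₀))`.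
* The two homomorphisms `(ZMod N → E) →* Equiv.Perm (ZMod N × Option E)`,
  `X ↦ v (dg (lt ∘ X))` and `X ↦ dg (fun i => lt (X (i - a₀)))` agree on all `Pi.mulSingle j x`, so
  they are equal (`Subgroup.pi_mem_of_mulSingle_mem` for the `MonoidHom.eqLocus`).
* `gam_conj` with `r = a₀.val`, `a := (a₀.val : ℤ)` finishes. -/
theorem v_dg (E : Type) [Group E] (N : ℕ) [NeZero N]
    (w₁ w₂ w₃ : FreeGroup (Fin 2))
    (h3 : ∀ x y g : Equiv.Perm (ZMod N × Option E), ev x g w₁ * ev y g w₂ = ev (x * y) g w₃)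
    (h1 : ∀ x : Equiv.Perm (ZMod N × Option E), ev x 1 w₁ = x)
    (h11 : ∀ g : Equiv.Perm (ZMod N × Option E), ev 1 g w₁ = 1)
    (h12 : ∀ g : Equiv.Perm (ZMod N × Option E), ev 1 g w₂ = 1) :
    ∃ a : ℤ, ∀ X : ZMod N → E,
      ev (dg N (Option E) (fun i => lt E (X i))) (gam N (Option E)) w₁ =
        gam N (Option E) ^ a * dg N (Option E) (fun i => lt E (X i)) *
          (gam N (Option E) ^ a)⁻¹ := by
  classical
  obtain ⟨e, k, hw1, hw2, hw3⟩ := word_dg (X := Option E) (N := N) w₁
  have hk : gam N (Option E) ^ k = 1 := by rw [← hw3, h11]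
  have ha : ∀ y g : Equiv.Perm (ZMod N × Option E), ev y g w₂ = ev y g w₃ := fun y g => by
    have h := h3 1 y g
    rw [h11, one_mul, one_mul] at h
    exact h
  have hb : ∀ x g : Equiv.Perm (ZMod N × Option E), ev x g w₁ = ev x g w₃ := fun x g => by
    have h := h3 x 1 g
    rw [h12, mul_one, mul_one] at h
    exact h
  have hmul : ∀ x y g : Equiv.Perm (ZMod N × Option E),
      ev (x * y) g w₁ = ev x g w₁ * ev y g w₁ := by
    intro x y g
    rw [hb (x * y), hb y, ← ha y, h3]
  let v : Equiv.Perm (ZMod N × Option E) →* Equiv.Perm (ZMod N × Option E) :=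
    { toFun := fun x => ev x (gam N (Option E)) w₁
      map_one' := h11 _
      map_mul' := fun x y => hmul x y _ }
  have hv : ∀ x, v x = ev x (gam N (Option E)) w₁ := fun x => rfl
  have hv0 : ∀ p : Equiv.Perm (Option E), v (dg N (Option E) (Pi.mulSingle 0 p)) =
      dg N (Option E) (fun i => p ^ e i) := by
    intro p
    rw [hv, hw1, hk, mul_one]
  have hconj : ∀ (r : ℤ) (x : Equiv.Perm (ZMod N × Option E)),
      v (gam N (Option E) ^ r * x * (gam N (Option E) ^ r)⁻¹) =
        gam N (Option E) ^ r * v x * (gam N (Option E) ^ r)⁻¹ := by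
    intro r x
    have h := ev_map (MulAut.conj (gam N (Option E) ^ r)).toMonoidHom x (gam N (Option E)) w₁
    have h2 : (MulAut.conj (gam N (Option E) ^ r)).toMonoidHom (gam N (Option E)) =
        gam N (Option E) := by
      change gam N (Option E) ^ r * gam N (Option E) * (gam N (Option E) ^ r)⁻¹ = _
      group
    rw [h2] at h
    exact h.symm
  have hcast : ∀ j : ZMod N, (((j.val : ℤ)) : ZMod N) = j := by
    intro j
    rw [Int.cast_natCast, ZMod.natCast_zmod_val]
  have hsingle : ∀ (j : ZMod N) (p : Equiv.Perm (Option E)),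
      dg N (Option E) (Pi.mulSingle j p) = gam N (Option E) ^ (j.val : ℤ) *
        dg N (Option E) (Pi.mulSingle 0 p) * (gam N (Option E) ^ (j.val : ℤ))⁻¹ := by
    intro j p
    rw [gam_conj]
    congr 1
    funext i
    rw [hcast]
    by_cases hij : i = j
    · subst hij
      rw [Pi.mulSingle_eq_same, sub_self, Pi.mulSingle_eq_same]
    · rw [Pi.mulSingle_eq_of_ne hij, Pi.mulSingle_eq_of_ne (sub_ne_zero.mpr hij)]
  have hvj : ∀ (j : ZMod N) (p : Equiv.Perm (Option E)),
      v (dg N (Option E) (Pi.mulSingle j p)) = dg N (Option E) (fun i => p ^ e (i - j)) := by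
    intro j p
    rw [hsingle, hconj, hv0, gam_conj, hcast]
  have hc : ∀ i j : ZMod N, i ≠ j → ∀ p q : Equiv.Perm (Option E),
      Commute (p ^ e i) (q ^ e j) := by
    intro i j hij p q
    have h : Commute (Pi.mulSingle (0 : ZMod N) p : ZMod N → Equiv.Perm (Option E))
        (Pi.mulSingle (i - j) q) :=
      Pi.mulSingle_commute (f := fun _ : ZMod N => Equiv.Perm (Option E))
        (sub_ne_zero.mpr hij).symm p q
    have h2 := (h.map (dg N (Option E))).map v
    rw [hvj, hvj] at h2
    have h3 : dg N (Option E) ((fun i => p ^ e (i - 0)) * (fun l => q ^ e (l - (i - j)))) =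
        dg N (Option E) ((fun l => q ^ e (l - (i - j))) * (fun i => p ^ e (i - 0))) := by
      rw [map_mul, map_mul]
      exact h2
    have h4 := congrFun (dg_injective h3) i
    rw [Pi.mul_apply, Pi.mul_apply] at h4
    simp only [sub_zero, sub_sub_cancel] at h4
    exact h4
  have hs : ∀ x : E, x ^ (∑ i, e i) = x := by
    intro y
    have h := hw2 (dg N (Option E) (fun _ => lt E y))
    rw [h1, ← map_zpow] at h
    have h4 := congrFun (dg_injective h) 0
    rw [Pi.pow_apply, ← map_zpow] at h4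
    exact (lt_injective E h4).symm
  obtain ⟨a₀, ha1, ha2⟩ := unique_index E N e hc hs
  have hagree : ∀ (j : ZMod N) (x : E),
      v (dg N (Option E) (fun i => lt E ((Pi.mulSingle j x : ZMod N → E) i))) =
        dg N (Option E) (fun i => lt E ((Pi.mulSingle j x : ZMod N → E) (i - a₀))) := by
    intro j x
    have h : (fun i => lt E ((Pi.mulSingle j x : ZMod N → E) i)) = Pi.mulSingle j (lt E x) := by
      funext i
      by_cases hij : i = j
      · subst hij
        rw [Pi.mulSingle_eq_same, Pi.mulSingle_eq_same]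
      · rw [Pi.mulSingle_eq_of_ne hij, Pi.mulSingle_eq_of_ne hij, map_one]
    rw [h, hvj]
    congr 1
    funext i
    rw [← map_zpow]
    congr 1
    by_cases hij : i - j = a₀
    · have h5 : i - a₀ = j := by rw [← hij]; abel
      rw [h5, Pi.mulSingle_eq_same, hij, ha1]
    · have h5 : i - a₀ ≠ j := by
        intro h6
        apply hij
        rw [← h6]; abel
      rw [Pi.mulSingle_eq_of_ne h5, ha2 _ hij]
  let L : (ZMod N → E) →* (ZMod N → Equiv.Perm (Option E)) :=
    { toFun := fun X i => lt E (X i)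
      map_one' := by funext i; exact map_one _
      map_mul' := fun X Y => by funext i; exact map_mul _ _ _ }
  let S : (ZMod N → E) →* (ZMod N → Equiv.Perm (Option E)) :=
    { toFun := fun X i => lt E (X (i - a₀))
      map_one' := by funext i; exact map_one _
      map_mul' := fun X Y => by funext i; exact map_mul _ _ _ }
  refine ⟨(a₀.val : ℤ), fun X => ?_⟩
  rw [gam_conj, hcast]
  have hmem : X ∈ MonoidHom.eqLocus ((v.comp (dg N (Option E))).comp L)
      ((dg N (Option E)).comp S) := by
    apply Subgroup.pi_mem_of_mulSingle_mem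
    intro j
    exact hagree j (X j)
  exact hmem

end

end Pool.MP_59b15d_al.H73E
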