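import Mathlib
import Pool.Agent.H.MP_59b15d_al.h73e.Fe3

set_option autoImplicit false

namespace Pool.MP_59b15d_al.H73E

open Pool.MP_59b15d_al.H24T Pool.MP_59b15d_al.H76R
open Pool.MP_59b15d_al.H76 (InnMod congSub mem_congSub congSub_normal congSub_finiteIndex
  conj_innMod innMod_mono apply_mem_of_char exists_char_le comap_fi map_fi surf_fg inf_char
  finite_hom)
open FreeGroup (of)

section

/-- Intertwining maps and words. -/
theorem fe4_word {X Y : Type*} (Θ : X → Y) (A G : Equiv.Perm X) (A' G' : Equiv.Perm Y)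
    (hA : ∀ p, Θ (A p) = A' (Θ p)) (hG : ∀ p, Θ (G p) = G' (Θ p)) (w : FreeGroup (Fin 2)) :
    ∀ p, Θ (ev A G w p) = ev A' G' w (Θ p) := by
  induction w using FreeGroup.induction_on with
  | C1 => intro p; rw [map_one, map_one]; rfl
  | of i =>
    intro p
    fin_cases i
    · change Θ (ev A G (of 0) p) = ev A' G' (of 0) (Θ p)
      rw [ev_zero, ev_zero, hA]
    · change Θ (ev A G (of 1) p) = ev A' G' (of 1) (Θ p)
      rw [ev_one, ev_one, hG]
  | inv_of i ih =>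
    intro p
    rw [map_inv, map_inv]
    have h1 := ih ((ev A G (of i))⁻¹ p)
    change Θ (ev A G (of i) ((ev A G (of i))⁻¹ p)) =
      ev A' G' (of i) (Θ ((ev A G (of i))⁻¹ p)) at h1
    have h2 : ev A G (of i) ((ev A G (of i))⁻¹ p) = p := Equiv.apply_symm_apply _ _
    rw [h2] at h1
    exact (Equiv.Perm.inv_eq_iff_eq.mpr h1).symm
  | mul x y hx hy =>
    intro p
    rw [map_mul, map_mul, Equiv.Perm.mul_apply, Equiv.Perm.mul_apply, hx, hy]

/-- The exponent of the shift. -/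
theorem fe4_pow {E : Type} [Group E] {N : ℕ} [NeZero N] (hE : ∀ x : E, x ^ N = 1) (c : E)
    (i : ZMod N) : c ^ (i + 1).val = c * c ^ i.val := by
  have h1 : ∀ k : ℕ, c ^ (k % N) = c ^ k := by
    intro k
    conv_rhs => rw [← Nat.mod_add_div k N]
    rw [pow_add, pow_mul, hE, one_pow, mul_one]
  rw [ZMod.val_add, ZMod.val_one_eq_one_mod, Nat.add_mod_mod, h1, pow_succ']

/-- JOB Fe4.  The functional equation forces conjugation by a power of the second letter.
PROOF.  `a` from `v_dg`.  Let `s c : E`.  `Θ : ZMod N × Option E → Option E`,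
`Θ (i, o) := lt E (c ^ i.val) o`.
* `Θ (gam p) = lt E c (Θ p)`: `c ^ (i + 1).val = c * c ^ i.val` since `c ^ N = 1`
  (`ZMod.val_add_one`-like case distinction, or `c ^ (i+1).val`: `(i + 1).val ≡ i.val + 1 mod N`,
  `ZMod.val_add`, `ZMod.val_one`, `pow_mod_orderOf`/`pow_eq_pow_iff_modEq`; note `N = 1` is allowed).
* `X i := (c ^ i.val)⁻¹ * s * c ^ i.val`: `Θ (dg (fun i => lt (X i)) p) = lt E s (Θ p)`.
* For every word `w`: `Θ (ev (dg (lt ∘ X)) gam w p) = lt E (ev s c w) (Θ p)` for all `p`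
  (induction on `w` with `FreeGroup.induction_on`, statement for all `p`; inverses: if
  `Θ ∘ A = B ∘ Θ` for permutations `A`, `B`, then `Θ ∘ A⁻¹ = B⁻¹ ∘ Θ`; `ev_map` for `lt E` may be
  used to write `lt E (ev s c w) = ev (lt s) (lt c) w`).
* By `v_dg` `ev (dg ..) gam w₁ = ev (dg ..) gam (of 1 ^ a * of 0 * (of 1 ^ a)⁻¹)`.  Evaluate at
  `p = (0, some 1)`, `Θ p = some 1`: `some (ev s c w₁) = some (c ^ a * s * (c ^ a)⁻¹)`. -/
theorem FE (E : Type) [Group E] (N : ℕ) [NeZero N] (hE : ∀ x : E, x ^ N = 1)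
    (w₁ w₂ w₃ : FreeGroup (Fin 2))
    (h3 : ∀ x y g : Equiv.Perm (ZMod N × Option E), ev x g w₁ * ev y g w₂ = ev (x * y) g w₃)
    (h1 : ∀ x : Equiv.Perm (ZMod N × Option E), ev x 1 w₁ = x)
    (h11 : ∀ g : Equiv.Perm (ZMod N × Option E), ev 1 g w₁ = 1)
    (h12 : ∀ g : Equiv.Perm (ZMod N × Option E), ev 1 g w₂ = 1) :
    ∃ a : ℤ, ∀ s c : E, ev s c w₁ = c ^ a * s * (c ^ a)⁻¹ := by
  obtain ⟨a, ha⟩ := v_dg E N w₁ w₂ w₃ h3 h1 h11 h12
  refine ⟨a, fun s c => ?_⟩
  let Θ : ZMod N × Option E → Option E := fun p => lt E (c ^ p.1.val) p.2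
  let X : ZMod N → E := fun i => (c ^ i.val)⁻¹ * s * c ^ i.val
  let D : Equiv.Perm (ZMod N × Option E) := dg N (Option E) (fun i => lt E (X i))
  let γ : Equiv.Perm (ZMod N × Option E) := gam N (Option E)
  have hγ : ∀ p, Θ (γ p) = lt E c (Θ p) := by
    rintro ⟨i, o⟩
    change lt E (c ^ (i + 1).val) o = lt E c (lt E (c ^ i.val) o)
    rw [fe4_pow hE, map_mul, Equiv.Perm.mul_apply]
  have hD : ∀ p, Θ (D p) = lt E s (Θ p) := by
    rintro ⟨i, o⟩
    change lt E (c ^ i.val) (lt E ((c ^ i.val)⁻¹ * s * c ^ i.val) o) =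
      lt E s (lt E (c ^ i.val) o)
    rw [← Equiv.Perm.mul_apply, ← Equiv.Perm.mul_apply, ← map_mul, ← map_mul]
    congr 2
    group
  have hw := fe4_word Θ D γ (lt E s) (lt E c) hD hγ
  have hv : ev D γ w₁ = ev D γ (of 1 ^ a * of 0 * (of 1 ^ a)⁻¹) := by
    rw [map_mul, map_mul, map_inv, map_zpow, ev_zero, ev_one]
    exact ha X
  have h5 := hw w₁ (0, some 1)
  have h7 : ev s c (of 1 ^ a * of 0 * (of 1 ^ a)⁻¹) = c ^ a * s * (c ^ a)⁻¹ := by
    rw [map_mul, map_mul, map_inv, map_zpow, ev_zero, ev_one]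
  rw [hv, hw, ← ev_map, ← ev_map, h7] at h5
  have h6 : Θ (0, some 1) = some 1 := by
    change lt E (c ^ (0 : ZMod N).val) (some 1) = some 1
    rw [ZMod.val_zero, pow_zero, map_one]
    rfl
  rw [h6, lt_some, lt_some, mul_one, mul_one] at h5
  exact (Option.some.inj h5).symm

end

end Pool.MP_59b15d_al.H73E
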