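import Mathlib
import Pool.Agent.H.MP_59b15d_al.h73e.Ba
import Pool.Agent.H.MP_59b15d_al.h76r.Rt

set_option autoImplicit false

namespace Pool.MP_59b15d_al.H73E

open Pool.MP_59b15d_al.H24T Pool.MP_59b15d_al.H76R
open Pool.MP_59b15d_al.H76 (InnMod congSub mem_congSub congSub_normal congSub_finiteIndex
  conj_innMod innMod_mono apply_mem_of_char exists_char_le comap_fi map_fi surf_fg inf_char
  finite_hom)
open FreeGroup (of)

section

variable {n : ℕ}

/-- JOB Pf.  PROOF.  Write `τ.toMonoidHom`; by `conj_dl` (file Rt of h76r) with `φ = τ`,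
`ψ = id`, `c = dl m`: `τ (dl l) = dl m * dl l * (dl m)⁻¹` for `l ≤ m`, so `τ (dl m) = dl m`.
For `m ≤ l ≤ n`, induction on `l`: `τ ((dl m)⁻¹ * dl l) = (zl n m)⁻¹ * ((dl m)⁻¹ * dl l) * zl n m`
(`dl_succ`, `kk`, and the values of `τ` on the handle `l ≥ m`), so for `l = n`
`τ (zl n m) = zl n m`; finally `dl n = dl m * zl n m` (`dl_mul_zl`). -/
theorem IsPS.fix {m : ℕ} (hm : m ≤ n) {τ : MulAut (Fr n)} (hτ : IsPS n m τ) :
    τ (dl m) = dl m ∧ τ (zl n m) = zl n m ∧ τ (dl n) = dl n := by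
  have h1 : τ (dl m) = dl m := by
    have h : τ (dl m) = dl m * dl m * (dl m)⁻¹ :=
      conj_dl τ.toMonoidHom (MonoidHom.id _) (dl m) m hm (fun k hk => hτ.1 k hk) m le_rfl
    rw [h]
    group
  have h2 : ∀ l, m ≤ l → l ≤ n →
      τ ((dl m)⁻¹ * dl l) = (zl n m)⁻¹ * ((dl m)⁻¹ * dl l) * zl n m := by
    intro l hml
    induction l, hml using Nat.le_induction with
    | base =>
      intro _
      rw [inv_mul_cancel, map_one]
      group
    | succ l hml ih =>
      intro hl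
      have hln : l < n := by omega
      obtain ⟨k1, k2⟩ := hτ.2 ⟨l, hln⟩ hml
      have e1 : ((dl m)⁻¹ * dl (l + 1) : Fr n) = ((dl m)⁻¹ * dl l) * kk ⟨l, hln⟩ := by
        rw [dl_succ l hln, mul_assoc]
      rw [e1, map_mul, ih (by omega), kk]
      simp only [map_mul, map_inv, k1, k2]
      group
  have h3 : τ (zl n m) = zl n m := by
    have h := h2 n hm le_rfl
    change τ (zl n m) = (zl n m)⁻¹ * zl n m * zl n m at h
    rw [h]
    group
  refine ⟨h1, h3, ?_⟩
  rw [← dl_mul_zl n m, map_mul, h1, h3]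

end

end Pool.MP_59b15d_al.H73E
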