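import Mathlib
import Pool.Agent.H.MP_59b15d_al.h73e.Tw2
import Pool.Agent.H.MP_59b15d_al.h73e.Pf

set_option autoImplicit false

namespace Pool.MP_59b15d_al.H73E

open Pool.MP_59b15d_al.H24T Pool.MP_59b15d_al.H76R
open Pool.MP_59b15d_al.H76 (InnMod congSub mem_congSub congSub_normal congSub_finiteIndex
  conj_innMod innMod_mono apply_mem_of_char exists_char_le comap_fi map_fi surf_fg inf_char
  finite_hom)
open FreeGroup (of)

section

variable {n : ℕ}

/-- JOB Fx2.  Elements fixed by `τ` modulo a deep subgroup (fix lemma).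

PROOF.  `E := Fr n ⧸ U` finite, `π := QuotientGroup.mk' U`, `s := dl m`, `z := zl n m`,
`P := Subgroup.closure {π s, π z}`, `μ e := if e ∈ P then (0 : ZMod ℓ) else 1` (classical), `ℓ` from
`exists_Phi n E`.  `k ⟨0, _⟩ := μ`, `k ⟨m, _⟩ := -μ`, `k i := 0` otherwise.  `Φ, u, η` from
`exists_Phi`.  By `Phi_seg` (`0, m`) and (`m, n`):
`Φ s (e, t) = (π s * e, t + μ e)`, `Φ z (e, t) = (π z * e, t - μ e)` (as `μ (p * e) = μ e` for
`p ∈ P`).  `V := V₁ ⊓ V₂`, `V₁` from `exists_deep (Fr n) (Equiv.Perm (E × ZMod ℓ))`, `V₂ ≤ U`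
characteristic of finite index (in fact take `V₂ := U`).
Let `IsPS n m τ`.  `τ` induces an automorphism `τ̄` of `E` (`QuotientGroup.congr U U τ`,
`Subgroup.characteristic_iff_map_eq`), `τ̄ (π x) = π (τ x)`; `τ s = s`, `τ z = z` (`IsPS.fix`), so `τ̄` fixes `P` pointwise and `μ (τ̄ e) = μ e` (`τ̄ e ∈ P ↔ e ∈ P`: if
`τ̄ e = p ∈ P` then `τ̄ e = τ̄ p`, `e = p`).
Let `T : Equiv.Perm (E × ZMod ℓ)`, `T (e, t) = (τ̄ e, t + μ e)`.
CLAIM: `T * Φ x = Φ (τ x) * T` for all `x : Fr n`.  It suffices for generators (the set of `x`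
is a subgroup, `fr_induction`).  Let `x` be a generator of the handle `i`, `X := π x`; `Φ x (e, t) =
(X e, u t + η (X e))`.  `T (Φ x (e, t)) = (τ̄ (X e), u t + η (X e) + μ (X e))`.
* `i < m`: `τ x = s x s⁻¹`.  `Φ s⁻¹ (e, t) = (s⁻¹ e, t - μ e)`.  `Φ (τ x) (T (e, t)) =
  Φ s (Φ x (s⁻¹ τ̄ e, t + μ e - μ (τ̄ e))) = Φ s (Φ x (σ e, t))` with `σ e := s⁻¹ τ̄ e`
  `= (s X σ e, u t + η (X σ e) + μ (X σ e))`.
  `σ (X e) = s⁻¹ (s X s⁻¹) τ̄ e = X σ e`, for both generators of the handle `i`, so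
  `s X σ e = τ̄ (X e)`, `μ (X σ e) = μ (σ (X e)) = μ (X e)` (`μ (σ e) = μ e`), and
  `η (X σ e) = η (σ (X e)) = η (X e)` by the invariance in `exists_Phi` (`k i (σ e) = k i e` since
  `k i ∈ {μ, -μ, 0}`).
* `m ≤ i`: `τ x = z⁻¹ x z`.  `Φ (τ x) (T (e, t)) = Φ z⁻¹ (Φ x (z τ̄ e, t + μ e - μ (τ̄ e))) =
  Φ z⁻¹ (X σ' e, u t + η (X σ' e))`, `σ' e := z τ̄ e`, `= (z⁻¹ X σ' e, u t + η (X σ' e) + μ (X σ' e))`
  as `Φ z⁻¹ (e, t) = (z⁻¹ e, t + μ e)`.  Again `σ' (X e) = z (z⁻¹ X z) τ̄ e = X σ' e` etc.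
Now let `τ x * x⁻¹ ∈ V`.  Then `Φ (τ x) = Φ x`, so `T (Φ x (1, 0)) = Φ x (T (1, 0)) = Φ x (1, 0)`
(`μ 1 = 0`).  `Φ x (1, 0) = (π x, t₀)` (first coordinate: as in job Cl), so
`(τ̄ (π x), t₀ + μ (π x)) = (π x, t₀)`, `μ (π x) = 0`, `π x ∈ P`.
`P` is the image of `closure {s, dl n}` (`π z = (π s)⁻¹ π (dl n)`): `mem_ev` applied in `E` to
`closure {π s, π (dl n)}` gives `w` with `ev (π s) (π (dl n)) w = π x`, and `ev_map`. -/
theorem Fx2 (m : ℕ) (hm0 : 0 < m) (hm : m < n) (U : Subgroup (Fr n)) (hU : U.Characteristic)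
    (hf : U.FiniteIndex) :
    ∃ V : Subgroup (Fr n), V.Characteristic ∧ V.FiniteIndex ∧ V ≤ U ∧
      ∀ τ : MulAut (Fr n), IsPS n m τ → ∀ x : Fr n, τ x * x⁻¹ ∈ V →
        ∃ w : FreeGroup (Fin 2), x * (ev (dl m) (dl n) w)⁻¹ ∈ U := by
  classical
  have hnorm : U.Normal := inferInstance
  have hfin : Finite (Fr n ⧸ U) := inferInstance
  obtain ⟨ℓ, hp, hcard, hPhi⟩ := exists_Phi n (Fr n ⧸ U)
  have hfact : Fact ℓ.Prime := ⟨hp⟩
  have hfz : Finite (ZMod ℓ) := inferInstance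
  let π : Fr n →* Fr n ⧸ U := QuotientGroup.mk' U
  let P : Subgroup (Fr n ⧸ U) := Subgroup.closure {π (dl m), π (zl n m)}
  let μ : (Fr n ⧸ U) → ZMod ℓ := fun e => if e ∈ P then 0 else 1
  let k : Fin n → (Fr n ⧸ U) → ZMod ℓ := fun i =>
    if (i : ℕ) = 0 then μ else if (i : ℕ) = m then -μ else 0
  obtain ⟨Φ, u, η, hΦ, hkk, hinv⟩ := hPhi π k
  have hsP : π (dl m) ∈ P := Subgroup.subset_closure (Or.inl rfl)
  have hzP : π (zl n m) ∈ P := Subgroup.subset_closure (Or.inr rfl)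
  have hμ : ∀ q ∈ P, ∀ e, μ (q * e) = μ e := by
    intro q hq e
    have h1 : q * e ∈ P ↔ e ∈ P := Subgroup.mul_mem_cancel_left P hq
    simp only [μ, h1]
  have hμ1 : μ 1 = 0 := by
    simp only [μ]
    rw [if_pos P.one_mem]
  have hs : ∀ p, Φ (dl m) p = (π (dl m) * p.1, p.2 + μ p.1) := by
    intro p
    have h1 := Phi_seg π k Φ hkk 0 m hm0 hm.le (by
      intro i hi0 him
      simp only [k]
      rw [if_neg (by omega), if_neg (by omega)]) p
    have h2 : ((dl 0 : Fr n))⁻¹ * dl m = dl m := by rw [dl, inv_one, one_mul]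
    rw [h2] at h1
    rw [h1]
    have h3 : k ⟨0, lt_of_lt_of_le hm0 hm.le⟩ (π (dl m) * p.1) = μ p.1 := by
      simp only [k]
      rw [if_true]
      exact hμ _ hsP _
    rw [h3]
  have hz : ∀ p, Φ (zl n m) p = (π (zl n m) * p.1, p.2 - μ p.1) := by
    intro p
    have h1 := Phi_seg π k Φ hkk m n hm le_rfl (by
      intro i hi0 him
      simp only [k]
      rw [if_neg (by omega), if_neg (by omega)]) p
    change Φ (zl n m) p = (π (zl n m) * p.1, _) at h1
    rw [h1]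
    have h3 : k ⟨m, lt_of_lt_of_le hm le_rfl⟩ (π (zl n m) * p.1) = - μ p.1 := by
      simp only [k]
      rw [if_neg (by omega), if_true]
      rw [Pi.neg_apply, hμ _ hzP]
    change (_, p.2 + k ⟨m, lt_of_lt_of_le hm le_rfl⟩ (π (zl n m) * p.1)) = _
    rw [h3, sub_eq_add_neg]
  have hz' : ∀ p, Φ (zl n m)⁻¹ p = (π (zl n m)⁻¹ * p.1, p.2 + μ p.1) := by
    intro p
    rw [map_inv, Equiv.Perm.inv_eq_iff_eq, hz]
    ext
    · simp only [map_inv, mul_inv_cancel_left]
    · simp only []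
      rw [map_inv, hμ _ (P.inv_mem hzP), add_sub_cancel_right]
  have hfst : ∀ (x : Fr n) (p), (Φ x p).1 = π x * p.1 := by
    intro x
    induction x using fr_induction with
    | h1 => intro p; simp
    | ha i => intro p; rw [hΦ]
    | hb i => intro p; rw [hΦ]
    | hm x y hx hy => intro p; rw [map_mul, Equiv.Perm.mul_apply, hx, hy, map_mul, mul_assoc]
    | hi x hx =>
      intro p
      have h1 := hx (Φ x⁻¹ p)
      have h2 : Φ x (Φ x⁻¹ p) = p := by
        rw [← Equiv.Perm.mul_apply, ← map_mul, mul_inv_cancel, map_one]; rfl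
      rw [h2] at h1
      rw [h1, map_inv π, inv_mul_cancel_left]
  obtain ⟨V₁, hV₁c, hV₁f, hV₁⟩ := exists_deep (Fr n) (Equiv.Perm ((Fr n ⧸ U) × ZMod ℓ))
  refine ⟨V₁ ⊓ U, inf_char hV₁c hU, inferInstance, inf_le_right, ?_⟩
  intro τ hτ x hx
  obtain ⟨hτs, hτz, hτd⟩ := hτ.fix hm.le
  let τb : (Fr n ⧸ U) ≃* (Fr n ⧸ U) :=
    QuotientGroup.congr U U τ (Subgroup.characteristic_iff_map_eq.mp hU τ)
  have hτb : ∀ y, τb (π y) = π (τ y) := fun y => rfl
  have hfixP : ∀ q ∈ P, τb q = q := by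
    intro q hq
    have h1 : P ≤ MonoidHom.eqLocus τb.toMonoidHom (MonoidHom.id _) := by
      rw [Subgroup.closure_le]
      rintro t (rfl | rfl)
      · change τb (π (dl m)) = π (dl m)
        rw [hτb, hτs]
      · change τb (π (zl n m)) = π (zl n m)
        rw [hτb, hτz]
    exact h1 hq
  have hμτ : ∀ e, μ (τb e) = μ e := by
    intro e
    have h1 : τb e ∈ P ↔ e ∈ P := by
      constructor
      · intro h
        have h2 : τb (τb e) = τb e := hfixP _ h
        have h3 : τb e = e := τb.injective h2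
        rw [← h3]
        exact h
      · intro h
        rw [hfixP e h]
        exact h
    simp only [μ, h1]
  let T : (Fr n ⧸ U) × ZMod ℓ → (Fr n ⧸ U) × ZMod ℓ := fun p => (τb p.1, p.2 + μ p.1)
  have key : ∀ (c : Fr n), π c ∈ P → (∀ p, Φ c p = (π c * p.1, p.2 + μ p.1)) →
      ∀ i : Fin n, τ (of (Sum.inl i)) = c * of (Sum.inl i) * c⁻¹ →
        τ (of (Sum.inr i)) = c * of (Sum.inr i) * c⁻¹ →
        ∀ y : Fin n ⊕ Fin n, (y = Sum.inl i ∨ y = Sum.inr i) →
          ∀ p, T (Φ (of y) p) = Φ (τ (of y)) (T p) := by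
    intro c hcP hc i hti htr y hy p
    have hc' : ∀ p, Φ c⁻¹ p = ((π c)⁻¹ * p.1, p.2 - μ p.1) := by
      intro p
      rw [map_inv, Equiv.Perm.inv_eq_iff_eq, hc]
      ext
      · simp only [mul_inv_cancel_left]
      · simp only []
        rw [hμ _ (P.inv_mem hcP), sub_add_cancel]
    let σ : (Fr n ⧸ U) → (Fr n ⧸ U) := fun e => (π c)⁻¹ * τb e
    have hσμ : ∀ e, μ (σ e) = μ e := by
      intro e
      simp only [σ]
      rw [hμ _ (P.inv_mem hcP), hμτ]
    have hσk : ∀ j e, k j (σ e) = k j e := by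
      intro j e
      simp only [k]
      split_ifs
      · exact hσμ e
      · rw [Pi.neg_apply, Pi.neg_apply, hσμ]
      · rfl
    have hσl : ∀ e, σ (π (of (Sum.inl i)) * e) = π (of (Sum.inl i)) * σ e := by
      intro e
      simp only [σ]
      rw [map_mul, hτb, hti, map_mul, map_mul, map_inv]
      group
    have hσr : ∀ e, σ (π (of (Sum.inr i)) * e) = π (of (Sum.inr i)) * σ e := by
      intro e
      simp only [σ]
      rw [map_mul, hτb, htr, map_mul, map_mul, map_inv]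
      group
    have hinv' := hinv i σ hσl hσr (hσk i)
    have hy1 : τ (of y) = c * of y * c⁻¹ := by
      rcases hy with rfl | rfl
      · exact hti
      · exact htr
    have hy2 : ∀ e, σ (π (of y) * e) = π (of y) * σ e := by
      rcases hy with rfl | rfl
      · exact hσl
      · exact hσr
    have hy3 : ∀ e, η y (σ e) = η y e := by
      rcases hy with rfl | rfl
      · exact fun e => (hinv' e).1
      · exact fun e => (hinv' e).2
    have hσe : ∀ e, π c * σ e = τb e := by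
      intro e
      simp only [σ]
      rw [mul_inv_cancel_left]
    rw [hy1, map_mul, map_mul, Equiv.Perm.mul_apply, Equiv.Perm.mul_apply]
    have e1 : Φ c⁻¹ (T p) = (σ p.1, p.2) := by
      rw [hc']
      simp only [T, σ]
      rw [hμτ, add_sub_cancel_right]
    rw [e1, hΦ, hΦ, hc]
    simp only [T]
    rw [← hy2, hσe, hσμ, hy3]
  have claim : ∀ (y : Fr n) (p), T (Φ y p) = Φ (τ y) (T p) := by
    intro y
    induction y using fr_induction with
    | h1 => intro p; simp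
    | ha i =>
      intro p
      by_cases hi : (i : ℕ) < m
      · exact key (dl m) hsP hs i (hτ.1 i hi).1 (hτ.1 i hi).2 _ (Or.inl rfl) p
      · exact key (zl n m)⁻¹ (by rw [map_inv]; exact P.inv_mem hzP) hz' i
          (by rw [inv_inv]; exact (hτ.2 i (by omega)).1)
          (by rw [inv_inv]; exact (hτ.2 i (by omega)).2) _ (Or.inl rfl) p
    | hb i =>
      intro p
      by_cases hi : (i : ℕ) < m
      · exact key (dl m) hsP hs i (hτ.1 i hi).1 (hτ.1 i hi).2 _ (Or.inr rfl) p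
      · exact key (zl n m)⁻¹ (by rw [map_inv]; exact P.inv_mem hzP) hz' i
          (by rw [inv_inv]; exact (hτ.2 i (by omega)).1)
          (by rw [inv_inv]; exact (hτ.2 i (by omega)).2) _ (Or.inr rfl) p
    | hm x y hx hy =>
      intro p
      rw [map_mul, Equiv.Perm.mul_apply, hx, hy, map_mul, map_mul, Equiv.Perm.mul_apply]
    | hi x hx =>
      intro p
      have h1 := hx (Φ x⁻¹ p)
      have h2 : Φ x (Φ x⁻¹ p) = p := by
        rw [← Equiv.Perm.mul_apply, ← map_mul, mul_inv_cancel, map_one]; rfl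
      rw [h2] at h1
      rw [h1, map_inv τ, ← Equiv.Perm.mul_apply, ← map_mul, inv_mul_cancel, map_one]
      rfl
  have hx1 : Φ (τ x) = Φ x := by
    have h1 := hV₁ Φ _ hx.1
    rw [map_mul, map_inv, mul_inv_eq_one] at h1
    exact h1
  have h2 := claim x (1, 0)
  have h3 : T (1, 0) = (1, 0) := by
    simp only [T]
    rw [map_one, hμ1, add_zero]
  rw [h3, hx1] at h2
  have h4 : (Φ x (1, 0)).1 = π x := by rw [hfst, mul_one]
  have h5 : (Φ x (1, 0)).2 + μ (Φ x (1, 0)).1 = (Φ x (1, 0)).2 := congrArg Prod.snd h2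
  rw [h4] at h5
  have h6 : μ (π x) = 0 := by
    have := add_eq_left.mp h5
    exact this
  have h7 : π x ∈ P := by
    by_contra hcon
    simp only [μ] at h6
    rw [if_neg hcon] at h6
    exact one_ne_zero h6
  have h8 : P ≤ Subgroup.closure {π (dl m), π (dl n)} := by
    rw [Subgroup.closure_le]
    rintro t (rfl | rfl)
    · exact Subgroup.subset_closure (Or.inl rfl)
    · have h9 : π (zl n m) = (π (dl m))⁻¹ * π (dl n) := by rw [zl, map_mul, map_inv]
      rw [h9]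
      exact Subgroup.mul_mem _ (Subgroup.inv_mem _ (Subgroup.subset_closure (Or.inl rfl)))
        (Subgroup.subset_closure (Or.inr rfl))
  obtain ⟨w, hw⟩ := mem_ev (h8 h7)
  refine ⟨w, ?_⟩
  rw [← ev_map] at hw
  have h10 : π (x * (ev (dl m) (dl n) w)⁻¹) = 1 := by
    rw [map_mul, map_inv, hw, mul_inv_cancel]
  exact (QuotientGroup.eq_one_iff _).mp h10

end

end Pool.MP_59b15d_al.H73E
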