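import Mathlib
import Pool.Agent.H.MP_59b15d_al.h73e.Ba

set_option autoImplicit false

namespace Pool.MP_59b15d_al.H73E

open Pool.MP_59b15d_al.H24T Pool.MP_59b15d_al.H76R
open Pool.MP_59b15d_al.H76 (InnMod congSub mem_congSub congSub_normal congSub_finiteIndex
  conj_innMod innMod_mono apply_mem_of_char exists_char_le comap_fi map_fi surf_fg inf_char
  finite_hom)
open FreeGroup (of)

section

variable {n : ℕ} {P : Type*} [Group P] {x y : Fin n → P}

/-- The first coordinate of the Heisenberg group. -/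
def heAl (R : Type*) [CommRing R] : Pool.MP_59b15d_al.H76.Heis R →* Multiplicative R where
  toFun u := Multiplicative.ofAdd u.x
  map_one' := rfl
  map_mul' _ _ := rfl

/-- The second coordinate of the Heisenberg group. -/
def heBe (R : Type*) [CommRing R] : Pool.MP_59b15d_al.H76.Heis R →* Multiplicative R where
  toFun u := Multiplicative.ofAdd u.y
  map_one' := rfl
  map_mul' _ _ := rfl

/-- The homomorphism to the Heisenberg group given by the handle `j`. -/
def heRho (R : Type*) [CommRing R] (j : Fin n) : Fr n →* Pool.MP_59b15d_al.H76.Heis R :=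
  FreeGroup.lift (Sum.elim (fun k => if k = j then ⟨1, 0, 0⟩ else 1)
    (fun k => if k = j then ⟨0, 1, 0⟩ else 1))

theorem heRho_a (R : Type*) [CommRing R] (j k : Fin n) :
    heRho R j (of (Sum.inl k)) = if k = j then ⟨1, 0, 0⟩ else 1 := by simp [heRho]

theorem heRho_b (R : Type*) [CommRing R] (j k : Fin n) :
    heRho R j (of (Sum.inr k)) = if k = j then ⟨0, 1, 0⟩ else 1 := by simp [heRho]

theorem heRho_kk (R : Type*) [CommRing R] (j k : Fin n) :
    heRho R j (kk k) = if k = j then ⟨0, 0, 1⟩ else 1 := by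
  rw [kk, map_mul, map_mul, map_mul, map_inv, map_inv, heRho_a, heRho_b]
  by_cases hk : k = j
  · rw [if_pos hk, if_pos hk, if_pos hk]
    ext <;> simp
  · rw [if_neg hk, if_neg hk, if_neg hk]
    simp

theorem heRho_dl (R : Type*) [CommRing R] (j : Fin n) (m : ℕ) (hm : m ≤ n) :
    heRho R j (dl m) = if (j : ℕ) < m then ⟨0, 0, 1⟩ else 1 := by
  induction m with
  | zero => simp [dl]
  | succ m ih =>
    rw [dl_succ m hm, map_mul, ih (by omega), heRho_kk]
    by_cases h1 : (⟨m, hm⟩ : Fin n) = j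
    · have h2 : (j : ℕ) = m := by rw [← h1]
      rw [if_pos h1, if_neg (by omega), if_pos (by omega), one_mul]
    · have h2 : (j : ℕ) ≠ m := fun h3 => h1 (Fin.ext h3.symm)
      rw [if_neg h1, mul_one]
      by_cases h3 : (j : ℕ) < m
      · rw [if_pos h3, if_pos (by omega)]
      · rw [if_neg h3, if_neg (by omega)]

/-- A homomorphism to an abelian group that kills the boundary is preserved. -/
theorem he_preserve (hP : IsSurf x y) {T : Type*} [Group T] {Γ : Subgroup P}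
    (hΓ : ∀ (φ : P →* T) (z : P), z ∈ Γ → φ z = 1) (α : Fr n →* T) (hα : α (dl n) = 1)
    (f : MulAut (Fr n)) (hf : ∀ z, qH x y (f z * z⁻¹) ∈ Γ) (z : Fr n) : α (f z) = α z := by
  obtain ⟨σ, hσ⟩ := qH_factor hP α hα
  have h1 := hΓ σ _ (hf z)
  rw [hσ, map_mul, map_inv, mul_inv_eq_one] at h1
  exact h1

theorem he_ev_zpow {B : Type*} [Group B] (g : B) (w : FreeGroup (Fin 2)) :
    ev 1 g w = g ^ (Multiplicative.toAdd (ev 1 (Multiplicative.ofAdd (1 : ℤ)) w)) := by
  have h1 := ev_map (zpowersHom B g) 1 (Multiplicative.ofAdd (1 : ℤ)) w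
  rw [map_one (zpowersHom B g)] at h1
  have h2 : zpowersHom B g (Multiplicative.ofAdd (1 : ℤ)) = g := by
    rw [zpowersHom_apply]
    simp
  rw [h2] at h1
  rw [← h1, zpowersHom_apply]

/-- JOB He.  Automorphisms that are nearly trivial on the closed surface group and map the boundary
of a handle to a word in it and the total boundary: the exponent sum of the second letter vanishes.

PROOF.  `R := ZMod M`, `Heis R` from file `h76m/Ha` (`Pool.MP_59b15d_al.H76.Heis`, finite).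
`V` from `exists_deep (Fr n) (Heis R)`, `Γ` from `exists_deep P (Multiplicative R)`
(`P` is finitely generated: `surf_fg hP`).  Let `f, i, j, w` be given.
`ρ : Fr n →* Heis R`, `a j ↦ ⟨1, 0, 0⟩`, `b j ↦ ⟨0, 1, 0⟩`, other generators `↦ 1`.
`ρ (kk j) = ⟨0, 0, 1⟩ =: ζ`, `ρ (kk k) = 1` for `k ≠ j`, so `ρ (dl l) = 1` for `l ≤ j` and
`= ζ` for `j < l ≤ n` (induction); `ρ (dl n) = ζ`, `ρ (kk i) = 1`.
`α, β : Heis R →* Multiplicative R`, `u ↦ ofAdd u.x`, `u ↦ ofAdd u.y`.  `α (ρ (dl n)) = 1`, so by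
`qH_factor` there is `σ` with `σ (qH x y z) = α (ρ z)`; hence `α (ρ (f z)) = α (ρ z)` as
`α (ρ (f z * z⁻¹)) = σ (qH (f z * z⁻¹)) = 1`.  So `(ρ (f z)).x = (ρ z).x`; same for `β`, `.y`.
For `z = a i, b i`: `ρ z = 1`, so `ρ (f (a i))`, `ρ (f (b i))` have `x = y = 0` and commute
(ext, `mul_z`), so `ρ (f (kk i)) = 1`.
From `f (kk i) * (ev (kk i) (dl n) w)⁻¹ ∈ V`: `1 = ρ (f (kk i)) = ev 1 ζ w` (`ev_map`).
For every group `B` and `g : B`: `ev 1 g w = zpowersHom B g (ev 1 (ofAdd 1) w)`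
(`ev_map`), i.e. with `e := toAdd (ev 1 (ofAdd (1 : ℤ)) w) : ℤ`: `ev 1 g w = g ^ e`.
`ζ ^ e = ⟨0, 0, e⟩ = 1` (`Heis.zpow_central`) gives `(e : ZMod M) = 0`, `(M : ℤ) ∣ e`
(`ZMod.intCast_zmod_eq_zero_iff_dvd` or so), so `g ^ e = 1` if `g ^ M = 1`. -/
theorem heis_exp (hP : IsSurf x y) (M : ℕ) [NeZero M] :
    ∃ (V : Subgroup (Fr n)) (Γ : Subgroup P), V.Characteristic ∧ V.FiniteIndex ∧
      Γ.Characteristic ∧ Γ.FiniteIndex ∧
      ∀ f : MulAut (Fr n), (∀ z, qH x y (f z * z⁻¹) ∈ Γ) → ∀ i j : Fin n, i ≠ j →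
        ∀ w : FreeGroup (Fin 2), f (kk i) * (ev (kk i) (dl n) w)⁻¹ ∈ V →
          ∀ (B : Type) [Group B] (g : B), g ^ M = 1 → ev 1 g w = 1 := by
  have hfg : Group.FG P := surf_fg hP
  obtain ⟨V, hV1, hV2, hV3⟩ := exists_deep (Fr n) (Pool.MP_59b15d_al.H76.Heis (ZMod M))
  obtain ⟨Γ, hΓ1, hΓ2, hΓ3⟩ := exists_deep P (Multiplicative (ZMod M))
  refine ⟨V, Γ, hV1, hV2, hΓ1, hΓ2, ?_⟩
  intro f hf i j hij w hw B _ g hg
  have hdl : heRho (ZMod M) j (dl n) = ⟨0, 0, 1⟩ := by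
    rw [heRho_dl _ _ _ le_rfl, if_pos j.isLt]
  have hx : ∀ z, (heRho (ZMod M) j (f z)).x = (heRho (ZMod M) j z).x := by
    intro z
    exact he_preserve hP hΓ3 ((heAl (ZMod M)).comp (heRho (ZMod M) j)) (by
      rw [MonoidHom.comp_apply, hdl]; rfl) f hf z
  have hy : ∀ z, (heRho (ZMod M) j (f z)).y = (heRho (ZMod M) j z).y := by
    intro z
    exact he_preserve hP hΓ3 ((heBe (ZMod M)).comp (heRho (ZMod M) j)) (by
      rw [MonoidHom.comp_apply, hdl]; rfl) f hf z
  have hkk : heRho (ZMod M) j (f (kk i)) = 1 := by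
    have ha1 := hx (of (Sum.inl i))
    have ha2 := hy (of (Sum.inl i))
    have hb1 := hx (of (Sum.inr i))
    have hb2 := hy (of (Sum.inr i))
    rw [heRho_a, if_neg hij] at ha1 ha2
    rw [heRho_b, if_neg hij] at hb1 hb2
    rw [Pool.MP_59b15d_al.H76.Heis.one_x] at ha1 hb1
    rw [Pool.MP_59b15d_al.H76.Heis.one_y] at ha2 hb2
    have hcomm : heRho (ZMod M) j (f (of (Sum.inl i))) * heRho (ZMod M) j (f (of (Sum.inr i))) =
        heRho (ZMod M) j (f (of (Sum.inr i))) * heRho (ZMod M) j (f (of (Sum.inl i))) := by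
      ext
      · simp [ha1, hb1]
      · simp [ha2, hb2]
      · simp [ha1, hb1, add_comm]
    rw [kk, map_mul, map_mul, map_mul, map_inv, map_inv, map_mul, map_mul, map_mul, map_inv,
      map_inv, hcomm]
    group
  have h1 := hV3 (heRho (ZMod M) j) _ hw
  rw [map_mul, map_inv, hkk, one_mul, inv_eq_one, ev_map, heRho_kk, if_neg hij, hdl,
    he_ev_zpow, Pool.MP_59b15d_al.H76.Heis.zpow_central _ rfl rfl] at h1
  have h2 := congrArg Pool.MP_59b15d_al.H76.Heis.z h1
  rw [Pool.MP_59b15d_al.H76.Heis.one_z] at h2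
  simp only [mul_one] at h2
  rw [ZMod.intCast_zmod_eq_zero_iff_dvd] at h2
  rw [he_ev_zpow]
  obtain ⟨c, hc⟩ := h2
  rw [hc, zpow_mul, zpow_natCast, hg, one_zpow]

end

end Pool.MP_59b15d_al.H73E
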