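import Mathlib
import Pool.Agent.H.MP_59b15d_al.h73e.Ba
import Pool.Agent.H.MP_59b15d_al.h73e.Htc

set_option autoImplicit false

namespace Pool.MP_59b15d_al.H73E

open Pool.MP_59b15d_al.H24T Pool.MP_59b15d_al.H76R
open Pool.MP_59b15d_al.H76 (InnMod congSub mem_congSub congSub_normal congSub_finiteIndex
  conj_innMod innMod_mono apply_mem_of_char exists_char_le comap_fi map_fi surf_fg inf_char
  finite_hom)
open FreeGroup (of)

section

variable {n : ℕ} {G : Type*} [Group G] {a b : Fin (n + 1) → G}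

/-- JOB Ps (1).  PROOF.  `k < m`: `conj (s c⁻¹)` of `c x c⁻¹` is `s x s⁻¹` (`s = dl m`, `c = dl n`;
`Xh_dl_lt`).  `m ≤ k`: `s c⁻¹ c s⁻¹ c⁻¹ s = c⁻¹ s = (zl n m)⁻¹` (`Xh_dl_ge`). -/
theorem isPS_Xh (h : IsSurf a b) {m : ℕ} (hm : m ≤ n) :
    IsPS n m (MulAut.conj (dl m * (dl n)⁻¹) * Xh h (dl m)) := by
  refine ⟨fun k hk => ?_, fun k hk => ?_⟩
  · obtain ⟨h1, h2⟩ := Xh_dl_lt h hm hk
    simp only [MulAut.mul_apply, MulAut.conj_apply, h1, h2]
    constructor <;> group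
  · obtain ⟨h1, h2⟩ := Xh_dl_ge h hm hk
    simp only [MulAut.mul_apply, MulAut.conj_apply, h1, h2, zl]
    constructor <;> group

/-- The values of the half twist. -/
def psF (i0 i1 : Fin n) (x : Fin n ⊕ Fin n) : Fr n :=
  if x = Sum.inl i0 then of (Sum.inl i1) else
  if x = Sum.inr i0 then of (Sum.inr i1) else
  if x = Sum.inl i1 then (kk i1)⁻¹ * of (Sum.inl i0) * kk i1 else
  if x = Sum.inr i1 then (kk i1)⁻¹ * of (Sum.inr i0) * kk i1 else of x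

/-- The values of the inverse of the half twist. -/
def psG (i0 i1 : Fin n) (x : Fin n ⊕ Fin n) : Fr n :=
  if x = Sum.inl i1 then of (Sum.inl i0) else
  if x = Sum.inr i1 then of (Sum.inr i0) else
  if x = Sum.inl i0 then kk i0 * of (Sum.inl i1) * (kk i0)⁻¹ else
  if x = Sum.inr i0 then kk i0 * of (Sum.inr i1) * (kk i0)⁻¹ else of x

section psvals

variable {i0 i1 : Fin n}

theorem psF_a0 : psF i0 i1 (Sum.inl i0) = of (Sum.inl i1) := by simp [psF]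
theorem psF_b0 : psF i0 i1 (Sum.inr i0) = of (Sum.inr i1) := by simp [psF]
theorem psF_a1 (hij : i0 ≠ i1) :
    psF i0 i1 (Sum.inl i1) = (kk i1)⁻¹ * of (Sum.inl i0) * kk i1 := by
  simp [psF, hij.symm]
theorem psF_b1 (hij : i0 ≠ i1) :
    psF i0 i1 (Sum.inr i1) = (kk i1)⁻¹ * of (Sum.inr i0) * kk i1 := by
  simp [psF, hij.symm]
theorem psF_a {k : Fin n} (h0 : k ≠ i0) (h1 : k ≠ i1) :
    psF i0 i1 (Sum.inl k) = of (Sum.inl k) := by simp [psF, h0, h1]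
theorem psF_b {k : Fin n} (h0 : k ≠ i0) (h1 : k ≠ i1) :
    psF i0 i1 (Sum.inr k) = of (Sum.inr k) := by simp [psF, h0, h1]
theorem psG_a1 : psG i0 i1 (Sum.inl i1) = of (Sum.inl i0) := by simp [psG]
theorem psG_b1 : psG i0 i1 (Sum.inr i1) = of (Sum.inr i0) := by simp [psG]
theorem psG_a0 (hij : i0 ≠ i1) :
    psG i0 i1 (Sum.inl i0) = kk i0 * of (Sum.inl i1) * (kk i0)⁻¹ := by
  simp [psG, hij]
theorem psG_b0 (hij : i0 ≠ i1) :
    psG i0 i1 (Sum.inr i0) = kk i0 * of (Sum.inr i1) * (kk i0)⁻¹ := by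
  simp [psG, hij]
theorem psG_a {k : Fin n} (h0 : k ≠ i0) (h1 : k ≠ i1) :
    psG i0 i1 (Sum.inl k) = of (Sum.inl k) := by simp [psG, h0, h1]
theorem psG_b {k : Fin n} (h0 : k ≠ i0) (h1 : k ≠ i1) :
    psG i0 i1 (Sum.inr k) = of (Sum.inr k) := by simp [psG, h0, h1]

theorem ps_map_kk {T : Type*} [Group T] (φ : Fr n →* T) (i : Fin n) :
    φ (kk i) = φ (of (Sum.inl i)) * φ (of (Sum.inr i)) * (φ (of (Sum.inl i)))⁻¹ *
      (φ (of (Sum.inr i)))⁻¹ := by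
  rw [kk, map_mul, map_mul, map_mul, map_inv, map_inv]

theorem psF_kk0 : FreeGroup.lift (psF i0 i1) (kk i0) = kk i1 := by
  rw [ps_map_kk, FreeGroup.lift_apply_of, FreeGroup.lift_apply_of, psF_a0, psF_b0, kk]

theorem psG_kk1 : FreeGroup.lift (psG i0 i1) (kk i1) = kk i0 := by
  rw [ps_map_kk, FreeGroup.lift_apply_of, FreeGroup.lift_apply_of, psG_a1, psG_b1, kk]

theorem psF_G (hij : i0 ≠ i1) (x : Fin n ⊕ Fin n) :
    FreeGroup.lift (psF i0 i1) (psG i0 i1 x) = of x := by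
  rcases x with k | k
  · by_cases h1 : k = i1
    · subst h1
      rw [psG_a1, FreeGroup.lift_apply_of, psF_a0]
    · by_cases h0 : k = i0
      · subst h0
        rw [psG_a0 hij, map_mul, map_mul, map_inv, psF_kk0, FreeGroup.lift_apply_of, psF_a1 hij]
        group
      · rw [psG_a h0 h1, FreeGroup.lift_apply_of, psF_a h0 h1]
  · by_cases h1 : k = i1
    · subst h1
      rw [psG_b1, FreeGroup.lift_apply_of, psF_b0]
    · by_cases h0 : k = i0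
      · subst h0
        rw [psG_b0 hij, map_mul, map_mul, map_inv, psF_kk0, FreeGroup.lift_apply_of, psF_b1 hij]
        group
      · rw [psG_b h0 h1, FreeGroup.lift_apply_of, psF_b h0 h1]

theorem psG_F (hij : i0 ≠ i1) (x : Fin n ⊕ Fin n) :
    FreeGroup.lift (psG i0 i1) (psF i0 i1 x) = of x := by
  rcases x with k | k
  · by_cases h0 : k = i0
    · subst h0
      rw [psF_a0, FreeGroup.lift_apply_of, psG_a1]
    · by_cases h1 : k = i1
      · subst h1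
        rw [psF_a1 hij, map_mul, map_mul, map_inv, psG_kk1, FreeGroup.lift_apply_of, psG_a0 hij]
        group
      · rw [psF_a h0 h1, FreeGroup.lift_apply_of, psG_a h0 h1]
  · by_cases h0 : k = i0
    · subst h0
      rw [psF_b0, FreeGroup.lift_apply_of, psG_b1]
    · by_cases h1 : k = i1
      · subst h1
        rw [psF_b1 hij, map_mul, map_mul, map_inv, psG_kk1, FreeGroup.lift_apply_of, psG_b0 hij]
        group
      · rw [psF_b h0 h1, FreeGroup.lift_apply_of, psG_b h0 h1]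

/-- The half twist. -/
def psT (i0 i1 : Fin n) (hij : i0 ≠ i1) : MulAut (Fr n) :=
  mkA (psF i0 i1) (psG i0 i1) (psF_G hij) (psG_F hij)

theorem psT_of (hij : i0 ≠ i1) (x : Fin n ⊕ Fin n) : psT i0 i1 hij (of x) = psF i0 i1 x :=
  mkA_of _ _ _ _ _

theorem psM_kk (θ : MulAut (Fr n)) (i : Fin n) :
    θ (kk i) = θ (of (Sum.inl i)) * θ (of (Sum.inr i)) * (θ (of (Sum.inl i)))⁻¹ *
      (θ (of (Sum.inr i)))⁻¹ := by
  rw [kk, map_mul, map_mul, map_mul, map_inv, map_inv]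

theorem psT_kk0 (hij : i0 ≠ i1) : psT i0 i1 hij (kk i0) = kk i1 := by
  rw [psM_kk, psT_of, psT_of, psF_a0, psF_b0, kk]

theorem psT_kk1 (hij : i0 ≠ i1) : psT i0 i1 hij (kk i1) = (kk i1)⁻¹ * kk i0 * kk i1 := by
  rw [psM_kk, psT_of, psT_of, psF_a1 hij, psF_b1 hij]
  generalize hs : (kk i1 : Fr n) = s
  rw [kk]
  group

theorem psT_kk (hij : i0 ≠ i1) {k : Fin n} (h0 : k ≠ i0) (h1 : k ≠ i1) :
    psT i0 i1 hij (kk k) = kk k := by
  rw [psM_kk, psT_of, psT_of, psF_a h0 h1, psF_b h0 h1, kk]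

end psvals

theorem ps_dl_one (hn : 1 < n) : (dl 1 : Fr n) = kk ⟨0, by omega⟩ := by
  rw [dl_succ 0 (by omega), dl, one_mul]

theorem ps_dl_two (hn : 1 < n) : (dl 2 : Fr n) = kk ⟨0, by omega⟩ * kk ⟨1, hn⟩ := by
  rw [dl_succ 1 hn, ps_dl_one hn]

theorem psT_dl (hn : 1 < n) {i0 i1 : Fin n} (h0 : i0 = ⟨0, by omega⟩) (h1 : i1 = ⟨1, hn⟩)
    (hij : i0 ≠ i1) (l : ℕ) (hl : 2 ≤ l) (hln : l ≤ n) :
    psT i0 i1 hij (dl l) = dl l := by
  induction l, hl using Nat.le_induction with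
  | base =>
    rw [ps_dl_two hn, ← h0, ← h1, map_mul, psT_kk0, psT_kk1]
    group
  | succ l hl ih =>
    rw [dl_succ l (by omega), map_mul, ih (by omega), psT_kk]
    · rw [h0]
      intro h
      have := congrArg Fin.val h
      simp only at this
      omega
    · rw [h1]
      intro h
      have := congrArg Fin.val h
      simp only at this
      omega

/-- JOB Ps (2).  The half twist of the first two handles.
PROOF.  Let `s₂ := kk ⟨1, hn⟩`, `i0 = ⟨0, _⟩`, `i1 = ⟨1, hn⟩`.  `θ := mkA f g _ _` (file Ri) with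
`f (inl i0) = of (inl i1)`, `f (inr i0) = of (inr i1)`, `f (inl i1) = s₂⁻¹ * of (inl i0) * s₂`,
`f (inr i1) = s₂⁻¹ * of (inr i0) * s₂`, `f x = of x` otherwise; inverse
`g (inl i1) = of (inl i0)`, `g (inr i1) = of (inr i0)`, `g (inl i0) = s₁ * of (inl i1) * s₁⁻¹`,
`g (inr i0) = s₁ * of (inr i1) * s₁⁻¹`, `s₁ = kk i0`.
`θ (kk i0) = kk i1`, `θ (kk i1) = s₂⁻¹ * kk i0 * s₂`, `θ (kk k) = kk k` for the others, so
`θ (dl 1) = kk i1`, `θ (dl l) = dl l` for `2 ≤ l ≤ n` (induction; `dl 2 = kk i0 * kk i1 ↦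
s₂ * (s₂⁻¹ * kk i0 * s₂) = dl 2`), so `θ (dl n) = dl n`, `θ (zl n 1) = (kk i1)⁻¹ * dl n`.
The last identity `θ * τ * θ⁻¹ = ξ`, i.e. `θ * τ = ξ * θ`, on generators, where `τ` is
`IsPS n 1` and `ξ := conj (s₂ * (dl n)⁻¹) * Xh h s₂`; `c := dl n`, `z := zl n 1`.
By `Xh_kk_lt, _self, _gt`: `ξ` is `conj (s₂ c⁻¹)` on handle `0`, `conj s₂` on handle `1`, and
`conj (c⁻¹ s₂)` on the others; `ξ (dl n) = dl n` and `ξ s₂ = s₂`.
* `a 0`: `θ (τ a0) = θ (s₁ a0 s₁⁻¹) = s₂ a1 s₂⁻¹ = ξ (a1) = ξ (θ a0)`.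
* `a 1`: `θ (τ a1) = θ (z⁻¹ a1 z) = (c⁻¹ s₂) (s₂⁻¹ a0 s₂) (s₂⁻¹ c) = c⁻¹ a0 c`, and
  `ξ (θ a1) = ξ (s₂⁻¹ a0 s₂) = s₂⁻¹ (s₂ c⁻¹ a0 c s₂⁻¹) s₂ = c⁻¹ a0 c`.
* `a k`, `k ≥ 2`: `θ (z⁻¹ a_k z) = c⁻¹ s₂ a_k s₂⁻¹ c = ξ (a_k)`.
The same for `b`. -/
theorem exists_theta (h : IsSurf a b) (hn : 1 < n) :
    ∃ θ : MulAut (Fr n), θ (dl n) = dl n ∧ θ (dl 1) = kk ⟨1, hn⟩ ∧
      ∀ τ : MulAut (Fr n), IsPS n 1 τ →
        θ * τ * θ⁻¹ = MulAut.conj (kk ⟨1, hn⟩ * (dl n)⁻¹) * Xh h (kk ⟨1, hn⟩) := by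
  obtain ⟨i0, hi0⟩ : ∃ i0 : Fin n, i0 = ⟨0, by omega⟩ := ⟨_, rfl⟩
  obtain ⟨i1, hi1⟩ : ∃ i1 : Fin n, i1 = ⟨1, hn⟩ := ⟨_, rfl⟩
  have hij : i0 ≠ i1 := by
    rw [hi0, hi1]
    intro hc
    have := congrArg Fin.val hc
    simp only at this
    omega
  rw [← hi1]
  have hd : psT i0 i1 hij (dl n) = dl n := psT_dl hn hi0 hi1 hij n (by omega) le_rfl
  have hd1 : psT i0 i1 hij (dl 1) = kk i1 := by
    rw [ps_dl_one hn, ← hi0, psT_kk0]
  refine ⟨psT i0 i1 hij, hd, hd1, fun τ hτ => ?_⟩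
  rw [mul_inv_eq_iff_eq_mul]
  have h01 : i0 < i1 := by rw [hi0, hi1]; exact Nat.zero_lt_one
  have v0 : ((i0 : Fin n) : ℕ) = 0 := by rw [hi0]
  have v1 : ((i1 : Fin n) : ℕ) = 1 := by rw [hi1]
  obtain ⟨x0a, x0b⟩ := Xh_kk_lt h i1 h01
  obtain ⟨x1a, x1b⟩ := Xh_kk_self h i1
  have hX : ∀ x : Fr n, (MulAut.conj (kk i1 * (dl n)⁻¹) * Xh h (kk i1) : MulAut (Fr n)) x =
      (kk i1 * (dl n)⁻¹) * Xh h (kk i1) x * (kk i1 * (dl n)⁻¹)⁻¹ := fun x => by
    rw [MulAut.mul_apply, MulAut.conj_apply]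
  generalize hξ : MulAut.conj (kk i1 * (dl n)⁻¹) * Xh h (kk i1) = ξ at hX ⊢
  have y0a := hX (of (Sum.inl i0))
  have y0b := hX (of (Sum.inr i0))
  have y1a := hX (of (Sum.inl i1))
  have y1b := hX (of (Sum.inr i1))
  rw [x0a] at y0a
  rw [x0b] at y0b
  rw [x1a] at y1a
  rw [x1b] at y1b
  have z1a : ξ (of (Sum.inl i1)) = kk i1 * of (Sum.inl i1) * (kk i1)⁻¹ := by
    rw [y1a]; group
  have z1b : ξ (of (Sum.inr i1)) = kk i1 * of (Sum.inr i1) * (kk i1)⁻¹ := by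
    rw [y1b]; group
  have hs : ξ (kk i1) = kk i1 := by
    rw [psM_kk, z1a, z1b]
    have e : ∀ s A B : Fr n, A * B * A⁻¹ * B⁻¹ = s → (s * A * s⁻¹) * (s * B * s⁻¹) *
        (s * A * s⁻¹)⁻¹ * (s * B * s⁻¹)⁻¹ = s := by
      intro s A B hs
      have : (s * A * s⁻¹) * (s * B * s⁻¹) * (s * A * s⁻¹)⁻¹ * (s * B * s⁻¹)⁻¹ =
          s * (A * B * A⁻¹ * B⁻¹) * s⁻¹ := by group
      rw [this, hs]
      group
    exact e _ _ _ (by rw [kk])
  have hz : psT i0 i1 hij (zl n 1) = (kk i1)⁻¹ * dl n := by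
    rw [zl, map_mul, map_inv, hd, hd1]
  have hτ0 := hτ.1 i0 (by omega)
  have hτ1 := hτ.2 i1 (by omega)
  apply MulEquiv.ext
  intro x
  induction x using fr_induction with
  | h1 => rw [map_one, map_one]
  | ha k =>
    rw [MulAut.mul_apply, MulAut.mul_apply]
    by_cases h0 : k = i0
    · subst h0
      rw [hτ0.1, map_mul, map_mul, map_inv, hd1, psT_of, psF_a0, z1a]
    · by_cases h1 : k = i1
      · subst h1
        rw [hτ1.1, map_mul, map_mul, map_inv, hz, psT_of, psF_a1 hij, map_mul, map_mul, map_inv, hs,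
          y0a]
        group
      · have hk1 : i1 < k := by
          rw [Fin.lt_def]
          have : (k : ℕ) ≠ 0 := fun hc => h0 (Fin.ext (by omega))
          have : (k : ℕ) ≠ 1 := fun hc => h1 (Fin.ext (by omega))
          omega
        rw [(hτ.2 k (by rw [Fin.lt_def] at hk1; omega)).1, map_mul, map_mul, map_inv, hz, psT_of,
          psF_a h0 h1, hX, (Xh_kk_gt h i1 hk1).1]
        group
  | hb k =>
    rw [MulAut.mul_apply, MulAut.mul_apply]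
    by_cases h0 : k = i0
    · subst h0
      rw [hτ0.2, map_mul, map_mul, map_inv, hd1, psT_of, psF_b0, z1b]
    · by_cases h1 : k = i1
      · subst h1
        rw [hτ1.2, map_mul, map_mul, map_inv, hz, psT_of, psF_b1 hij, map_mul, map_mul, map_inv, hs,
          y0b]
        group
      · have hk1 : i1 < k := by
          rw [Fin.lt_def]
          have : (k : ℕ) ≠ 0 := fun hc => h0 (Fin.ext (by omega))
          have : (k : ℕ) ≠ 1 := fun hc => h1 (Fin.ext (by omega))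
          omega
        rw [(hτ.2 k (by rw [Fin.lt_def] at hk1; omega)).2, map_mul, map_mul, map_inv, hz, psT_of,
          psF_b h0 h1, hX, (Xh_kk_gt h i1 hk1).2]
        group
  | hm x y hx hy => rw [map_mul, map_mul, hx, hy]
  | hi x hx => rw [map_inv, map_inv, hx]

end

end Pool.MP_59b15d_al.H73E
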