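import Mathlib
import Pool.Agent.H.MP_59b15d_al.h76m.Hh
import Pool.Agent.H.MP_59b15d_al.h76r.Rl

set_option autoImplicit false

namespace Pool.MP_59b15d_al.H73E

open Pool.MP_59b15d_al.H24T Pool.MP_59b15d_al.H76R
open Pool.MP_59b15d_al.H76 (InnMod congSub mem_congSub congSub_normal congSub_finiteIndex
  conj_innMod innMod_mono apply_mem_of_char exists_char_le comap_fi map_fi surf_fg inf_char
  finite_hom)
open FreeGroup (of)

section

/-- The diagonal action. -/
def dia (B : Type) [Group B] : B →* Equiv.Perm (ZMod (Nat.card B) × B) where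
  toFun x :=
    { toFun := fun p => (p.1, x * p.2)
      invFun := fun p => (p.1, x⁻¹ * p.2)
      left_inv := by rintro ⟨i, y⟩; simp
      right_inv := by rintro ⟨i, y⟩; simp }
  map_one' := by ext p <;> simp
  map_mul' x y := by ext p <;> simp [mul_assoc]

theorem dia_apply {B : Type} [Group B] (x : B) (p : ZMod (Nat.card B) × B) :
    dia B x p = (p.1, x * p.2) := rfl

theorem dia_injective (B : Type) [Group B] : Function.Injective (dia B) := by
  intro x y hxy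
  have h1 : dia B x (0, 1) = dia B y (0, 1) := by rw [hxy]
  simpa [dia_apply] using h1

/-- The exponent of the shift. -/
theorem rl_pow (B : Type) [Group B] [Finite B] (x : B) (i : ZMod (Nat.card B)) :
    x ^ (i + 1).val = x * x ^ i.val := by
  have : NeZero (Nat.card B) := ⟨Nat.card_pos.ne'⟩
  rw [ZMod.val_add, ZMod.val_one_eq_one_mod, Nat.add_mod_mod, pow_mod_natCard, pow_succ']

/-- The shift of the first coordinate. -/
noncomputable def rl_r (B : Type) : Equiv.Perm (ZMod (Nat.card B) × B) where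
  toFun p := (p.1 - 1, p.2)
  invFun p := (p.1 + 1, p.2)
  left_inv := by rintro ⟨i, y⟩; simp
  right_inv := by rintro ⟨i, y⟩; simp

/-- The multiplication by powers. -/
noncomputable def rl_s (B : Type) [Group B] (x : B) : Equiv.Perm (ZMod (Nat.card B) × B) where
  toFun p := (p.1, x ^ p.1.val * p.2)
  invFun p := (p.1, (x ^ p.1.val)⁻¹ * p.2)
  left_inv := by rintro ⟨i, y⟩; simp
  right_inv := by rintro ⟨i, y⟩; simp

/-- JOB Rl (1).  Every diagonal element is a commutator.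
PROOF.  `d := Nat.card B`, `NeZero d`.  `r : (i, b) ↦ (i - 1, b)`, `s : (i, b) ↦ (i, x ^ i.val * b)`.
`(r * s * r⁻¹ * s⁻¹) (i, b)`: `s⁻¹ ↦ (i, (x ^ i.val)⁻¹ b)`, `r⁻¹ ↦ (i + 1, ..)`,
`s ↦ (i + 1, x ^ (i + 1).val (x ^ i.val)⁻¹ b) = (i + 1, x b)`, `r ↦ (i, x b)`.
`x ^ (i + 1).val = x * x ^ i.val` since `x ^ d = 1` (`pow_card_eq_one'`) and
`(i + 1).val ≡ i.val + 1 mod d` (`ZMod.val_add`, `ZMod.val_one''`; `d = 1` is allowed). -/
theorem comm_dia (B : Type) [Group B] [Finite B] (x : B) :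
    ∃ r s : Equiv.Perm (ZMod (Nat.card B) × B), r * s * r⁻¹ * s⁻¹ = dia B x := by
  refine ⟨rl_r B, rl_s B x, Equiv.ext fun p => ?_⟩
  obtain ⟨i, y⟩ := p
  change ((i + 1 - 1, x ^ (i + 1).val * ((x ^ i.val)⁻¹ * y)) : ZMod (Nat.card B) × B) = (i, x * y)
  rw [rl_pow, add_sub_cancel_right, mul_assoc, mul_inv_cancel_left]

/-- The values on the boundaries. -/
theorem rl_dl {n : ℕ} {H : Type*} [Group H] (ρ : Fr n →* H) (h : ∀ k : Fin n, 3 ≤ (k : ℕ) →
    ρ (kk k) = 1) (l : ℕ) (h3 : 3 ≤ l) (hl : l ≤ n) : ρ (dl l) = ρ (dl 3) := by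
  induction l, h3 using Nat.le_induction with
  | base => rfl
  | succ l h3 ih => rw [dl_succ l hl, map_mul, ih (by omega), h ⟨l, hl⟩ h3, mul_one]

variable {n : ℕ}

/-- JOB Rl (2).  Prescribed values on the boundaries of the first two handles and on the whole
boundary.
PROOF.  `comm_dia` for `x`, `y` and `(x * y)⁻¹ * g` gives `(r₀, s₀)`, `(r₁, s₁)`, `(r₂, s₂)`;
`ρ := FreeGroup.lift` with handle `i ↦ (r_i, s_i)` for `i = 0, 1, 2` and `1` otherwise.
`ρ (kk i)` is the commutator: `dia x`, `dia y`, `dia ((x y)⁻¹ g)`, `1`.  `dl 1 = kk 0` (`dl`,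
`dl_succ`), `dl 3 = kk 0 * kk 1 * kk 2 ↦ dia g`, and `ρ (dl l) = dia g` for `3 ≤ l ≤ n` by
induction. -/
theorem real3 (hn : 3 ≤ n) (B : Type) [Group B] [Finite B] (x y g : B) :
    ∃ ρ : Fr n →* Equiv.Perm (ZMod (Nat.card B) × B), ρ (dl 1) = dia B x ∧
      ρ (kk ⟨1, by omega⟩) = dia B y ∧ ρ (dl n) = dia B g := by
  obtain ⟨r0, s0, h0⟩ := comm_dia B x
  obtain ⟨r1, s1, h1⟩ := comm_dia B y
  obtain ⟨r2, s2, h2⟩ := comm_dia B ((x * y)⁻¹ * g)
  let F : Fin n → Equiv.Perm (ZMod (Nat.card B) × B) := fun k =>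
    if (k : ℕ) = 0 then r0 else if (k : ℕ) = 1 then r1 else if (k : ℕ) = 2 then r2 else 1
  let F' : Fin n → Equiv.Perm (ZMod (Nat.card B) × B) := fun k =>
    if (k : ℕ) = 0 then s0 else if (k : ℕ) = 1 then s1 else if (k : ℕ) = 2 then s2 else 1
  let ρ : Fr n →* Equiv.Perm (ZMod (Nat.card B) × B) := FreeGroup.lift (Sum.elim F F')
  have hkk : ∀ k : Fin n, ρ (kk k) = F k * F' k * (F k)⁻¹ * (F' k)⁻¹ := by
    intro k
    simp only [ρ, kk, map_mul, map_inv, FreeGroup.lift_apply_of, Sum.elim_inl, Sum.elim_inr]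
  have e0 : ρ (kk ⟨0, by omega⟩) = dia B x := by
    rw [hkk, ← h0]
    rfl
  have e1 : ρ (kk ⟨1, by omega⟩) = dia B y := by
    rw [hkk, ← h1]
    rfl
  have e2 : ρ (kk ⟨2, by omega⟩) = dia B ((x * y)⁻¹ * g) := by
    rw [hkk, ← h2]
    rfl
  have e3 : ∀ k : Fin n, 3 ≤ (k : ℕ) → ρ (kk k) = 1 := by
    intro k hk
    have a1 : F k = 1 := by
      simp only [F]
      rw [if_neg (by omega), if_neg (by omega), if_neg (by omega)]
    have a2 : F' k = 1 := by
      simp only [F']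
      rw [if_neg (by omega), if_neg (by omega), if_neg (by omega)]
    rw [hkk, a1, a2]
    simp
  refine ⟨ρ, ?_, e1, ?_⟩
  · rw [dl_succ 0 (by omega), dl, one_mul]
    exact e0
  · rw [rl_dl ρ e3 n hn le_rfl, dl_succ 2 (by omega), dl_succ 1 (by omega), dl_succ 0 (by omega),
      dl, one_mul, map_mul, map_mul]
    rw [e1, e2]
    have e0' : ρ (kk ⟨0, by omega⟩) = dia B x := e0
    rw [e0', ← map_mul, ← map_mul]
    congr 1
    group

end

end Pool.MP_59b15d_al.H73E
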