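import Mathlib
import Pool.Agent.H.MP_59b15d_al.h73e.Ba
import Pool.Agent.H.MP_59b15d_al.h76r.Ru

set_option autoImplicit false

namespace Pool.MP_59b15d_al.H73E

open Pool.MP_59b15d_al.H24T Pool.MP_59b15d_al.H76R
open Pool.MP_59b15d_al.H76 (InnMod congSub mem_congSub congSub_normal congSub_finiteIndex
  conj_innMod innMod_mono apply_mem_of_char exists_char_le comap_fi map_fi surf_fg inf_char
  finite_hom)
open FreeGroup (of)

section

variable {n : ℕ}

/-- A permutation of `E × Q`: left translation, twisted outside `K`. -/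
noncomputable def fx3aGen {E Q : Type*} [Group E] [Group Q] (K : Subgroup E) (g : E) (q : Q) :
    Equiv.Perm (E × Q) := by
  classical
  exact
  { toFun := fun p => (g * p.1, (if p.1 ∈ K then 1 else q) * p.2)
    invFun := fun p => (g⁻¹ * p.1, (if g⁻¹ * p.1 ∈ K then 1 else q)⁻¹ * p.2)
    left_inv := by
      intro p
      simp only [inv_mul_cancel_left]
    right_inv := by
      intro p
      simp only [mul_inv_cancel_left] }

theorem fx3a_gen {E Q : Type*} [Group E] [Group Q] (K : Subgroup E) (g : E) (q : Q)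
    [DecidablePred (· ∈ K)] (p : E × Q) :
    fx3aGen K g q p = (g * p.1, (if p.1 ∈ K then 1 else q) * p.2) := by
  unfold fx3aGen
  change (g * p.1, _) = _
  congr 2
  split_ifs <;> rfl

/-- JOB Fx3a.  Elements fixed by an automorphism which is the identity on the first handle and the
conjugation by `(z s)⁻¹` on the others (`s = dl 1`, `z = zl n 1`).

PROOF.  `Q := DihedralGroup 4`, `X := r 1`, `Y := sr 0`, `ζ := r 2`; `X * Y * X⁻¹ * Y⁻¹ = ζ`, `ζ`
is central, `ζ * ζ = 1`, `ζ ≠ 1` (all by `decide`).  `E := Fr n ⧸ U` finite,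
`π := QuotientGroup.mk' U`, `K := (FL n 1).map π`, `ε e : Bool` (or `Prop` with `if`): `e ∉ K`;
for `q : Q` write `q ^ ε e := if e ∈ K then 1 else q`.  `ε (k * e) = ε e` for `k ∈ K`.
`Φ : Fr n →* Equiv.Perm (E × Q)`: `Φ (a 0) (e, t) = (π a0 * e, X ^ ε e * t)`,
`Φ (b 0) (e, t) = (π b0 * e, Y ^ ε e * t)`, `Φ x (e, t) = (π x * e, t)` for the other generators
(`FreeGroup.lift`; the inverse of `a 0` is `(e, t) ↦ ((π a0)⁻¹ e, (X ^ ε e)⁻¹ t)`).
`dl 1 = kk 0`: `Φ s (e, t) = (π s * e, ζ ^ ε e * t)`; `Φ z (e, t) = (π z * e, t)` (`z` lies in the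
subgroup `FH n` generated by the other generators: `zl n 1 ∈ FH n` by induction,
`(dl 1)⁻¹ * dl l ∈ FH n` for `1 ≤ l ≤ n`; and the set of `x` with `Φ x (e, t) = (π x e, t)` for all
`(e, t)` is a subgroup).  So `Φ (z s) (e, t) = (π (z s) e, ζ ^ ε e t)`.
`V := V₁ ⊓ U` with `V₁` from `exists_deep (Fr n) (Equiv.Perm (E × Q))`, `U` is characteristic.
Let `T` be as in the statement, `T̄` the induced automorphism of `E` (`QuotientGroup.congr`);
`T̄` fixes `K` pointwise (`T` fixes `FL n 1` pointwise), so `ε (T̄ e) = ε e`.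
`S : Equiv.Perm (E × Q)`, `S (e, t) = (T̄ e, ζ ^ ε e * t)`.
CLAIM `S * Φ x = Φ (T x) * S` for all `x`; enough for generators (the set of such `x` is a
subgroup).
* `x = a 0` (`b 0` the same): `S (Φ x (e, t)) = (T̄ (X̄ e), ζ ^ ε (X̄ e) X ^ ε e t)` (`X̄ := π a0`)
  and `Φ x (S (e, t)) = (X̄ T̄ e, X ^ ε (T̄ e) ζ ^ ε e t)`: equal (`ζ` central).
* `x` in another handle, `T x = (z s)⁻¹ x (z s)`: prove `Φ (z s) (S (Φ x (e, t))) =
  Φ x (Φ (z s) (S (e, t)))`.  `S (Φ x (e, t)) = (T̄ (x̄ e), ζ ^ ε (x̄ e) t)`; `Φ (z s)` of it is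
  `(.., ζ ^ ε (T̄ (x̄ e)) ζ ^ ε (x̄ e) t) = (.., t)` since `ζ ^ 2 = 1`.  On the other side
  `Φ (z s) (T̄ e, ζ ^ ε e t) = (.., ζ ^ ε (T̄ e) ζ ^ ε e t) = (.., t)`, and `Φ x` does not change `t`.
  First coordinates: `T̄ (x̄ e) = (z s)⁻¹ x̄ (z s) T̄ e`.
If `T x * x⁻¹ ∈ V`, then `Φ (T x) = Φ x`, so `S (Φ x (1, 1)) = Φ x (S (1, 1)) = Φ x (1, 1)`; with
`Φ x (1, 1) = (π x, q)` this gives `ζ ^ ε (π x) * q = q`, so `π x ∈ K`, which is the claim. -/
theorem Fx3a (hn : 1 < n) (U : Subgroup (Fr n)) (hU : U.Characteristic) (hf : U.FiniteIndex) :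
    ∃ V : Subgroup (Fr n), V.Characteristic ∧ V.FiniteIndex ∧ V ≤ U ∧
      ∀ T : MulAut (Fr n),
        (∀ k : Fin n, (k : ℕ) = 0 → T (of (Sum.inl k)) = of (Sum.inl k) ∧
          T (of (Sum.inr k)) = of (Sum.inr k)) →
        (∀ k : Fin n, 1 ≤ (k : ℕ) →
          T (of (Sum.inl k)) = (zl n 1 * dl 1)⁻¹ * of (Sum.inl k) * (zl n 1 * dl 1) ∧
          T (of (Sum.inr k)) = (zl n 1 * dl 1)⁻¹ * of (Sum.inr k) * (zl n 1 * dl 1)) →
        ∀ x : Fr n, T x * x⁻¹ ∈ V → ∃ y ∈ FL n 1, x * y⁻¹ ∈ U := by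
  classical
  have hnorm : U.Normal := inferInstance
  have hfin : Finite (Fr n ⧸ U) := inferInstance
  have hn0 : 0 < n := by omega
  let π : Fr n →* Fr n ⧸ U := QuotientGroup.mk' U
  let K : Subgroup (Fr n ⧸ U) := (FL n 1).map π
  let X : DihedralGroup 4 := DihedralGroup.r 1
  let Y : DihedralGroup 4 := DihedralGroup.sr 0
  let ζ : DihedralGroup 4 := DihedralGroup.r 2
  have hXY : X * Y * X⁻¹ * Y⁻¹ = ζ := by decide
  have hζc : ∀ q : DihedralGroup 4, ζ * q = q * ζ := by decide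
  have hζ2 : ζ * ζ = 1 := by decide
  have hζ1 : ζ ≠ 1 := by decide
  let qx : Fin n ⊕ Fin n → DihedralGroup 4 :=
    Sum.elim (fun i => if (i : ℕ) = 0 then X else 1) (fun i => if (i : ℕ) = 0 then Y else 1)
  let Φ : Fr n →* Equiv.Perm ((Fr n ⧸ U) × DihedralGroup 4) :=
    FreeGroup.lift (fun x => fx3aGen K (π (of x)) (qx x))
  have hΦ : ∀ x p, Φ (of x) p = (π (of x) * p.1, (if p.1 ∈ K then 1 else qx x) * p.2) := by
    intro x p
    have h1 : Φ (of x) = fx3aGen K (π (of x)) (qx x) := by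
      simp only [Φ, FreeGroup.lift_apply_of]
    rw [h1, fx3a_gen]
  have hinvΦ : ∀ (y : Fr n) (p), Φ y (Φ y⁻¹ p) = p := by
    intro y p
    rw [← Equiv.Perm.mul_apply, ← map_mul, mul_inv_cancel, map_one]
    rfl
  have hfst : ∀ (x : Fr n) (p), (Φ x p).1 = π x * p.1 := by
    intro x
    induction x using fr_induction with
    | h1 => intro p; simp
    | ha i => intro p; rw [hΦ]
    | hb i => intro p; rw [hΦ]
    | hm x y hx hy => intro p; rw [map_mul, Equiv.Perm.mul_apply, hx, hy, map_mul, mul_assoc]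
    | hi x hx =>
      intro p
      have h1 := hx (Φ x⁻¹ p)
      rw [hinvΦ] at h1
      rw [h1, map_inv π, inv_mul_cancel_left]
  have hKm : ∀ q ∈ K, ∀ e, q * e ∈ K ↔ e ∈ K := fun q hq e => Subgroup.mul_mem_cancel_left K hq
  have ha0 : π (of (Sum.inl ⟨0, hn0⟩)) ∈ K := ⟨_, a_FL (by simp), rfl⟩
  have hb0 : π (of (Sum.inr ⟨0, hn0⟩)) ∈ K := ⟨_, b_FL (by simp), rfl⟩
  -- the action of the boundary of the first handle
  have hs : ∀ p, Φ (dl 1) p = (π (dl 1) * p.1, (if p.1 ∈ K then 1 else ζ) * p.2) := by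
    intro p
    have hd : (dl 1 : Fr n) = kk ⟨0, hn0⟩ := by
      rw [dl_succ 0 hn0, dl, one_mul]
    have h1 : kk (⟨0, hn0⟩ : Fin n) * (of (Sum.inr ⟨0, hn0⟩) * of (Sum.inl ⟨0, hn0⟩)) =
        of (Sum.inl ⟨0, hn0⟩) * of (Sum.inr ⟨0, hn0⟩) := by
      rw [kk]
      group
    obtain ⟨p', hp'⟩ : ∃ p', p = Φ (of (Sum.inr ⟨0, hn0⟩) * of (Sum.inl ⟨0, hn0⟩)) p' :=
      ⟨_, (hinvΦ _ _).symm⟩
    have h2 : Φ (dl 1) p = Φ (of (Sum.inl ⟨0, hn0⟩) * of (Sum.inr ⟨0, hn0⟩)) p' := by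
      rw [hp', hd, ← Equiv.Perm.mul_apply, ← map_mul, h1]
    have h3 : p = (π (of (Sum.inr ⟨0, hn0⟩)) * (π (of (Sum.inl ⟨0, hn0⟩)) * p'.1),
        (if p'.1 ∈ K then 1 else Y) * ((if p'.1 ∈ K then 1 else X) * p'.2)) := by
      rw [hp', map_mul, Equiv.Perm.mul_apply, hΦ, hΦ]
      simp only [hKm _ ha0]
      simp [qx]
    have h4 : Φ (dl 1) p = (π (of (Sum.inl ⟨0, hn0⟩)) * (π (of (Sum.inr ⟨0, hn0⟩)) * p'.1),
        (if p'.1 ∈ K then 1 else X) * ((if p'.1 ∈ K then 1 else Y) * p'.2)) := by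
      rw [h2, map_mul, Equiv.Perm.mul_apply, hΦ, hΦ]
      simp only [hKm _ hb0]
      simp [qx]
    have h5 : p.1 ∈ K ↔ p'.1 ∈ K := by
      rw [h3, hKm _ hb0, hKm _ ha0]
    apply Prod.ext
    · exact hfst _ _
    · rw [h4]
      simp only [h5]
      rw [h3]
      simp only []
      split_ifs
      · simp
      · rw [← hXY]
        group
  let S0 : Subgroup (Fr n) :=
    { carrier := {y | ∀ p, (Φ y p).2 = p.2}
      one_mem' := by intro p; simp
      mul_mem' := by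
        intro x y hx hy p
        rw [map_mul, Equiv.Perm.mul_apply, hx, hy]
      inv_mem' := by
        intro x hx p
        have h1 := hx (Φ x⁻¹ p)
        rw [hinvΦ] at h1
        exact h1.symm }
  have hS0a : ∀ i : Fin n, 1 ≤ (i : ℕ) → of (Sum.inl i) ∈ S0 := by
    intro i hi p
    rw [hΦ]
    simp only [qx, Sum.elim_inl]
    rw [if_neg (show ¬ (i : ℕ) = 0 by omega)]
    split_ifs <;> simp
  have hS0b : ∀ i : Fin n, 1 ≤ (i : ℕ) → of (Sum.inr i) ∈ S0 := by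
    intro i hi p
    rw [hΦ]
    simp only [qx, Sum.elim_inr]
    rw [if_neg (show ¬ (i : ℕ) = 0 by omega)]
    split_ifs <;> simp
  have hS0kk : ∀ i : Fin n, 1 ≤ (i : ℕ) → kk i ∈ S0 := by
    intro i hi
    rw [kk]
    exact S0.mul_mem (S0.mul_mem (S0.mul_mem (hS0a i hi) (hS0b i hi)) (S0.inv_mem (hS0a i hi)))
      (S0.inv_mem (hS0b i hi))
  have hz0 : ∀ l, l + 1 ≤ n → ((dl 1)⁻¹ * dl (l + 1) : Fr n) ∈ S0 := by
    intro l
    induction l with
    | zero => intro _; rw [zero_add, inv_mul_cancel]; exact S0.one_mem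
    | succ l ih =>
      intro hl
      rw [dl_succ (l + 1) (by omega), ← mul_assoc]
      exact S0.mul_mem (ih (by omega)) (hS0kk _ (by simp))
  have hz : ∀ p, (Φ (zl n 1) p).2 = p.2 := by
    obtain ⟨l, rfl⟩ : ∃ l, n = l + 1 := ⟨n - 1, by omega⟩
    exact hz0 l le_rfl
  set c : Fr n := zl n 1 * dl 1 with hc
  have hcΦ : ∀ p, Φ c p = (π c * p.1, (if p.1 ∈ K then 1 else ζ) * p.2) := by
    intro p
    apply Prod.ext
    · exact hfst _ _
    · rw [hc, map_mul, Equiv.Perm.mul_apply, hz, hs]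
  obtain ⟨V₁, hV₁c, hV₁f, hV₁⟩ := exists_deep (Fr n) (Equiv.Perm ((Fr n ⧸ U) × DihedralGroup 4))
  refine ⟨V₁ ⊓ U, inf_char hV₁c hU, inferInstance, inf_le_right, ?_⟩
  intro T hT0 hT1 x hx
  let τb : (Fr n ⧸ U) ≃* (Fr n ⧸ U) :=
    QuotientGroup.congr U U T (Subgroup.characteristic_iff_map_eq.mp hU T)
  have hτb : ∀ y, τb (π y) = π (T y) := fun y => rfl
  have hfixL : ∀ y ∈ FL n 1, T y = y := by
    intro y hy
    have h1 : FL n 1 ≤ MonoidHom.eqLocus T.toMonoidHom (MonoidHom.id _) := by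
      rw [FL, Subgroup.closure_le]
      rintro t ⟨k, hk, rfl | rfl⟩
      · exact (hT0 k (by omega)).1
      · exact (hT0 k (by omega)).2
    exact h1 hy
  have hfixK : ∀ q ∈ K, τb q = q := by
    rintro q ⟨y, hy, rfl⟩
    rw [hτb, hfixL y hy]
  have hτK : ∀ e, τb e ∈ K ↔ e ∈ K := by
    intro e
    constructor
    · intro h
      have h2 : τb (τb e) = τb e := hfixK _ h
      have h3 : τb e = e := τb.injective h2
      rw [← h3]
      exact h
    · intro h
      rw [hfixK e h]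
      exact h
  let S : (Fr n ⧸ U) × DihedralGroup 4 → (Fr n ⧸ U) × DihedralGroup 4 :=
    fun p => (τb p.1, (if p.1 ∈ K then 1 else ζ) * p.2)
  have hζζ : ∀ (Q : Prop) [Decidable Q] (t : DihedralGroup 4),
      (if Q then 1 else ζ) * ((if Q then 1 else ζ) * t) = t := by
    intro Q _ t
    split_ifs
    · simp
    · rw [← mul_assoc, hζ2, one_mul]
  have key0 : ∀ y : Fin n ⊕ Fin n, T (of y) = of y → π (of y) ∈ K →
      ∀ p, S (Φ (of y) p) = Φ (T (of y)) (S p) := by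
    intro y hy hyK p
    rw [hy, hΦ, hΦ]
    apply Prod.ext
    · simp only [S]
      rw [map_mul, hτb, hy]
    · simp only [S, hKm _ hyK, hτK]
      split_ifs
      · simp
      · rw [← mul_assoc, ← mul_assoc, hζc]
  have key1 : ∀ y : Fin n ⊕ Fin n, T (of y) = c⁻¹ * of y * c → of y ∈ S0 →
      ∀ p, S (Φ (of y) p) = Φ (T (of y)) (S p) := by
    intro y hy hyS p
    have h1 : Φ c (S (Φ (of y) p)) = Φ (of y) (Φ c (S p)) := by
      apply Prod.ext
      · rw [hfst, hfst, hfst]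
        simp only [S]
        rw [hfst, map_mul τb, hτb, hy]
        have h9 : π (c⁻¹ * of y * c) = (π c)⁻¹ * π (of y) * π c := by
          rw [map_mul π _ c, map_mul π c⁻¹, map_inv π]
        rw [h9]
        group
      · rw [hyS (Φ c (S p)), hcΦ, hcΦ]
        simp only [S, hτK]
        rw [hζζ, hζζ, hyS p]
    have h2 : Φ (T (of y)) (S p) = Φ c⁻¹ (Φ (of y) (Φ c (S p))) := by
      rw [hy, map_mul, map_mul, Equiv.Perm.mul_apply, Equiv.Perm.mul_apply]
    rw [h2, ← h1, ← Equiv.Perm.mul_apply, ← map_mul, inv_mul_cancel, map_one]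
    rfl
  have claim : ∀ (y : Fr n) (p), S (Φ y p) = Φ (T y) (S p) := by
    intro y
    induction y using fr_induction with
    | h1 => intro p; simp
    | ha i =>
      intro p
      by_cases hi : (i : ℕ) = 0
      · exact key0 _ (hT0 i hi).1 ⟨_, a_FL (by omega), rfl⟩ p
      · exact key1 _ (hT1 i (by omega)).1 (hS0a i (by omega)) p
    | hb i =>
      intro p
      by_cases hi : (i : ℕ) = 0
      · exact key0 _ (hT0 i hi).2 ⟨_, b_FL (by omega), rfl⟩ p
      · exact key1 _ (hT1 i (by omega)).2 (hS0b i (by omega)) p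
    | hm x y hx hy =>
      intro p
      rw [map_mul, Equiv.Perm.mul_apply, hx, hy, map_mul, map_mul, Equiv.Perm.mul_apply]
    | hi x hx =>
      intro p
      have h1 := hx (Φ x⁻¹ p)
      rw [hinvΦ] at h1
      rw [h1, map_inv T, ← Equiv.Perm.mul_apply, ← map_mul, inv_mul_cancel, map_one]
      rfl
  have hx1 : Φ (T x) = Φ x := by
    have h1 := hV₁ Φ _ hx.1
    rw [map_mul, map_inv, mul_inv_eq_one] at h1
    exact h1
  have h2 := claim x (1, 1)
  have h3 : S (1, 1) = (1, 1) := by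
    simp only [S]
    rw [if_pos K.one_mem, map_one, mul_one]
  rw [h3, hx1] at h2
  have h4 : (Φ x (1, 1)).1 = π x := by rw [hfst, mul_one]
  have h5 : (if (Φ x (1, 1)).1 ∈ K then 1 else ζ) * (Φ x (1, 1)).2 = (Φ x (1, 1)).2 :=
    congrArg Prod.snd h2
  rw [h4] at h5
  have h7 : π x ∈ K := by
    by_contra hcon
    rw [if_neg hcon] at h5
    exact hζ1 (mul_eq_right.mp h5)
  obtain ⟨y, hy, hyx⟩ := h7
  refine ⟨y, hy, ?_⟩
  have h10 : π (x * y⁻¹) = 1 := by
    rw [map_mul, map_inv, hyx, mul_inv_cancel]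
  exact (QuotientGroup.eq_one_iff _).mp h10

end

end Pool.MP_59b15d_al.H73E
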