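import Mathlib
import Pool.Agent.H.MP_59b15d_al.h73e.Ba

set_option autoImplicit false

namespace Pool.MP_59b15d_al.H73E

open Pool.MP_59b15d_al.H24T Pool.MP_59b15d_al.H76R
open Pool.MP_59b15d_al.H76 (InnMod congSub mem_congSub congSub_normal congSub_finiteIndex
  conj_innMod innMod_mono apply_mem_of_char exists_char_le comap_fi map_fi surf_fg inf_char
  finite_hom)
open FreeGroup (of)

section

variable {n : ℕ}

/-- A permutation of `E × Q`: left translation, twisted outside `K`. -/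
noncomputable def fx3bGen {E Q : Type*} [Group E] [Group Q] (K : Subgroup E) (g : E) (q : Q) :
    Equiv.Perm (E × Q) := by
  classical
  exact
  { toFun := fun p => (g * p.1, (if p.1 ∈ K then 1 else q) * p.2)
    invFun := fun p => (g⁻¹ * p.1, (if g⁻¹ * p.1 ∈ K then 1 else q)⁻¹ * p.2)
    left_inv := by
      intro p
      simp only [inv_mul_cancel_left]
    right_inv := by
      intro p
      simp only [mul_inv_cancel_left] }

theorem fx3b_gen {E Q : Type*} [Group E] [Group Q] (K : Subgroup E) (g : E) (q : Q)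
    [DecidablePred (· ∈ K)] (p : E × Q) :
    fx3bGen K g q p = (g * p.1, (if p.1 ∈ K then 1 else q) * p.2) := by
  unfold fx3bGen
  change (g * p.1, _) = _
  congr 2
  split_ifs <;> rfl

/-- JOB Fx3b.  Elements fixed by an automorphism which is the identity on the handles `≥ 1` and the
conjugation by `z s` on the first one (`s = dl 1`, `z = zl n 1`).

PROOF (cf. job Fx3a).  `Q := DihedralGroup 4`, `X := r 1`, `Y := sr 0`, `ζ := r 2`;
`X * Y * X⁻¹ * Y⁻¹ = ζ` central, `ζ * ζ = 1`, `ζ ≠ 1` (by `decide`).  `E := Fr n ⧸ U` finite,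
`π := QuotientGroup.mk' U`, `K := (FH n).map π`; for `q : Q` write
`q ^ ε e := if e ∈ K then 1 else q`.  `ε (k * e) = ε e` for `k ∈ K`.
`Φ : Fr n →* Equiv.Perm (E × Q)`: for the handle `1` (index `⟨1, hn⟩`):
`Φ (a 1) (e, t) = (π a1 * e, X ^ ε e * t)`, `Φ (b 1) (e, t) = (π b1 * e, Y ^ ε e * t)`, and
`Φ x (e, t) = (π x * e, t)` for all other generators.
`Φ (kk 1) (e, t) = (π (kk 1) e, ζ ^ ε e t)`, and with `zl n 1 = kk 1 * r`, `r` a product of
generators of the handles `≥ 2` (and `π r ∈ K`): `Φ z (e, t) = (π z e, ζ ^ ε e t)`.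
(Prove by induction `Φ ((dl 1)⁻¹ * dl l) (e, t) = (.., ζ ^ ε e t)` for `2 ≤ l ≤ n`.)
`Φ s (e, t) = (π s e, t)` (`s = dl 1 = kk 0`).  So `Φ (z s) (e, t) = (.., ζ ^ ε (s e) t)`.
`V := V₁ ⊓ U` with `V₁` from `exists_deep (Fr n) (Equiv.Perm (E × Q))`.
Let `T` be as in the statement, `T̄` the induced automorphism of `E`; `T̄` fixes `K` pointwise, so
`ε (T̄ e) = ε e`.  `S (e, t) := (T̄ e, ζ ^ ε e * t)`.
CLAIM `S * Φ x = Φ (T x) * S` for all `x`; enough for generators.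
* `x` in a handle `≥ 1`, `T x = x`, `Φ x (e, t) = (x̄ e, q ^ ε e t)` with `q ∈ {X, Y, 1}`:
  `S (Φ x (e, t)) = (T̄ (x̄ e), ζ ^ ε (x̄ e) q ^ ε e t)`, `ε (x̄ e) = ε e`;
  `Φ x (S (e, t)) = (x̄ T̄ e, q ^ ε (T̄ e) ζ ^ ε e t)`: equal.
* `x ∈ {a 0, b 0}`, `T x = (z s) x (z s)⁻¹`: prove `S (Φ x p) = Φ (z s) (Φ x (Φ (z s)⁻¹ (S p)))`.
  `Φ (z s)⁻¹ (e, t) = ((z s)⁻¹ e, ζ ^ ε (s (z s)⁻¹ e) t) = (.., ζ ^ ε (z⁻¹ e) t) = (.., ζ ^ ε e t)`.
  So `Φ (z s)⁻¹ (T̄ e, ζ ^ ε e t) = ((z s)⁻¹ T̄ e, ζ ^ ε (T̄ e) ζ ^ ε e t) = ((z s)⁻¹ T̄ e, t)`;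
  then `Φ x`: `(x̄ (z s)⁻¹ T̄ e, t)`; then `Φ (z s)`: `(z s x̄ (z s)⁻¹ T̄ e, ζ ^ ε (s x̄ (z s)⁻¹ T̄ e) t)`,
  where `ε (s x̄ (z s)⁻¹ T̄ e) = ε (z s x̄ (z s)⁻¹ T̄ e) = ε (T̄ (x̄ e)) = ε (x̄ e)`.  And
  `S (Φ x (e, t)) = (T̄ (x̄ e), ζ ^ ε (x̄ e) t)`: equal.
If `T x * x⁻¹ ∈ V`, then `Φ (T x) = Φ x`, so `S (Φ x (1, 1)) = Φ x (S (1, 1)) = Φ x (1, 1)`; with
`Φ x (1, 1) = (π x, q)` this gives `ζ ^ ε (π x) * q = q`, so `π x ∈ K`, which is the claim. -/
theorem Fx3b (hn : 1 < n) (U : Subgroup (Fr n)) (hU : U.Characteristic) (hf : U.FiniteIndex) :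
    ∃ V : Subgroup (Fr n), V.Characteristic ∧ V.FiniteIndex ∧ V ≤ U ∧
      ∀ T : MulAut (Fr n),
        (∀ k : Fin n, 1 ≤ (k : ℕ) → T (of (Sum.inl k)) = of (Sum.inl k) ∧
          T (of (Sum.inr k)) = of (Sum.inr k)) →
        (∀ k : Fin n, (k : ℕ) = 0 →
          T (of (Sum.inl k)) = (zl n 1 * dl 1) * of (Sum.inl k) * (zl n 1 * dl 1)⁻¹ ∧
          T (of (Sum.inr k)) = (zl n 1 * dl 1) * of (Sum.inr k) * (zl n 1 * dl 1)⁻¹) →
        ∀ x : Fr n, T x * x⁻¹ ∈ V → ∃ y ∈ FH n, x * y⁻¹ ∈ U := by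
  classical
  have hnorm : U.Normal := inferInstance
  have hfin : Finite (Fr n ⧸ U) := inferInstance
  have hn0 : 0 < n := by omega
  let π : Fr n →* Fr n ⧸ U := QuotientGroup.mk' U
  let K : Subgroup (Fr n ⧸ U) := (FH n).map π
  let X : DihedralGroup 4 := DihedralGroup.r 1
  let Y : DihedralGroup 4 := DihedralGroup.sr 0
  let ζ : DihedralGroup 4 := DihedralGroup.r 2
  have hXY : X * Y * X⁻¹ * Y⁻¹ = ζ := by decide
  have hζc : ∀ q : DihedralGroup 4, ζ * q = q * ζ := by decide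
  have hζ2 : ζ * ζ = 1 := by decide
  have hζ1 : ζ ≠ 1 := by decide
  let qx : Fin n ⊕ Fin n → DihedralGroup 4 :=
    Sum.elim (fun i => if (i : ℕ) = 1 then X else 1) (fun i => if (i : ℕ) = 1 then Y else 1)
  let Φ : Fr n →* Equiv.Perm ((Fr n ⧸ U) × DihedralGroup 4) :=
    FreeGroup.lift (fun x => fx3bGen K (π (of x)) (qx x))
  have hΦ : ∀ x p, Φ (of x) p = (π (of x) * p.1, (if p.1 ∈ K then 1 else qx x) * p.2) := by
    intro x p
    have h1 : Φ (of x) = fx3bGen K (π (of x)) (qx x) := by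
      simp only [Φ, FreeGroup.lift_apply_of]
    rw [h1, fx3b_gen]
  have hinvΦ : ∀ (y : Fr n) (p), Φ y (Φ y⁻¹ p) = p := by
    intro y p
    rw [← Equiv.Perm.mul_apply, ← map_mul, mul_inv_cancel, map_one]
    rfl
  have hfst : ∀ (x : Fr n) (p), (Φ x p).1 = π x * p.1 := by
    intro x
    induction x using fr_induction with
    | h1 => intro p; simp
    | ha i => intro p; rw [hΦ]
    | hb i => intro p; rw [hΦ]
    | hm x y hx hy => intro p; rw [map_mul, Equiv.Perm.mul_apply, hx, hy, map_mul, mul_assoc]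
    | hi x hx =>
      intro p
      have h1 := hx (Φ x⁻¹ p)
      rw [hinvΦ] at h1
      rw [h1, map_inv π, inv_mul_cancel_left]
  have hKm : ∀ q ∈ K, ∀ e, q * e ∈ K ↔ e ∈ K := fun q hq e => Subgroup.mul_mem_cancel_left K hq
  have haK : ∀ i : Fin n, 1 ≤ (i : ℕ) → π (of (Sum.inl i)) ∈ K := fun i hi =>
    ⟨_, Subgroup.subset_closure ⟨i, hi, Or.inl rfl⟩, rfl⟩
  have hbK : ∀ i : Fin n, 1 ≤ (i : ℕ) → π (of (Sum.inr i)) ∈ K := fun i hi =>
    ⟨_, Subgroup.subset_closure ⟨i, hi, Or.inr rfl⟩, rfl⟩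
  have hkK : ∀ i : Fin n, 1 ≤ (i : ℕ) → π (kk i) ∈ K := by
    intro i hi
    rw [kk, map_mul, map_mul, map_mul, map_inv, map_inv]
    exact K.mul_mem (K.mul_mem (K.mul_mem (haK i hi) (hbK i hi)) (K.inv_mem (haK i hi)))
      (K.inv_mem (hbK i hi))
  -- the action of the boundary of the second handle
  have hk1 : ∀ p, (Φ (kk ⟨1, hn⟩) p).2 = (if p.1 ∈ K then 1 else ζ) * p.2 := by
    intro p
    have ha1 := haK ⟨1, hn⟩ le_rfl
    have hb1 := hbK ⟨1, hn⟩ le_rfl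
    have h1 : kk (⟨1, hn⟩ : Fin n) * (of (Sum.inr ⟨1, hn⟩) * of (Sum.inl ⟨1, hn⟩)) =
        of (Sum.inl ⟨1, hn⟩) * of (Sum.inr ⟨1, hn⟩) := by
      rw [kk]
      group
    obtain ⟨p', hp'⟩ : ∃ p', p = Φ (of (Sum.inr ⟨1, hn⟩) * of (Sum.inl ⟨1, hn⟩)) p' :=
      ⟨_, (hinvΦ _ _).symm⟩
    have h2 : Φ (kk ⟨1, hn⟩) p = Φ (of (Sum.inl ⟨1, hn⟩) * of (Sum.inr ⟨1, hn⟩)) p' := by
      rw [hp', ← Equiv.Perm.mul_apply, ← map_mul, h1]
    have h3 : p = (π (of (Sum.inr ⟨1, hn⟩)) * (π (of (Sum.inl ⟨1, hn⟩)) * p'.1),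
        (if p'.1 ∈ K then 1 else Y) * ((if p'.1 ∈ K then 1 else X) * p'.2)) := by
      rw [hp', map_mul, Equiv.Perm.mul_apply, hΦ, hΦ]
      simp only [hKm _ ha1]
      simp [qx]
    have h4 : Φ (kk ⟨1, hn⟩) p = (π (of (Sum.inl ⟨1, hn⟩)) * (π (of (Sum.inr ⟨1, hn⟩)) * p'.1),
        (if p'.1 ∈ K then 1 else X) * ((if p'.1 ∈ K then 1 else Y) * p'.2)) := by
      rw [h2, map_mul, Equiv.Perm.mul_apply, hΦ, hΦ]
      simp only [hKm _ hb1]
      simp [qx]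
    have h5 : p.1 ∈ K ↔ p'.1 ∈ K := by
      rw [h3, hKm _ hb1, hKm _ ha1]
    rw [h4]
    simp only [h5]
    rw [h3]
    simp only []
    split_ifs
    · simp
    · rw [← hXY]
      group
  let S0 : Subgroup (Fr n) :=
    { carrier := {y | ∀ p, (Φ y p).2 = p.2}
      one_mem' := by intro p; simp
      mul_mem' := by
        intro x y hx hy p
        rw [map_mul, Equiv.Perm.mul_apply, hx, hy]
      inv_mem' := by
        intro x hx p
        have h1 := hx (Φ x⁻¹ p)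
        rw [hinvΦ] at h1
        exact h1.symm }
  have hS0a : ∀ i : Fin n, (i : ℕ) ≠ 1 → of (Sum.inl i) ∈ S0 := by
    intro i hi p
    rw [hΦ]
    simp only [qx, Sum.elim_inl]
    rw [if_neg hi]
    split_ifs <;> simp
  have hS0b : ∀ i : Fin n, (i : ℕ) ≠ 1 → of (Sum.inr i) ∈ S0 := by
    intro i hi p
    rw [hΦ]
    simp only [qx, Sum.elim_inr]
    rw [if_neg hi]
    split_ifs <;> simp
  have hS0kk : ∀ i : Fin n, (i : ℕ) ≠ 1 → kk i ∈ S0 := by
    intro i hi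
    rw [kk]
    exact S0.mul_mem (S0.mul_mem (S0.mul_mem (hS0a i hi) (hS0b i hi)) (S0.inv_mem (hS0a i hi)))
      (S0.inv_mem (hS0b i hi))
  have hz0 : ∀ l, l + 2 ≤ n → ∀ p, (Φ ((dl 1)⁻¹ * dl (l + 2)) p).2 =
      (if p.1 ∈ K then 1 else ζ) * p.2 := by
    intro l
    induction l with
    | zero =>
      intro _ p
      have h1 : (dl 1)⁻¹ * dl (0 + 2) = kk (⟨1, hn⟩ : Fin n) := by
        rw [zero_add, dl_succ 1 hn, inv_mul_cancel_left]
      rw [h1, hk1]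
    | succ l ih =>
      intro hl p
      rw [dl_succ (l + 2) (by omega), ← mul_assoc, map_mul, Equiv.Perm.mul_apply, ih (by omega),
        hfst, hS0kk ⟨l + 2, by omega⟩ (by simp) p]
      simp only [hKm _ (hkK ⟨l + 2, by omega⟩ (by simp))]
  have hzK0 : ∀ l, l + 1 ≤ n → π ((dl 1)⁻¹ * dl (l + 1)) ∈ K := by
    intro l
    induction l with
    | zero => intro _; rw [zero_add, inv_mul_cancel, map_one]; exact K.one_mem
    | succ l ih =>
      intro hl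
      rw [dl_succ (l + 1) (by omega), ← mul_assoc, map_mul]
      exact K.mul_mem (ih (by omega)) (hkK _ (by simp))
  have hz : ∀ p, (Φ (zl n 1) p).2 = (if p.1 ∈ K then 1 else ζ) * p.2 := by
    obtain ⟨l, rfl⟩ : ∃ l, n = l + 2 := ⟨n - 2, by omega⟩
    exact hz0 l le_rfl
  have hzK : π (zl n 1) ∈ K := by
    obtain ⟨l, rfl⟩ : ∃ l, n = l + 1 := ⟨n - 1, by omega⟩
    exact hzK0 l le_rfl
  have hs : ∀ p, (Φ (dl 1) p).2 = p.2 := by
    have hd : (dl 1 : Fr n) = kk ⟨0, hn0⟩ := by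
      rw [dl_succ 0 hn0, dl, one_mul]
    rw [hd]
    exact hS0kk ⟨0, hn0⟩ (by simp)
  set c : Fr n := zl n 1 * dl 1 with hc
  have hcΦ : ∀ p, (Φ c p).2 = (if π c * p.1 ∈ K then 1 else ζ) * p.2 := by
    intro p
    have h1 : π c * p.1 ∈ K ↔ π (dl 1) * p.1 ∈ K := by
      rw [hc, map_mul, mul_assoc, hKm _ hzK]
    simp only [h1]
    rw [hc, map_mul, Equiv.Perm.mul_apply, hz, hs, hfst]
  have hζi : ζ⁻¹ = ζ := by decide
  have hcΦi : ∀ p, (Φ c⁻¹ p).2 = (if p.1 ∈ K then 1 else ζ) * p.2 := by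
    intro p
    have h1 := hcΦ (Φ c⁻¹ p)
    rw [hinvΦ, hfst, map_inv, mul_inv_cancel_left] at h1
    rw [h1]
    split_ifs
    · simp
    · rw [← mul_assoc, hζ2, one_mul]
  obtain ⟨V₁, hV₁c, hV₁f, hV₁⟩ := exists_deep (Fr n) (Equiv.Perm ((Fr n ⧸ U) × DihedralGroup 4))
  refine ⟨V₁ ⊓ U, inf_char hV₁c hU, inferInstance, inf_le_right, ?_⟩
  intro T hT1 hT0 x hx
  let τb : (Fr n ⧸ U) ≃* (Fr n ⧸ U) :=
    QuotientGroup.congr U U T (Subgroup.characteristic_iff_map_eq.mp hU T)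
  have hτb : ∀ y, τb (π y) = π (T y) := fun y => rfl
  have hfixL : ∀ y ∈ FH n, T y = y := by
    intro y hy
    have h1 : FH n ≤ MonoidHom.eqLocus T.toMonoidHom (MonoidHom.id _) := by
      rw [FH, Subgroup.closure_le]
      rintro t ⟨k, hk, rfl | rfl⟩
      · exact (hT1 k hk).1
      · exact (hT1 k hk).2
    exact h1 hy
  have hfixK : ∀ q ∈ K, τb q = q := by
    rintro q ⟨y, hy, rfl⟩
    rw [hτb, hfixL y hy]
  have hτK : ∀ e, τb e ∈ K ↔ e ∈ K := by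
    intro e
    constructor
    · intro h
      have h2 : τb (τb e) = τb e := hfixK _ h
      have h3 : τb e = e := τb.injective h2
      rw [← h3]
      exact h
    · intro h
      rw [hfixK e h]
      exact h
  let S : (Fr n ⧸ U) × DihedralGroup 4 → (Fr n ⧸ U) × DihedralGroup 4 :=
    fun p => (τb p.1, (if p.1 ∈ K then 1 else ζ) * p.2)
  have hζζ : ∀ (Q : Prop) [Decidable Q] (t : DihedralGroup 4),
      (if Q then 1 else ζ) * ((if Q then 1 else ζ) * t) = t := by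
    intro Q _ t
    split_ifs
    · simp
    · rw [← mul_assoc, hζ2, one_mul]
  have key1 : ∀ y : Fin n ⊕ Fin n, T (of y) = of y → π (of y) ∈ K →
      ∀ p, S (Φ (of y) p) = Φ (T (of y)) (S p) := by
    intro y hy hyK p
    rw [hy, hΦ, hΦ]
    apply Prod.ext
    · simp only [S]
      rw [map_mul, hτb, hy]
    · simp only [S, hKm _ hyK, hτK]
      split_ifs
      · simp
      · rw [← mul_assoc, ← mul_assoc, hζc]
  have key0 : ∀ y : Fin n ⊕ Fin n, T (of y) = c * of y * c⁻¹ → of y ∈ S0 →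
      ∀ p, S (Φ (of y) p) = Φ (T (of y)) (S p) := by
    intro y hy hyS p
    have h9 : π (c * of y * c⁻¹) = π c * π (of y) * (π c)⁻¹ := by
      rw [map_mul π _ c⁻¹, map_mul π c, map_inv π]
    have h2 : Φ (T (of y)) (S p) = Φ c (Φ (of y) (Φ c⁻¹ (S p))) := by
      rw [hy, map_mul, map_mul, Equiv.Perm.mul_apply, Equiv.Perm.mul_apply]
    have h8 : τb (π (of y) * p.1) = π c * (π (of y) * (π c⁻¹ * τb p.1)) := by
      rw [map_mul τb, hτb, hy, h9, map_inv π]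
      group
    rw [h2]
    apply Prod.ext
    · rw [hfst, hfst, hfst]
      simp only [S]
      rw [hfst, h8]
    · rw [hcΦ, hyS, hcΦi, hfst, hfst]
      simp only [S, hτK]
      rw [hζζ, ← h8]
      simp only [hτK]
      rw [hfst, hyS p]
  have claim : ∀ (y : Fr n) (p), S (Φ y p) = Φ (T y) (S p) := by
    intro y
    induction y using fr_induction with
    | h1 => intro p; simp
    | ha i =>
      intro p
      by_cases hi : (i : ℕ) = 0
      · exact key0 _ (hT0 i hi).1 (hS0a i (by omega)) p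
      · exact key1 _ (hT1 i (by omega)).1 (haK i (by omega)) p
    | hb i =>
      intro p
      by_cases hi : (i : ℕ) = 0
      · exact key0 _ (hT0 i hi).2 (hS0b i (by omega)) p
      · exact key1 _ (hT1 i (by omega)).2 (hbK i (by omega)) p
    | hm x y hx hy =>
      intro p
      rw [map_mul, Equiv.Perm.mul_apply, hx, hy, map_mul, map_mul, Equiv.Perm.mul_apply]
    | hi x hx =>
      intro p
      have h1 := hx (Φ x⁻¹ p)
      rw [hinvΦ] at h1
      rw [h1, map_inv T, ← Equiv.Perm.mul_apply, ← map_mul, inv_mul_cancel, map_one]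
      rfl
  have hx1 : Φ (T x) = Φ x := by
    have h1 := hV₁ Φ _ hx.1
    rw [map_mul, map_inv, mul_inv_eq_one] at h1
    exact h1
  have h2 := claim x (1, 1)
  have h3 : S (1, 1) = (1, 1) := by
    simp only [S]
    rw [if_pos K.one_mem, map_one, mul_one]
  rw [h3, hx1] at h2
  have h4 : (Φ x (1, 1)).1 = π x := by rw [hfst, mul_one]
  have h5 : (if (Φ x (1, 1)).1 ∈ K then 1 else ζ) * (Φ x (1, 1)).2 = (Φ x (1, 1)).2 :=
    congrArg Prod.snd h2
  rw [h4] at h5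
  have h7 : π x ∈ K := by
    by_contra hcon
    rw [if_neg hcon] at h5
    exact hζ1 (mul_eq_right.mp h5)
  obtain ⟨y, hy, hyx⟩ := h7
  refine ⟨y, hy, ?_⟩
  have h10 : π (x * y⁻¹) = 1 := by
    rw [map_mul, map_inv, hyx, mul_inv_cancel]
  exact (QuotientGroup.eq_one_iff _).mp h10

end

end Pool.MP_59b15d_al.H73E
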