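import Mathlib
import Pool.Agent.H.MP_59b15d_al.h73e.Fx3b
import Pool.Agent.H.MP_59b15d_al.h73e.Rl
import Pool.Agent.H.MP_59b15d_al.h76r.Ru

set_option autoImplicit false

namespace Pool.MP_59b15d_al.H73E

open Pool.MP_59b15d_al.H24T Pool.MP_59b15d_al.H76R
open Pool.MP_59b15d_al.H76 (InnMod congSub mem_congSub congSub_normal congSub_finiteIndex
  conj_innMod innMod_mono apply_mem_of_char exists_char_le comap_fi map_fi surf_fg inf_char
  finite_hom)
open FreeGroup (of)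

section

variable {n : ℕ}

/-- JOB Rk (1).  A homomorphism killing the boundary with given values on the first handle.
PROOF.  `A := π (a 0)`, `B' := π (b 0)`; `ρ := FreeGroup.lift`: `a 0 ↦ A`, `b 0 ↦ B'`, `a 1 ↦ B'`,
`b 1 ↦ A`, all other generators `↦ 1`.  `ρ (kk 0) * ρ (kk 1) = A B' A⁻¹ B'⁻¹ * (B' A B'⁻¹ A⁻¹) = 1`,
`ρ (kk k) = 1` for `k ≥ 2`; so `ρ (dl l) = 1` for `2 ≤ l ≤ n` by induction.  On `FL n 1`: closure
induction (or `closure_le` with `MonoidHom.eqLocus`). -/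
theorem real_K (hn : 1 < n) {B : Type*} [Group B] (π : Fr n →* B) :
    ∃ ρ : Fr n →* B, ρ (dl n) = 1 ∧ ∀ x ∈ FL n 1, ρ x = π x := by
  have h0n : 0 < n := by omega
  let fa : Fin n → B := fun k => if (k : ℕ) = 0 then π (of (Sum.inl ⟨0, h0n⟩)) else
    if (k : ℕ) = 1 then π (of (Sum.inr ⟨0, h0n⟩)) else 1
  let fb : Fin n → B := fun k => if (k : ℕ) = 0 then π (of (Sum.inr ⟨0, h0n⟩)) else
    if (k : ℕ) = 1 then π (of (Sum.inl ⟨0, h0n⟩)) else 1
  let ρ : Fr n →* B := FreeGroup.lift (Sum.elim fa fb)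
  have hra : ∀ k, ρ (of (Sum.inl k)) = fa k := fun k => by simp [ρ]
  have hrb : ∀ k, ρ (of (Sum.inr k)) = fb k := fun k => by simp [ρ]
  have hkk : ∀ k, ρ (kk k) = fa k * fb k * (fa k)⁻¹ * (fb k)⁻¹ := by
    intro k
    rw [kk, map_mul, map_mul, map_mul, map_inv, map_inv, hra, hrb]
  have hdl : ∀ l, 2 ≤ l → l ≤ n → ρ (dl l) = 1 := by
    intro l hl
    induction l, hl using Nat.le_induction with
    | base =>
      intro _
      rw [dl_succ 1 hn, dl_succ 0 h0n, dl, one_mul, map_mul, hkk, hkk]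
      simp only [fa, fb, if_true, one_ne_zero, if_false]
      group
    | succ l hl ih =>
      intro h
      rw [dl_succ l (by omega), map_mul, ih (by omega), hkk]
      have h1 : ¬ (l = 0) := by omega
      have h2 : ¬ (l = 1) := by omega
      simp [fa, fb, h1, h2]
  refine ⟨ρ, hdl n hn le_rfl, ?_⟩
  have hle : FL n 1 ≤ MonoidHom.eqLocus ρ π := by
    rw [FL, Subgroup.closure_le]
    rintro z ⟨k, hk, rfl | rfl⟩
    · have hk0 : k = ⟨0, h0n⟩ := Fin.ext (by simpa using hk)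
      change ρ (of (Sum.inl k)) = π (of (Sum.inl k))
      rw [hra, hk0]
      simp [fa]
    · have hk0 : k = ⟨0, h0n⟩ := Fin.ext (by simpa using hk)
      change ρ (of (Sum.inr k)) = π (of (Sum.inr k))
      rw [hrb, hk0]
      simp [fb]
  exact fun x hx => hle hx

theorem rk_zl_FH (l : ℕ) (hl : 1 ≤ l) (hln : l ≤ n) : (dl 1)⁻¹ * dl l ∈ FH n := by
  induction l, hl using Nat.le_induction with
  | base => rw [inv_mul_cancel]; exact one_mem _
  | succ l hl ih =>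
    rw [dl_succ l (by omega), ← mul_assoc]
    refine mul_mem (ih (by omega)) ?_
    have h1 : (of (Sum.inl (⟨l, by omega⟩ : Fin n)) : Fr n) ∈ FH n :=
      Subgroup.subset_closure ⟨⟨l, by omega⟩, hl, Or.inl rfl⟩
    have h2 : (of (Sum.inr (⟨l, by omega⟩ : Fin n)) : Fr n) ∈ FH n :=
      Subgroup.subset_closure ⟨⟨l, by omega⟩, hl, Or.inr rfl⟩
    rw [kk]
    exact mul_mem (mul_mem (mul_mem h1 h2) (inv_mem h1)) (inv_mem h2)

/-- JOB Rk (2).  A homomorphism killing the boundary with given values on the handles `≥ 1`.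
PROOF.  `comm_dia B ((π (zl n 1))⁻¹)` gives `r, s`; `ρ := FreeGroup.lift`: `a 0 ↦ r`, `b 0 ↦ s`,
all other generators `x ↦ dia B (π (of x))`.  On `FH n`: `closure_le` with `MonoidHom.eqLocus`.
`zl n 1 ∈ FH n` (`(dl 1)⁻¹ * dl l ∈ FH n` for `1 ≤ l ≤ n` by induction, `dl_succ`), so
`ρ (dl n) = ρ (dl 1) * ρ (zl n 1) = dia (π (zl n 1))⁻¹ * dia (π (zl n 1)) = 1`
(`dl_mul_zl`; `ρ (dl 1) = ρ (kk 0) = r * s * r⁻¹ * s⁻¹`). -/
theorem real_K' (hn : 0 < n) {B : Type} [Group B] [Finite B] (π : Fr n →* B) :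
    ∃ ρ : Fr n →* Equiv.Perm (ZMod (Nat.card B) × B), ρ (dl n) = 1 ∧
      ∀ x ∈ FH n, ρ x = dia B (π x) := by
  obtain ⟨r, t, hrt⟩ := comm_dia B ((π (zl n 1))⁻¹)
  let fa : Fin n → Equiv.Perm (ZMod (Nat.card B) × B) := fun k =>
    if (k : ℕ) = 0 then r else dia B (π (of (Sum.inl k)))
  let fb : Fin n → Equiv.Perm (ZMod (Nat.card B) × B) := fun k =>
    if (k : ℕ) = 0 then t else dia B (π (of (Sum.inr k)))
  let ρ : Fr n →* Equiv.Perm (ZMod (Nat.card B) × B) := FreeGroup.lift (Sum.elim fa fb)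
  have hra : ∀ k, ρ (of (Sum.inl k)) = fa k := fun k => by simp [ρ]
  have hrb : ∀ k, ρ (of (Sum.inr k)) = fb k := fun k => by simp [ρ]
  have hle : FH n ≤ MonoidHom.eqLocus ρ ((dia B).comp π) := by
    rw [FH, Subgroup.closure_le]
    rintro z ⟨k, hk, rfl | rfl⟩
    · change ρ (of (Sum.inl k)) = dia B (π (of (Sum.inl k)))
      rw [hra]
      exact if_neg (by omega)
    · change ρ (of (Sum.inr k)) = dia B (π (of (Sum.inr k)))
      rw [hrb]
      exact if_neg (by omega)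
  have hFH : ∀ x ∈ FH n, ρ x = dia B (π x) := fun x hx => hle hx
  refine ⟨ρ, ?_, hFH⟩
  have hz : zl n 1 ∈ FH n := rk_zl_FH n hn le_rfl
  have hd1 : ρ (dl 1) = r * t * r⁻¹ * t⁻¹ := by
    rw [dl_succ 0 hn, dl, one_mul, kk, map_mul, map_mul, map_mul, map_inv, map_inv, hra, hrb]
    simp [fa, fb]
  rw [← dl_mul_zl n 1, map_mul, hd1, hrt, hFH _ hz, ← map_mul, inv_mul_cancel, map_one]

end

end Pool.MP_59b15d_al.H73E
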