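import Mathlib
import Pool.Agent.H.MP_59b15d_al.h73e.Xa
import Pool.Agent.H.MP_59b15d_al.h73e.Cp2

set_option autoImplicit false

namespace Pool.MP_59b15d_al.H73E

open Pool.MP_59b15d_al.H24T Pool.MP_59b15d_al.H76R
open Pool.MP_59b15d_al.H76 (InnMod congSub mem_congSub congSub_normal congSub_finiteIndex
  conj_innMod innMod_mono apply_mem_of_char exists_char_le comap_fi map_fi surf_fg inf_char
  finite_hom)
open FreeGroup (of)

section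

variable {n : ℕ} {G : Type*} [Group G] {a b : Fin (n + 1) → G} {P : Type*} [Group P]
  {x y : Fin n → P}

theorem Xb_MMs {m : ℕ} (hm : 0 < m) {u v : Fin m → P} (hu : IsSurf u v) : MMs hu = TW hu := by
  obtain ⟨l, rfl⟩ : ∃ l, m = l + 1 := ⟨m - 1, by omega⟩
  exact MMs_eq_TW hu

/-- Automorphisms of the subsurface that are close to being central act almost trivially. -/
theorem pair_ac (h : IsSurf a b) (hn0 : 0 < n) (U₀ : Subgroup (Fr n)) (u1 : U₀.Normal)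
    (u2 : U₀.FiniteIndex) :
    ∃ (Γ : Subgroup G) (hc : Γ.Characteristic), Γ.FiniteIndex ∧ ∀ f' f, Pair h f' f →
      (∀ ψ ∈ MMs h, f * ψ * f⁻¹ * ψ⁻¹ ∈ congSub Γ hc) → ∀ z, f' z * z⁻¹ ∈ U₀ := by
  have hGfg : Group.FG G := surf_fg h
  let i0 : Fin n := ⟨0, hn0⟩
  obtain ⟨U', hU'n, hU'f, hU'le, hcen⟩ := Pool.MP_59b15d_al.H76.free_center
    (Sum.inl i0 : Fin n ⊕ Fin n) (Sum.inr i0) (by simp) U₀
  obtain ⟨Γ₀, h0n, h0f, -, hdet⟩ := detect h U' hU'n hU'f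
  obtain ⟨Γ₂, h2n, h2f, hcs⟩ := CS_aP h hn0 Γ₀ h0n h0f
  obtain ⟨Γ, hΓc, hΓf, hΓ⟩ := exists_char_le (Γ₂ ⊓ Γ₀) inferInstance
  refine ⟨Γ, hΓc, hΓf, ?_⟩
  intro f' f hp hcom y
  obtain ⟨k, hk⟩ := hp.fX y
  have h1 := hcom (XX h y) (XX_mem h y)
  have h2 : f * XX h y * f⁻¹ * (XX h y)⁻¹ = XX h (f' y * y⁻¹) * TT h ^ k * 1 := by
    have hc := (((TT_XX h y).zpow_left k).inv_right).eq
    rw [hk, mul_assoc, hc, map_mul, map_inv]
    group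
  rw [h2, mem_congSub] at h1
  obtain ⟨w, hw⟩ := h1
  have hfa : (XX h (f' y * y⁻¹) * TT h ^ k * 1) (aP a b) = aP a b := by
    rw [mul_one, MulAut.mul_apply, TT_aP, XX_aP]
  have hw1 : w * aP a b * w⁻¹ * (aP a b)⁻¹ ∈ Γ₂ := by
    have h3 := (hΓ (hw (aP a b))).1
    rw [hfa] at h3
    have h4 := Γ₂.inv_mem h3
    rw [mul_inv_rev, inv_inv] at h4
    exact h4
  obtain ⟨l, hl⟩ := hcs w hw1
  have hw2 : ∀ x, (XX h (f' y * y⁻¹) * TT h ^ k * 1) x *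
      (aP a b ^ (-l) * x * (aP a b ^ (-l))⁻¹)⁻¹ ∈ Γ₀ := by
    intro x
    rw [zpow_neg]
    exact conj_replace h0n (fun x => (hΓ (hw x)).2) hl x
  obtain ⟨d1, d2⟩ := hdet (f' y * y⁻¹) k (-l) 1 1 (fun _ => rfl) rfl hw2
  have h5 : ∀ z : Fr n, dl n ^ (-l) * z * (dl n ^ (-l))⁻¹ * z⁻¹ ∈ U' := by
    intro z
    have h6 := U'.inv_mem (d1 z)
    rw [mul_inv_rev, inv_inv] at h6
    exact h6
  have h7 := hcen (dl n ^ (-l)) (h5 _) (h5 _)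
  have h8 := U₀.mul_mem (hU'le d2) (U₀.inv_mem h7)
  rwa [mul_inv_cancel_right] at h8

/-- Bordered congruence implies closed congruence. -/
theorem bordered_closed (hn : 3 ≤ n) (h : IsSurf a b) (hP : IsSurf x y) (H : Subgroup (MulAut P))
    (hI : ∀ g : P, MulAut.conj g ∈ H) (W : Subgroup (Fr n)) (hW : W.FiniteIndex)
    (hH : ∀ f' f φ, Trip h hP f' f φ → f ∈ BMod a b → (∀ z, f' z * z⁻¹ ∈ W) → φ ∈ H) :
    ∃ Γ : Subgroup P, Γ.Characteristic ∧ Γ.FiniteIndex ∧ ∀ φ ∈ MMs hP, InnMod Γ φ → φ ∈ H := by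
  obtain ⟨U, hUc, hUf, hUW⟩ := exists_char_le W hW
  obtain ⟨Γ, hΓc, hΓf, hΓ⟩ := comparison hn h hP U hUc hUf
  refine ⟨Γ, hΓc, hΓf, ?_⟩
  have hΓn : Γ.Normal := inferInstance
  have hUn : U.Normal := inferInstance
  rintro φ hφ ⟨g₀, hg₀⟩
  let φ₁ : MulAut P := MulAut.conj g₀⁻¹ * φ
  have hφ₁ : φ₁ ∈ TW hP := by
    rw [← Xb_MMs (by omega) hP]
    exact Subgroup.mul_mem _ (Subgroup.subset_closure (Or.inl ⟨_, rfl⟩)) hφ
  have hφ₁2 : ∀ z, φ₁ z * z⁻¹ ∈ Γ := by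
    intro z
    have h1 := hΓn.conj_mem _ (hg₀ z) g₀⁻¹
    have h2 : g₀⁻¹ * (φ z * (g₀ * z * g₀⁻¹)⁻¹) * g₀⁻¹⁻¹ = φ₁ z * z⁻¹ := by
      change _ = g₀⁻¹ * φ z * g₀⁻¹⁻¹ * z⁻¹
      group
    rwa [h2] at h1
  obtain ⟨f, hf, f', ht⟩ := bm_surj h hP φ₁ hφ₁
  obtain ⟨k, hk⟩ := hΓ f' (fun u => Xh_equi ht.pair u) (pair_dl ht.pair) (fun z => by
    rw [map_mul, map_inv, ← ht.ind]
    exact hφ₁2 _)
  obtain ⟨T, hT⟩ := exists_bd h
  have ht2 := ((trip_bd h hP hT).zpow (-k)).mul ht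
  rw [one_zpow, one_mul] at ht2
  have hT1 : T ∈ BMod a b := Subgroup.subset_closure (Or.inr hT)
  have hT2 : T ^ (-k) * f ∈ BMod a b := Subgroup.mul_mem _ (Subgroup.zpow_mem _ hT1 _) hf
  have h3 : φ₁ ∈ H := by
    refine hH _ _ _ ht2 hT2 (fun z => hUW ?_)
    have h4 := hUn.conj_mem _ (hk z) (dl n ^ k)⁻¹
    have h5 : (MulAut.conj (dl n) ^ (-k) * f' : MulAut (Fr n)) z * z⁻¹ =
        (dl n ^ k)⁻¹ * (f' z * (dl n ^ k * z * (dl n ^ k)⁻¹)⁻¹) * (dl n ^ k)⁻¹⁻¹ := by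
      rw [← map_zpow, MulAut.mul_apply, MulAut.conj_apply]
      group
    rw [h5]
    exact h4
  have h6 : φ = MulAut.conj g₀ * φ₁ := by
    change φ = MulAut.conj g₀ * (MulAut.conj g₀⁻¹ * φ)
    rw [← mul_assoc, ← map_mul, mul_inv_cancel, map_one, one_mul]
  rw [h6]
  exact H.mul_mem (hI _) h3

/-- The extension criterion. -/
theorem ext_tfae (hn : 3 ≤ n) (h : IsSurf a b) (hP : IsSurf x y) (H : Subgroup (MulAut P))
    (hI : ∀ g : P, MulAut.conj g ∈ H) :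
    List.TFAE [
      ∃ Γ : Subgroup P, Γ.Characteristic ∧ Γ.FiniteIndex ∧ ∀ φ ∈ MCG x y, InnMod Γ φ → φ ∈ H,
      ∃ W : Subgroup (FreeGroup (Fin n ⊕ Fin n)), W.FiniteIndex ∧ ∀ f ∈ BMod a b,
        (∀ z, ∃ w ∈ W, f (subHom a b n (Nat.le_succ n) z) =
          subHom a b n (Nat.le_succ n) (w * z)) → ∀ φ, Induces x y a b f φ → φ ∈ H,
      ∃ Γ : Subgroup G, Γ.Characteristic ∧ Γ.FiniteIndex ∧ ∀ f ∈ BMod a b, InnMod Γ f →
        ∀ φ, Induces x y a b f φ → φ ∈ H,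
      ∃ N : Subgroup (MulAut G), N.FiniteIndex ∧ (∀ g : G, MulAut.conj g ∈ N) ∧
        ∀ f ∈ BMod a b, (∀ ψ ∈ MCG a b, f * ψ * f⁻¹ * ψ⁻¹ ∈ N) →
          ∀ φ, Induces x y a b f φ → φ ∈ H] := by
  have hGfg : Group.FG G := surf_fg h
  rw [MCG_eq h, MCG_eq hP, subHom_jR]
  -- reformulation of the second condition
  have hact : ∀ (W : Subgroup (Fr n)) {f' : MulAut (Fr n)} {f : MulAut G}, Pair h f' f →
      ((∀ z, ∃ w ∈ W, f (jR a b z) = jR a b (w * z)) ↔ ∀ z, f' z * z⁻¹ ∈ W) := by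
    intro W f' f hp
    constructor
    · intro h1 z
      obtain ⟨w, hw, h2⟩ := h1 z
      rw [hp.fj] at h2
      rw [jR_injective h h2, mul_inv_cancel_right]
      exact hw
    · intro h1 z
      exact ⟨_, h1 z, by rw [hp.fj, inv_mul_cancel_right]⟩
  tfae_have 1 → 2 := by
    rintro ⟨Γ, hc, hf, hH⟩
    refine ⟨Γ.comap (qH x y), comap_fi _ hf, ?_⟩
    intro f hf2 hact2 φ hφ
    obtain ⟨f', φ', ht, hφ'⟩ := bm_trip h hP f hf2
    rw [ht.unique hφ]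
    rw [hact _ ht.pair] at hact2
    refine hH φ' (by rw [Xb_MMs (by omega) hP]; exact hφ') ⟨1, fun t => ?_⟩
    obtain ⟨z, rfl⟩ := qH_surj hP t
    rw [one_mul, inv_one, mul_one, ht.ind, ← map_inv, ← map_mul]
    exact hact2 z
  tfae_have 2 → 1 := by
    rintro ⟨W, hW, hH⟩
    refine bordered_closed hn h hP H hI W hW ?_
    intro f' f φ ht hf hz
    exact hH f hf ((hact W ht.pair).mpr hz) φ ht.induces
  tfae_have 2 → 4 := by
    rintro ⟨W, hW, hH⟩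
    obtain ⟨U, hUc, hUf, hUW⟩ := exists_char_le W hW
    obtain ⟨Γ, hc, hf, hΓ⟩ := pair_ac h (by omega) U inferInstance hUf
    refine ⟨congSub Γ hc, congSub_finiteIndex hc hf, fun g => conj_innMod Γ g, ?_⟩
    intro f hf1 hf2 φ hφ
    obtain ⟨f', φ', ht, -⟩ := bm_trip h hP f hf1
    exact hH f hf1 ((hact W ht.pair).mpr (fun z => hUW (hΓ f' f ht.pair hf2 z))) φ hφ
  tfae_have 4 → 2 := by
    rintro ⟨N, hNf, hNI, hH⟩
    have hI₀ : ∀ g : G, MulAut.conj g ∈ N.normalCore := by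
      intro g ψ
      have h1 := hNI (ψ g)
      rwa [← Cm_conj] at h1
    obtain ⟨U, hUc, hUf, hU⟩ := T1plus h N.normalCore inferInstance inferInstance hI₀
    refine ⟨U, hUf, ?_⟩
    intro f hf1 hf2 φ hφ
    obtain ⟨f', φ', ht, -⟩ := bm_trip h hP f hf1
    rw [hact _ ht.pair] at hf2
    exact hH f hf1 (fun ψ hψ => Subgroup.normalCore_le N (hU f' f ht.pair hf2 ψ hψ)) φ hφ
  tfae_have 2 → 3 := by
    rintro ⟨W, hW, hH⟩
    obtain ⟨U, hUc, hUf, hUW⟩ := exists_char_le W hW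
    obtain ⟨Γ, hc, hf, hΓ⟩ := pair_ac h (by omega) U inferInstance hUf
    refine ⟨Γ, hc, hf, ?_⟩
    intro f hf1 hf2 φ hφ
    obtain ⟨f', φ', ht, -⟩ := bm_trip h hP f hf1
    have hf3 : f ∈ congSub Γ hc := hf2
    have hcn := congSub_normal hc
    refine hH f hf1 ((hact W ht.pair).mpr (fun z => hUW (hΓ f' f ht.pair ?_ z))) φ hφ
    intro ψ _
    have h1 := hcn.conj_mem _ ((congSub Γ hc).inv_mem hf3) ψ
    have h2 := (congSub Γ hc).mul_mem hf3 h1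
    have h3 : f * (ψ * f⁻¹ * ψ⁻¹) = f * ψ * f⁻¹ * ψ⁻¹ := by group
    rwa [h3] at h2
  tfae_have 3 → 2 := by
    rintro ⟨Γ, hc, hf, hH⟩
    refine ⟨Γ.comap (jR a b), comap_fi _ hf, ?_⟩
    intro f hf1 hf2 φ hφ
    obtain ⟨f', φ', ht, -⟩ := bm_trip h hP f hf1
    rw [hact _ ht.pair] at hf2
    exact hH f hf1 (pair_congSub h ht.pair hc hf2) φ hφ
  tfae_finish

end

end Pool.MP_59b15d_al.H73E
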